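import Pool.Agent.H.MP_e23cd6_ag.FM

/-! Farkas' lemma for integer vectors. -/

set_option autoImplicit false

open Finset

namespace Pool.Agent.Abd

/-- The analytic half: strict multiplicative inequalities give an integer vector. -/
theorem PFark_aux {n : ℕ} (S : Finset (Fin n → ℤ)) (χ : Fin n → ℤ) (p : ℕ) (ω : Fin n → ℝ)
    (hω : ∀ c, 0 < ω c)
    (hle : ∀ w ∈ S, (2 : ℝ) * ∏ c, ω c ^ ((p : ℤ) * w c - χ c) ≤ 1) :
    ∃ l : Fin n → ℤ, ∀ w ∈ S, (p : ℤ) * ∑ c, w c * l c < ∑ c, χ c * l c := by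
  classical
  have hl2 : 0 < Real.log 2 := Real.log_pos one_lt_two
  let A : (Fin n → ℤ) → ℝ := fun w => ∑ c, |(((p : ℤ) * w c - χ c : ℤ) : ℝ)|
  have hA : ∀ w, 0 ≤ A w := fun w => Finset.sum_nonneg fun c _ => abs_nonneg _
  obtain ⟨M, hM⟩ := exists_nat_gt ((∑ w ∈ S, A w) / Real.log 2)
  rw [div_lt_iff₀ hl2] at hM
  refine ⟨fun c => ⌊(M : ℝ) * Real.log (ω c)⌋, fun w hw => ?_⟩
  set l : Fin n → ℤ := fun c => ⌊(M : ℝ) * Real.log (ω c)⌋ with hl
  have hAw : A w ≤ ∑ w ∈ S, A w := Finset.single_le_sum (fun w _ => hA w) hw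
  -- logarithm of the inequality
  have hlog : Real.log 2 + ∑ c, (((p : ℤ) * w c - χ c : ℤ) : ℝ) * Real.log (ω c) ≤ 0 := by
    have hpos : 0 < ∏ c, ω c ^ ((p : ℤ) * w c - χ c) :=
      Finset.prod_pos fun c _ => zpow_pos (hω c) _
    have h1 := Real.log_le_log (mul_pos two_pos hpos) (hle w hw)
    rw [Real.log_one, Real.log_mul two_ne_zero hpos.ne', Real.log_prod
      (fun c _ => (zpow_pos (hω c) _).ne')] at h1
    have h2 : ∑ c, Real.log (ω c ^ ((p : ℤ) * w c - χ c)) =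
        ∑ c, (((p : ℤ) * w c - χ c : ℤ) : ℝ) * Real.log (ω c) :=
      Finset.sum_congr rfl fun c _ => Real.log_zpow _ _
    rw [h2] at h1
    exact h1
  have hterm : ∀ c, (((p : ℤ) * w c - χ c : ℤ) : ℝ) * (l c : ℝ) ≤
      (M : ℝ) * ((((p : ℤ) * w c - χ c : ℤ) : ℝ) * Real.log (ω c)) +
        |(((p : ℤ) * w c - χ c : ℤ) : ℝ)| := by
    intro c
    have h1 : (l c : ℝ) ≤ (M : ℝ) * Real.log (ω c) := Int.floor_le _
    have h2 : (M : ℝ) * Real.log (ω c) < (l c : ℝ) + 1 := Int.lt_floor_add_one _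
    set a : ℝ := (((p : ℤ) * w c - χ c : ℤ) : ℝ) with ha
    have h3 : |l c - (M : ℝ) * Real.log (ω c)| ≤ 1 := by
      rw [abs_le]; constructor <;> linarith
    have h4 : a * ((l c : ℝ) - (M : ℝ) * Real.log (ω c)) ≤ |a| := by
      refine le_trans (le_abs_self _) ?_
      rw [abs_mul]
      exact mul_le_of_le_one_right (abs_nonneg a) h3
    linarith [h4]
  have hsum : ∑ c, (((p : ℤ) * w c - χ c : ℤ) : ℝ) * (l c : ℝ) ≤
      (M : ℝ) * (∑ c, (((p : ℤ) * w c - χ c : ℤ) : ℝ) * Real.log (ω c)) + A w := by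
    rw [Finset.mul_sum, ← Finset.sum_add_distrib]
    exact Finset.sum_le_sum fun c _ => hterm c
  have hneg : ∑ c, (((p : ℤ) * w c - χ c : ℤ) : ℝ) * (l c : ℝ) < 0 := by
    have h1 : (M : ℝ) * (∑ c, (((p : ℤ) * w c - χ c : ℤ) : ℝ) * Real.log (ω c)) ≤
        (M : ℝ) * (-Real.log 2) :=
      mul_le_mul_of_nonneg_left (by linarith) (Nat.cast_nonneg M)
    linarith
  have hcast : ∑ c, (((p : ℤ) * w c - χ c : ℤ) : ℝ) * (l c : ℝ) =
      (((p : ℤ) * ∑ c, w c * l c - ∑ c, χ c * l c : ℤ) : ℝ) := by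
    rw [Finset.mul_sum, ← Finset.sum_sub_distrib]
    push_cast
    exact Finset.sum_congr rfl fun c _ => by ring
  rw [hcast] at hneg
  have h5 : (p : ℤ) * ∑ c, w c * l c - ∑ c, χ c * l c < 0 := by exact_mod_cast hneg
  linarith

/-- Farkas' lemma for integer vectors.

Proof. Apply `fm` (file FM.lean) with `S = ↥S`, `p w c = p * w c - χ c`, and the numbers `c w = 2`. If the set
`Λ` of relations contains `l`: `N = ∑ w, l w ≥ 1` and `∑ w, l w * (p * w c - χ c) = 0`, so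
`N * χ c = ∑ w, (p * l w) * w c`; take `ν w = p * l w`. Otherwise the condition on products is void and
there is `ω > 0` with `2 * ∏ c, ω c ^ (p * w c - χ c) ≤ 1` for all `w ∈ S`; put `ξ c = log (ω c)`, so
`∑ c, (p * w c - χ c) * ξ c ≤ - log 2`. For a natural number `M` larger than
`(∑ c, |p * w c - χ c|) / log 2` for all `w ∈ S` put `l c = ⌊M * ξ c⌋`: then
`∑ c, (p * w c - χ c) * l c ≤ M * ∑ (...) * ξ c + ∑ |p * w c - χ c| < 0` for all `w ∈ S`, contradiction to `h`. -/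
theorem farkas_int {n : ℕ} (S : Finset (Fin n → ℤ)) (χ : Fin n → ℤ) (p : ℕ)
    (h : ∀ l : Fin n → ℤ, ∃ w ∈ S, ∑ c, χ c * l c ≤ p * ∑ c, w c * l c) :
    ∃ (N : ℕ) (ν : (Fin n → ℤ) → ℕ), 1 ≤ N ∧ ∑ w ∈ S, ν w = N * p ∧
      ∀ c, (N : ℤ) * χ c = ∑ w ∈ S, ν w * w c := by
  classical
  obtain ⟨Λ, hΛ, hΛ2⟩ := fm (fun (w : S) (c : Fin n) => (p : ℤ) * w.1 c - χ c)
  rcases Λ.eq_empty_or_nonempty with hE | ⟨l, hl⟩
  · exfalso
    obtain ⟨ω, hω, hω2⟩ := hΛ2 (fun _ => 2) (fun _ => zero_le_two) (fun l hl => by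
      rw [hE] at hl; simp at hl)
    obtain ⟨l, hl⟩ := PFark_aux S χ p ω hω (fun w hw => hω2 ⟨w, hw⟩)
    obtain ⟨w, hw, hle⟩ := h l
    exact absurd hle (not_le.2 (hl w hw))
  · obtain ⟨hne, hrel⟩ := hΛ l hl
    let ν : (Fin n → ℤ) → ℕ := fun w => if hw : w ∈ S then p * l ⟨w, hw⟩ else 0
    have hν : ∀ w : S, ν w.1 = p * l w := by
      intro w
      show (if hw : w.1 ∈ S then p * l ⟨w.1, hw⟩ else 0) = _
      rw [dif_pos w.2]
    refine ⟨∑ s, l s, ν, Nat.one_le_iff_ne_zero.2 hne, ?_, fun c => ?_⟩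
    · rw [← Finset.sum_coe_sort S, Finset.sum_mul]
      exact Finset.sum_congr rfl fun w _ => by rw [hν w, mul_comm]
    · have h1 := hrel c
      simp only [mul_sub, Finset.sum_sub_distrib] at h1
      rw [← Finset.sum_mul] at h1
      have h2 : ∑ w ∈ S, (ν w : ℤ) * w c = ∑ w : S, (l w : ℤ) * ((p : ℤ) * w.1 c) := by
        rw [← Finset.sum_coe_sort S]
        refine Finset.sum_congr rfl fun w _ => ?_
        rw [hν w]
        push_cast
        ring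
      rw [h2]
      push_cast
      linarith

end Pool.Agent.Abd
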