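import Pool.Agent.H.MP_e23cd6_ag.TB.SecV

/-! The torus acts on charts and on sections. -/

set_option autoImplicit false

open scoped Manifold ContDiff Topology ENNReal
open MeasureTheory Set Filter

namespace Pool.Agent.Abd

variable {E : Type} [NormedAddCommGroup E] [NormedSpace ℂ E] {n : ℕ}
  {F : Type} [TopologicalSpace F] [ChartedSpace E F]
  {A : TorusAction E n F} {B : LineBundle E F} (Λ : Linearization A B)

theorem InT.one {n : ℕ} : InT (1 : Fin n → ℂ) := fun _ => one_ne_zero

theorem InT.mul {n : ℕ} {a b : Fin n → ℂ} (ha : InT a) (hb : InT b) : InT (a * b) :=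
  fun c => mul_ne_zero (ha c) (hb c)

theorem InT.inv {n : ℕ} {a : Fin n → ℂ} (ha : InT a) : InT a⁻¹ := fun c => inv_ne_zero (ha c)

theorem InT.mul_inv {n : ℕ} {a : Fin n → ℂ} (ha : InT a) : a * a⁻¹ = 1 := by
  funext c
  exact mul_inv_cancel₀ (ha c)

theorem InT.inv_mul {n : ℕ} {a : Fin n → ℂ} (ha : InT a) : a⁻¹ * a = 1 := by
  funext c
  exact inv_mul_cancel₀ (ha c)

theorem act_inv_act (A : TorusAction E n F) {a : Fin n → ℂ} (ha : InT a) (y : F) :
    A.act a⁻¹ (A.act a y) = y := by
  rw [← A.mul _ _ ha.inv ha, ha.inv_mul, A.one]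

theorem act_act_inv (A : TorusAction E n F) {a : Fin n → ℂ} (ha : InT a) (y : F) :
    A.act a (A.act a⁻¹ y) = y := by
  rw [← A.mul _ _ ha ha.inv, ha.mul_inv, A.one]

/-- The action of `a` is holomorphic.
Proof. Compose `A.hol` with `y ↦ (a, y)`. -/
theorem act_contMDiff (A : TorusAction E n F) {a : Fin n → ℂ} (ha : InT a) :
    ContMDiff 𝓘(ℂ, E) 𝓘(ℂ, E) ω (A.act a) := by
  intro y
  have h1 : ContMDiffAt 𝓘(ℂ, E) (𝓘(ℂ, Fin n → ℂ).prod 𝓘(ℂ, E)) ω
      (fun y : F => ((a, y) : (Fin n → ℂ) × F)) y := contMDiffAt_const.prodMk contMDiffAt_id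
  exact ContMDiffAt.comp (g := fun v : (Fin n → ℂ) × F => A.act v.1 v.2)
    (f := fun y : F => ((a, y) : (Fin n → ℂ) × F)) y (A.hol a ha y) h1

theorem act_continuous (A : TorusAction E n F) {a : Fin n → ℂ} (ha : InT a) :
    Continuous (A.act a) := (act_contMDiff A ha).continuous

/-- The homeomorphism `y ↦ a y`. -/
noncomputable def actHomeo (A : TorusAction E n F) {a : Fin n → ℂ} (ha : InT a) : F ≃ₜ F where
  toFun := A.act a
  invFun := A.act a⁻¹
  left_inv := act_inv_act A ha
  right_inv := act_act_inv A ha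
  continuous_toFun := act_continuous A ha
  continuous_invFun := act_continuous A ha.inv

/-- The chart `y ↦ φ (a y)`. -/
noncomputable def pull (A : TorusAction E n F) {a : Fin n → ℂ} (ha : InT a)
    (φ : OpenPartialHomeomorph F E) : OpenPartialHomeomorph F E :=
  (actHomeo A ha).toOpenPartialHomeomorph.trans φ

theorem mem_pull_source (A : TorusAction E n F) {a : Fin n → ℂ} (ha : InT a)
    (φ : OpenPartialHomeomorph F E) (y : F) : y ∈ (pull A ha φ).source ↔ A.act a y ∈ φ.source := by
  simp [pull, actHomeo]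

theorem pull_apply (A : TorusAction E n F) {a : Fin n → ℂ} (ha : InT a)
    (φ : OpenPartialHomeomorph F E) (y : F) : pull A ha φ y = φ (A.act a y) := rfl

/-- The function `lam i j a y` has no zero.
Proof. `Λ.mul j i j a⁻¹ a y` gives `lam j i a⁻¹ (a y) * lam i j a y = lam j j 1 y = g j j y = 1`. -/
theorem lam_ne_zero {a : Fin n → ℂ} (ha : InT a) {i j : B.ι} {y : F} (hj : y ∈ B.U j)
    (hi : A.act a y ∈ B.U i) : Λ.lam i j a y ≠ 0 := by
  intro h0
  have h1 := Λ.mul j i j a⁻¹ a y ha.inv ha hj hi (by rw [ha.inv_mul, A.one]; exact hj)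
  rw [h0, mul_zero, ha.inv_mul, Λ.one j j y hj hj, B.one j y hj] at h1
  exact zero_ne_one h1

/-- Change of frames at both ends.
Proof. `Λ.mul` with `b = 1` and with `a = 1`, and `Λ.one`. -/
theorem lam_change {a : Fin n → ℂ} (ha : InT a) {i i' j j' : B.ι} {y : F} (hj : y ∈ B.U j)
    (hj' : y ∈ B.U j') (hi : A.act a y ∈ B.U i) (hi' : A.act a y ∈ B.U i') :
    Λ.lam i j a y = B.g i i' (A.act a y) * Λ.lam i' j' a y * B.g j' j y := by
  have h1 := Λ.mul i i' j 1 a y InT.one ha hj hi' (by rw [one_mul]; exact hi)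
  rw [one_mul, Λ.one i i' _ hi hi'] at h1
  have h2 := Λ.mul i' j' j a 1 y ha InT.one hj (by rw [A.one]; exact hj')
    (by rw [mul_one]; exact hi')
  rw [mul_one, A.one, Λ.one j' j y hj' hj] at h2
  rw [← h1, ← h2, mul_assoc]

variable [IsManifold 𝓘(ℂ, E) ω F]

/-- The chart `y ↦ φ (a y)` belongs to the maximal atlas.

Proof. `mem_maximalAtlas_iff` (or the definition): for each `e'` in the atlas the coordinate changes
`φ ∘ act a ∘ e'.symm` and `e' ∘ act a⁻¹ ∘ φ.symm` are analytic on their (open) domains, being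
compositions of maps that are `ContMDiffOn` (`contMDiffOn_of_mem_maximalAtlas`,
`contMDiffOn_symm_of_mem_maximalAtlas`, `act_contMDiff`); membership in `contDiffGroupoid ω 𝓘(ℂ, E)`
is analyticity of both maps (`contDiffGroupoid`, `mem_groupoid_of_pregroupoid`,
`contDiffPregroupoid`; the model is `𝓘(ℂ, E)`, so `range = univ`). -/
theorem pull_mem (A : TorusAction E n F) {a : Fin n → ℂ} (ha : InT a)
    {φ : OpenPartialHomeomorph F E} (hφ : φ ∈ Charts E F) : pull A ha φ ∈ Charts E F := by
  apply OpenPartialHomeomorph.mem_maximalAtlas_of_contMDiffOn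
  · intro y hy
    apply ContMDiffAt.contMDiffWithinAt
    rw [mem_pull_source] at hy
    exact ContMDiffAt.comp (g := φ) (f := A.act a) y (contMDiffAt_of_mem_maximalAtlas hφ hy)
      (act_contMDiff A ha y)
  · intro w hw
    apply ContMDiffAt.contMDiffWithinAt
    have hw' : w ∈ φ.target := by
      simpa [pull, actHomeo] using hw
    exact ContMDiffAt.comp (g := A.act a⁻¹) (f := φ.symm) w (act_contMDiff A ha.inv (φ.symm w))
      (contMDiffAt_symm_of_mem_maximalAtlas hφ hw')

/-- The Jacobian determinant of the action is the Jacobian determinant of the chart `pull`.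
Proof. `pull A ha φ ∘ ψ.symm = φ ∘ A.act a ∘ ψ.symm` by definition. -/
theorem jac_pull (A : TorusAction E n F) {a : Fin n → ℂ} (ha : InT a)
    (φ ψ : OpenPartialHomeomorph F E) (y : F) : jac (pull A ha φ) ψ y = A.jac φ ψ a y := rfl

end Pool.Agent.Abd
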