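import Pool.Agent.H.MP_e23cd6_ag.KltChart
import Pool.Agent.H.MP_e23cd6_ag.TB.PAct

/-! The torus acts on sections. -/

set_option autoImplicit false

open scoped Manifold ContDiff Topology ENNReal
open MeasureTheory Set Filter

namespace Pool.Agent.Abd

variable {E : Type} [NormedAddCommGroup E] [NormedSpace ℂ E] {n : ℕ}
  {F : Type} [TopologicalSpace F] [ChartedSpace E F] [IsManifold 𝓘(ℂ, E) ω F]
  {A : TorusAction E n F} {B : LineBundle E F} (Λ : Linearization A B)

/-- Change of frames for an element of `secMod`, with a fixed chart. -/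
theorem PAct2_frame {k m : ℕ} (t : secMod B k m) {j j' : B.ι} {φ : OpenPartialHomeomorph F E}
    (hφ : φ ∈ Charts E F) {y : F} (hj : y ∈ B.U j) (hj' : y ∈ B.U j') (hy : y ∈ φ.source) :
    t.1 j' φ y = B.g j' j y ^ k * t.1 j φ y := by
  have h1 := t.2.2.2 j' j φ hφ φ hφ y hj' hj hy hy
  have h2 := t.2.2.2 j j φ hφ φ hφ y hj hj hy hy
  rw [B.one j y hj, one_pow, one_mul] at h2
  rw [h1, mul_assoc, ← h2]

/-- The jacobians of the pulled back charts. -/
theorem PAct2_jac (A : TorusAction E n F) {a : Fin n → ℂ} (ha : InT a)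
    (φ ψ : OpenPartialHomeomorph F E) (y : F) :
    jac (pull A ha φ) (pull A ha ψ) y = jac φ ψ (A.act a y) := by
  have h1 : (pull A ha φ : F → E) ∘ (pull A ha ψ).symm = φ ∘ ψ.symm := by
    funext w
    change φ (A.act a (A.act a⁻¹ (ψ.symm w))) = φ (ψ.symm w)
    rw [act_act_inv A ha]
  unfold jac
  rw [h1]
  rfl

/-- The image of a section under the torus element `a`, in terms of `pull`.
Proof. `t.2.2.2 j j (pull A ha φ) ψ`, `B.one`, `jac_pull`. -/
theorem isAct_iff {k m : ℕ} {a : Fin n → ℂ} (ha : InT a) (t t' : secMod B k m) :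
    Λ.IsAct a t t' ↔ ∀ i j, ∀ φ ∈ Charts E F, ∀ y, A.act a y ∈ B.U i → y ∈ B.U j →
      A.act a y ∈ φ.source → t'.1 i φ (A.act a y) = Λ.lam i j a y ^ k * t.1 j (pull A ha φ) y := by
  have key : ∀ j, ∀ φ ∈ Charts E F, ∀ ψ ∈ Charts E F, ∀ y, y ∈ B.U j → A.act a y ∈ φ.source →
      y ∈ ψ.source → t.1 j (pull A ha φ) y = A.jac φ ψ a y ^ m * t.1 j ψ y := by
    intro j φ hφ ψ hψ y hj h1 h2
    have h3 := t.2.2.2 j j (pull A ha φ) (pull_mem A ha hφ) ψ hψ y hj hj
      ((mem_pull_source A ha φ y).2 h1) h2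
    rw [B.one j y hj, one_pow, one_mul, jac_pull] at h3
    exact h3
  constructor
  · intro h i j φ hφ y hi hj h1
    have hψ := IsManifold.chart_mem_maximalAtlas (I := 𝓘(ℂ, E)) (n := ω) y
    have h2 := h i j φ hφ (chartAt E y) hψ y hi hj h1 (mem_chart_source E y)
    rw [h2, key j φ hφ (chartAt E y) hψ y hj h1 (mem_chart_source E y), mul_assoc]
  · intro h i j φ hφ ψ hψ y hi hj h1 h2
    rw [h i j φ hφ y hi hj h1, key j φ hφ ψ hψ y hj h1 h2, mul_assoc]

/-- An index of a frame at the point `y`. -/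
noncomputable def PAct2_J (B : LineBundle E F) (y : F) : B.ι := (B.cover y).choose

theorem PAct2_J_mem (B : LineBundle E F) (y : F) : y ∈ B.U (PAct2_J B y) := (B.cover y).choose_spec

open Classical in
/-- The image of a section, as a family of functions. -/
noncomputable def PAct2_f {k m : ℕ} {a : Fin n → ℂ} (ha : InT a) (t : secMod B k m) :
    B.ι → OpenPartialHomeomorph F E → F → ℂ := fun i φ x =>
  if φ ∈ Charts E F ∧ x ∈ B.U i ∧ x ∈ φ.source then
    Λ.lam i (PAct2_J B (A.act a⁻¹ x)) a (A.act a⁻¹ x) ^ k *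
      t.1 (PAct2_J B (A.act a⁻¹ x)) (pull A ha φ) (A.act a⁻¹ x)
  else 0

theorem PAct2_f_eq {k m : ℕ} {a : Fin n → ℂ} (ha : InT a) (t : secMod B k m) {i j : B.ι}
    {φ : OpenPartialHomeomorph F E} (hφ : φ ∈ Charts E F) {x : F} (hi : x ∈ B.U i)
    (hx : x ∈ φ.source) (hj : A.act a⁻¹ x ∈ B.U j) :
    PAct2_f Λ ha t i φ x =
      Λ.lam i j a (A.act a⁻¹ x) ^ k * t.1 j (pull A ha φ) (A.act a⁻¹ x) := by
  unfold PAct2_f
  rw [if_pos ⟨hφ, hi, hx⟩]
  have hJ := PAct2_J_mem B (A.act a⁻¹ x)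
  have hx' : A.act a (A.act a⁻¹ x) = x := act_act_inv A ha x
  have h1 := lam_change Λ ha (i := i) (i' := i) (j := j) (j' := PAct2_J B (A.act a⁻¹ x))
    hj hJ (by rw [hx']; exact hi) (by rw [hx']; exact hi)
  rw [hx', B.one i x hi, one_mul] at h1
  have h2 := PAct2_frame t (pull_mem A ha hφ) hj hJ
    ((mem_pull_source A ha φ _).2 (by rw [hx']; exact hx))
  rw [h2, h1]
  ring

/-- The torus acts on the sections.

Proof. Let `J y` be an index with `y ∈ B.U (J y)` (choice). Define `t' i φ x = 0` unless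
`φ ∈ Charts E F`, `x ∈ B.U i`, `x ∈ φ.source`, and then
`t' i φ x = lam i (J y) a y ^ k * t (J y) (pull A ha φ) y` with `y = a⁻¹ x`. By `lam_change` and the
transformation rule of `t` the right side is the same with any `j` such that `y ∈ B.U j` instead of
`J y`. Holomorphic: near `x` use a fixed `j` (the sets are open), `Λ.hol`, `act_contMDiff` for `a⁻¹`.
Transformation rule: `lam_change` for the frames; for the charts `φ`, `ψ`:
`t j (pull φ) y = jac (pull φ) (pull ψ) y ^ m * t j (pull ψ) y` and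
`jac (pull φ) (pull ψ) y = jac φ ψ (a y)`, since `pull φ ∘ (pull ψ).symm = φ ∘ ψ.symm` near
`ψ (a y)` (as `(pull ψ).symm = act a⁻¹ ∘ ψ.symm`). Conclude with `isAct_iff`. -/
theorem exists_act {k m : ℕ} {a : Fin n → ℂ} (ha : InT a) (t : secMod B k m) :
    ∃ t', Λ.IsAct a t t' := by
  have hmem : PAct2_f Λ ha t ∈ secMod B k m := by
    refine ⟨fun i φ x h => ?_, fun i φ hφ x hx hx' => ?_, fun i i' φ hφ ψ hψ x hi hi' h4 h5 => ?_⟩
    · by_contra hcon
      exact h (if_neg hcon)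
    · have hy := PAct2_J_mem B (A.act a⁻¹ x)
      set j := PAct2_J B (A.act a⁻¹ x) with hjdef
      have hxx : A.act a (A.act a⁻¹ x) = x := act_act_inv A ha x
      have h1 := Λ.hol i j a (A.act a⁻¹ x) ha hy (by rw [hxx]; exact hx)
      have h2 : ContMDiffAt 𝓘(ℂ, E) 𝓘(ℂ, E) ω (A.act a⁻¹) x := act_contMDiff A ha.inv x
      have h3 : ContMDiffAt 𝓘(ℂ, E) (𝓘(ℂ, Fin n → ℂ).prod 𝓘(ℂ, E)) ω
          (fun x : F => ((a, A.act a⁻¹ x) : (Fin n → ℂ) × F)) x := contMDiffAt_const.prodMk h2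
      have h4 : HolAt E (fun x => Λ.lam i j a (A.act a⁻¹ x)) x :=
        ContMDiffAt.comp (g := fun v : (Fin n → ℂ) × F => Λ.lam i j v.1 v.2)
          (f := fun x : F => ((a, A.act a⁻¹ x) : (Fin n → ℂ) × F)) x h1 h3
      have h5 := t.2.2.1 j (pull A ha φ) (pull_mem A ha hφ) (A.act a⁻¹ x) hy
        ((mem_pull_source A ha φ _).2 (by rw [hxx]; exact hx'))
      have h6 : HolAt E (fun x => t.1 j (pull A ha φ) (A.act a⁻¹ x)) x :=
        ContMDiffAt.comp (g := t.1 j (pull A ha φ)) (f := A.act a⁻¹) x h5 h2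
      have h7 : HolAt E (fun x => Λ.lam i j a (A.act a⁻¹ x) ^ k *
          t.1 j (pull A ha φ) (A.act a⁻¹ x)) x := (h4.pow k).mul h6
      refine h7.congr_of_eventuallyEq ?_
      filter_upwards [(B.isOpen i).mem_nhds hx, φ.open_source.mem_nhds hx',
        (act_continuous A ha.inv).continuousAt.preimage_mem_nhds ((B.isOpen j).mem_nhds hy)]
        with x' e1 e2 e3
      exact PAct2_f_eq Λ ha t hφ e1 e2 e3
    · have hy := PAct2_J_mem B (A.act a⁻¹ x)
      set j := PAct2_J B (A.act a⁻¹ x) with hjdef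
      have hxx : A.act a (A.act a⁻¹ x) = x := act_act_inv A ha x
      rw [PAct2_f_eq Λ ha t hφ hi h4 hy, PAct2_f_eq Λ ha t hψ hi' h5 hy]
      have h1 := lam_change Λ ha (i := i) (i' := i') (j := j) (j' := j) hy hy
        (by rw [hxx]; exact hi) (by rw [hxx]; exact hi')
      rw [hxx, B.one j _ hy, mul_one] at h1
      have h2 := t.2.2.2 j j (pull A ha φ) (pull_mem A ha hφ) (pull A ha ψ) (pull_mem A ha hψ)
        (A.act a⁻¹ x) hy hy ((mem_pull_source A ha φ _).2 (by rw [hxx]; exact h4))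
        ((mem_pull_source A ha ψ _).2 (by rw [hxx]; exact h5))
      rw [B.one j _ hy, one_pow, one_mul, PAct2_jac, hxx] at h2
      rw [h2, h1]
      ring
  refine ⟨⟨PAct2_f Λ ha t, hmem⟩, ?_⟩
  rw [isAct_iff Λ ha]
  intro i j φ hφ y hi hj h1
  have h2 := PAct2_f_eq Λ ha t (i := i) (j := j) hφ hi h1 (by rw [act_inv_act A ha]; exact hj)
  rw [act_inv_act A ha] at h2
  exact h2

end Pool.Agent.Abd
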