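import Pool.Agent.H.MP_e23cd6_ag.TB.PRho

/-! The representation is holomorphic. -/

set_option autoImplicit false

open scoped Manifold ContDiff Topology ENNReal
open MeasureTheory Set Filter

namespace Pool.Agent.Abd

variable {E : Type} [NormedAddCommGroup E] [NormedSpace ℂ E] [FiniteDimensional ℂ E] {n : ℕ}
  {F : Type} [TopologicalSpace F] [ChartedSpace E F] [IsManifold 𝓘(ℂ, E) ω F]
  {A : TorusAction E n F} {B : LineBundle E F} (Λ : Linearization A B)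

/-- A finite product of differentiable functions is differentiable. -/
theorem PHolo_prod {V : Type} [NormedAddCommGroup V] [NormedSpace ℂ V] {ι : Type} [DecidableEq ι]
    {g : ι → V → ℂ} {a : V} (hg : ∀ i, DifferentiableAt ℂ (g i) a) (u : Finset ι) :
    DifferentiableAt ℂ (fun b => ∏ i ∈ u, g i b) a := by
  induction u using Finset.induction_on with
  | empty => simp
  | insert c u hc ih =>
    have h1 : (fun b => ∏ i ∈ insert c u, g i b) = fun b => g c b * ∏ i ∈ u, g i b := by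
      funext b
      rw [Finset.prod_insert hc]
    rw [h1]
    exact (hg c).mul ih

/-- The determinant of a differentiable family of linear maps is differentiable. -/
theorem PHolo_det {V E : Type} [NormedAddCommGroup V] [NormedSpace ℂ V] [NormedAddCommGroup E]
    [NormedSpace ℂ E] [FiniteDimensional ℂ E] {L : V → E →L[ℂ] E} {a : V}
    (hL : DifferentiableAt ℂ L a) : DifferentiableAt ℂ (fun b => (L b).det) a := by
  let e := Module.finBasis ℂ E
  have h : (fun b => (L b).det) = fun b => ∑ σ : Equiv.Perm (Fin (Module.finrank ℂ E)),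
      ((Equiv.Perm.sign σ : ℤ) : ℂ) * ∏ i, e.repr (L b (e i)) (σ i) := by
    funext b
    have h1 : (L b).det = LinearMap.det (L b : E →ₗ[ℂ] E) := rfl
    rw [h1, ← LinearMap.det_toMatrix e, Matrix.det_apply']
    apply Finset.sum_congr rfl
    intro σ _
    congr 1
    apply Finset.prod_congr rfl
    intro i _
    rw [LinearMap.toMatrix_apply]
    rfl
  rw [h]
  apply DifferentiableAt.fun_sum
  intro σ _
  apply DifferentiableAt.const_mul
  apply PHolo_prod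
  intro i
  have h2 : DifferentiableAt ℂ (fun b => L b (e i)) a :=
    ((ContinuousLinearMap.apply ℂ E (e i)).differentiableAt).comp a hL
  have h3 := (LinearMap.toContinuousLinearMap (e.coord (σ i))).differentiableAt.comp a h2
  exact h3

/-- The Jacobian determinant in the second variable of an analytic map is differentiable. -/
theorem PHolo_jac {V E : Type} [NormedAddCommGroup V] [NormedSpace ℂ V] [NormedAddCommGroup E]
    [NormedSpace ℂ E] [FiniteDimensional ℂ E] {G : V × E → E} {y : V → E} {a : V}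
    (hG : ContDiffAt ℂ 2 G (a, y a)) (hy : DifferentiableAt ℂ y a) :
    DifferentiableAt ℂ (fun b => (fderiv ℂ (fun w => G (b, w)) (y b)).det) a := by
  have hp : DifferentiableAt ℂ (fun b => (b, y b)) a := differentiableAt_id.prodMk hy
  have h1 : ∀ᶠ p in 𝓝 (a, y a), ContDiffAt ℂ 2 G p := hG.eventually (by decide)
  have h2 : ∀ᶠ b in 𝓝 a, ContDiffAt ℂ 2 G (b, y b) := hp.continuousAt.eventually h1
  have h3 : DifferentiableAt ℂ (fderiv ℂ G) (a, y a) :=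
    (hG.fderiv_right (m := 1) (by norm_num)).differentiableAt (by norm_num)
  have h4 : DifferentiableAt ℂ (fun b => fderiv ℂ G (b, y b)) a :=
    DifferentiableAt.comp a (g := fderiv ℂ G) (f := fun b => (b, y b)) h3 hp
  have h5 : DifferentiableAt ℂ
      (fun b => (fderiv ℂ G (b, y b)).comp (ContinuousLinearMap.inr ℂ V E)) a :=
    h4.clm_comp (differentiableAt_const _)
  have h6 := PHolo_det h5
  refine h6.congr_of_eventuallyEq ?_
  filter_upwards [h2] with b hb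
  have h7 : HasFDerivAt G (fderiv ℂ G (b, y b)) (b, y b) :=
    (hb.differentiableAt (by norm_num)).hasFDerivAt
  have h8 : HasFDerivAt (fun w : E => (b, w)) (ContinuousLinearMap.inr ℂ V E) (y b) :=
    hasFDerivAt_prodMk_right b (y b)
  have h9 : HasFDerivAt (fun w => G (b, w))
      ((fderiv ℂ G (b, y b)).comp (ContinuousLinearMap.inr ℂ V E)) (y b) :=
    HasFDerivAt.comp (y b) (g := G) (f := fun w : E => (b, w)) h7 h8
  rw [h9.fderiv]

theorem PHolo_ev {n : ℕ} {a₀ : Fin n → ℂ} (ha : InT a₀) : ∀ᶠ a in 𝓝 a₀, InT a := by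
  unfold InT
  rw [eventually_all]
  intro c
  exact (continuous_apply c).continuousAt.eventually_ne (ha c)

theorem PHolo_inv {n : ℕ} {a₀ : Fin n → ℂ} (ha : InT a₀) :
    ContDiffAt ℂ ω (fun a : Fin n → ℂ => a⁻¹) a₀ := by
  rw [contDiffAt_pi]
  intro c
  exact (contDiff_apply ℂ ℂ c).contDiffAt.inv (ha c)

/-- The values of `a t` depend holomorphically on `a`.

Proof. Fix `a₀`, `x = v.x`, `φ = v.φ`, `i = v.i`, and `y₀ = a₀⁻¹ x`, `j` with `y₀ ∈ B.U j`,
`ψ = chartAt E y₀`. For `a` near `a₀` put `y = a⁻¹ x` (holomorphic in `a`: `A.hol` composed with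
`a ↦ (a⁻¹, x)`, `a ↦ a⁻¹` is holomorphic at vectors without zero entries); then `y ∈ B.U j ∩ ψ.source`,
`InT a`, and by the definition of `IsAct` (`rho_isAct`)
`(rho a t) i φ x = lam i j a y ^ k * A.jac φ ψ a y ^ m * t j ψ y`. The factors are holomorphic in `a`:
`Λ.hol` composed with `a ↦ (a, a⁻¹ x)`; `t.2.2.1`; and
`A.jac φ ψ a y = det (fderiv ℂ (fun w => φ (A.act a (ψ.symm w))) (ψ y))`: the map
`G (a, w) = φ (A.act a (ψ.symm w))` is analytic (`ContDiffAt ℂ ω`) near `(a₀, ψ y₀)`, its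
derivative in `w` is `fderiv ℂ G (a, w) ∘ (0, id)` (`HasFDerivAt.comp` with `w ↦ (a, w)`), so it is
`C^1` in `(a, w)` (`ContDiffAt.fderiv_right`), compose with `a ↦ (a, ψ (a⁻¹ x))` and with `det`
(`ContinuousLinearMap.det` is a polynomial: use a basis, `LinearMap.det` of the matrix of the map, or
`ContinuousLinearMap.det` of `ContDiff`; for differentiability: `LinearMap.toMatrix` with a basis and
`Matrix.det_apply`). -/
theorem rho_holo {k m : ℕ} (t : secMod B k m) (v : Spot B) {a₀ : Fin n → ℂ} (ha : InT a₀) :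
    DifferentiableAt ℂ (fun a => (rho Λ k m a t).1 v.i v.φ v.x) a₀ := by
  obtain ⟨i, φ, x, hφ, hi, hx⟩ := v
  simp only
  obtain ⟨j, hj⟩ := B.cover (A.act a₀⁻¹ x)
  set y₀ : F := A.act a₀⁻¹ x with hy₀
  have hψ := IsManifold.chart_mem_maximalAtlas (I := 𝓘(ℂ, E)) (n := ω) y₀
  set ψ : OpenPartialHomeomorph F E := chartAt E y₀ with hψd
  have hyψ : y₀ ∈ ψ.source := mem_chart_source E y₀
  have hxa : A.act a₀ y₀ = x := act_act_inv A ha x
  -- the map `a ↦ a⁻¹ x`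
  have h1 : ContMDiffAt 𝓘(ℂ, Fin n → ℂ) 𝓘(ℂ, E) ω (fun a : Fin n → ℂ => A.act a⁻¹ x) a₀ := by
    have h2 : ContMDiffAt 𝓘(ℂ, Fin n → ℂ) (𝓘(ℂ, Fin n → ℂ).prod 𝓘(ℂ, E)) ω
        (fun a : Fin n → ℂ => (a⁻¹, x)) a₀ :=
      (PHolo_inv ha).contMDiffAt.prodMk contMDiffAt_const
    exact ContMDiffAt.comp (g := fun v : (Fin n → ℂ) × F => A.act v.1 v.2)
      (f := fun a : Fin n → ℂ => (a⁻¹, x)) a₀ (A.hol a₀⁻¹ ha.inv x) h2
  have h2 : ContMDiffAt 𝓘(ℂ, Fin n → ℂ) (𝓘(ℂ, Fin n → ℂ).prod 𝓘(ℂ, E)) ω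
      (fun a : Fin n → ℂ => (a, A.act a⁻¹ x)) a₀ := contMDiffAt_id.prodMk h1
  -- the factors
  have hlam : DifferentiableAt ℂ (fun a => Λ.lam i j a (A.act a⁻¹ x)) a₀ := by
    have h3 : ContMDiffAt 𝓘(ℂ, Fin n → ℂ) 𝓘(ℂ) ω (fun a => Λ.lam i j a (A.act a⁻¹ x)) a₀ :=
      ContMDiffAt.comp (g := fun v : (Fin n → ℂ) × F => Λ.lam i j v.1 v.2)
        (f := fun a : Fin n → ℂ => (a, A.act a⁻¹ x)) a₀
        (Λ.hol i j a₀ y₀ ha hj (by rw [hxa]; exact hi)) h2
    exact h3.contDiffAt.differentiableAt (by simp)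
  have ht : DifferentiableAt ℂ (fun a => t.1 j ψ (A.act a⁻¹ x)) a₀ := by
    have h3 : ContMDiffAt 𝓘(ℂ, Fin n → ℂ) 𝓘(ℂ) ω (fun a => t.1 j ψ (A.act a⁻¹ x)) a₀ :=
      ContMDiffAt.comp (g := t.1 j ψ) (f := fun a : Fin n → ℂ => A.act a⁻¹ x) a₀
        (t.2.2.1 j ψ hψ y₀ hj hyψ) h1
    exact h3.contDiffAt.differentiableAt (by simp)
  have hyd : DifferentiableAt ℂ (fun a => ψ (A.act a⁻¹ x)) a₀ := by
    have h3 : ContMDiffAt 𝓘(ℂ, Fin n → ℂ) 𝓘(ℂ, E) ω (fun a => ψ (A.act a⁻¹ x)) a₀ :=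
      ContMDiffAt.comp (g := ψ) (f := fun a : Fin n → ℂ => A.act a⁻¹ x) a₀
        (contMDiffAt_of_mem_maximalAtlas hψ hyψ) h1
    exact h3.contDiffAt.differentiableAt (by simp)
  have hG : ContDiffAt ℂ 2 (fun p : (Fin n → ℂ) × E => φ (A.act p.1 (ψ.symm p.2))) (a₀, ψ y₀) := by
    have h3 : ContMDiffAt 𝓘(ℂ, E) 𝓘(ℂ, E) ω ψ.symm (ψ y₀) :=
      contMDiffAt_symm_of_mem_maximalAtlas hψ (ψ.map_source hyψ)
    have h4 : ContMDiffAt 𝓘(ℂ, (Fin n → ℂ) × E) 𝓘(ℂ, E) ω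
        (fun p : (Fin n → ℂ) × E => ψ.symm p.2) (a₀, ψ y₀) :=
      ContMDiffAt.comp (g := ψ.symm) (f := fun p : (Fin n → ℂ) × E => p.2) (a₀, ψ y₀) h3
        contDiff_snd.contMDiff.contMDiffAt
    have h5 : ContMDiffAt 𝓘(ℂ, (Fin n → ℂ) × E) (𝓘(ℂ, Fin n → ℂ).prod 𝓘(ℂ, E)) ω
        (fun p : (Fin n → ℂ) × E => (p.1, ψ.symm p.2)) (a₀, ψ y₀) :=
      (contDiff_fst.contMDiff.contMDiffAt).prodMk h4
    have h6 : ContMDiffAt (𝓘(ℂ, Fin n → ℂ).prod 𝓘(ℂ, E)) 𝓘(ℂ, E) ω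
        (fun v : (Fin n → ℂ) × F => A.act v.1 v.2) (a₀, ψ.symm (ψ y₀)) := by
      rw [ψ.left_inv hyψ]
      exact A.hol a₀ ha y₀
    have h7 : ContMDiffAt 𝓘(ℂ, (Fin n → ℂ) × E) 𝓘(ℂ, E) ω
        (fun p : (Fin n → ℂ) × E => A.act p.1 (ψ.symm p.2)) (a₀, ψ y₀) :=
      ContMDiffAt.comp (g := fun v : (Fin n → ℂ) × F => A.act v.1 v.2)
        (f := fun p : (Fin n → ℂ) × E => (p.1, ψ.symm p.2)) (a₀, ψ y₀) h6 h5
    have h8 : ContMDiffAt 𝓘(ℂ, E) 𝓘(ℂ, E) ω φ (A.act a₀ (ψ.symm (ψ y₀))) := by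
      rw [ψ.left_inv hyψ, hxa]
      exact contMDiffAt_of_mem_maximalAtlas hφ hx
    have h9 : ContMDiffAt 𝓘(ℂ, (Fin n → ℂ) × E) 𝓘(ℂ, E) ω
        (fun p : (Fin n → ℂ) × E => φ (A.act p.1 (ψ.symm p.2))) (a₀, ψ y₀) :=
      ContMDiffAt.comp (g := φ) (f := fun p : (Fin n → ℂ) × E => A.act p.1 (ψ.symm p.2))
        (a₀, ψ y₀) h8 h7
    exact h9.contDiffAt.of_le (by exact_mod_cast le_top)
  have hjac : DifferentiableAt ℂ (fun a => A.jac φ ψ a (A.act a⁻¹ x)) a₀ :=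
    PHolo_jac (y := fun a => ψ (A.act a⁻¹ x)) hG hyd
  refine (((hlam.pow k).mul (hjac.pow m)).mul ht).congr_of_eventuallyEq ?_
  have hev : ∀ᶠ a in 𝓝 a₀, A.act a⁻¹ x ∈ B.U j ∩ ψ.source :=
    h1.continuousAt.eventually (((B.isOpen j).inter ψ.open_source).mem_nhds ⟨hj, hyψ⟩)
  filter_upwards [PHolo_ev ha, hev] with a haT hay
  have e1 := act_act_inv A haT x
  have e2 := rho_isAct Λ haT t i j φ hφ ψ hψ (A.act a⁻¹ x) (by rw [e1]; exact hi) hay.1
    (by rw [e1]; exact hx) hay.2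
  rw [e1] at e2
  exact e2

end Pool.Agent.Abd
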