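import Pool.Agent.H.MP_e23cd6_ag.KltChart

/-! Change of variables between two charts. -/

set_option autoImplicit false

open scoped Manifold ContDiff Topology ENNReal
open MeasureTheory Set Filter

namespace Pool.Agent.Abd

variable {E : Type} [NormedAddCommGroup E] [NormedSpace ℂ E] [FiniteDimensional ℂ E]
  {F : Type} [TopologicalSpace F] [ChartedSpace E F] [IsManifold 𝓘(ℂ, E) ω F]

/-- The real determinant of a complex linear map is the square of the modulus of the complex one. -/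
theorem pchg_det_restrictScalars (A : E →L[ℂ] E) :
    (A.restrictScalars ℝ).det = ‖A.det‖ ^ 2 := by
  have h1 : (A.restrictScalars ℝ).det =
      LinearMap.det ((A : E →ₗ[ℂ] E).restrictScalars ℝ) := rfl
  have h2 : A.det = LinearMap.det (A : E →ₗ[ℂ] E) := rfl
  rw [h1, h2, LinearMap.det_restrictScalars, Algebra.norm_complex_apply, Complex.normSq_eq_norm_sq]

/-- Change of variables between two charts, for a section with values multiplied by `|jac| ^ m`.

Here `Q ⊆ φ.target` is a measurable set which `φ.symm` maps into `ψ.source`; `G = ψ ∘ φ.symm` is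
injective and holomorphic near each point of `Q`, with complex Jacobian determinant
`J z = jac ψ φ (φ.symm z) ≠ 0`. Then `∫_Q |J| ^ 2 * g (G z) dz = ∫_{G '' Q} g`.

Proof. `lintegral_image_eq_lintegral_abs_det_fderiv_mul` with the real derivative
`(fderiv ℂ G z).restrictScalars ℝ` (`kltchart_contDiffAt`); its determinant is `‖det‖ ^ 2`
(`LinearMap.det_restrictScalars`, `Algebra.norm_complex_eq`, `Complex.normSq_eq_norm_sq`). -/
theorem lintegral_chart_change [MeasureSpace E] [BorelSpace E]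
    [(volume : Measure E).IsAddHaarMeasure] {φ ψ : OpenPartialHomeomorph F E}
    (hφ : φ ∈ Charts E F) (hψ : ψ ∈ Charts E F) {Q : Set E} (hQ : MeasurableSet Q)
    (hQφ : Q ⊆ φ.target) (hQψ : ∀ z ∈ Q, φ.symm z ∈ ψ.source) (g : E → ℝ≥0∞) :
    ∫⁻ z in (fun z => ψ (φ.symm z)) '' Q, g z =
      ∫⁻ z in Q, ‖jac ψ φ (φ.symm z)‖ₑ ^ 2 * g (ψ (φ.symm z)) := by
  have hinj : InjOn (fun z => ψ (φ.symm z)) Q := by
    intro z hz w hw h
    have h1 : φ.symm z = φ.symm w := ψ.injOn (hQψ z hz) (hQψ w hw) h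
    exact φ.symm.injOn (hQφ hz) (hQφ hw) h1
  have hder : ∀ z ∈ Q, HasFDerivWithinAt (fun z => ψ (φ.symm z))
      ((fderiv ℂ (ψ ∘ φ.symm) z).restrictScalars ℝ) Q z := by
    intro z hz
    have h1 : φ.symm z ∈ φ.source := φ.map_target (hQφ hz)
    have h2 := kltchart_contDiffAt hψ hφ (hQψ z hz) h1
    rw [φ.right_inv (hQφ hz)] at h2
    have h3 : HasFDerivAt (ψ ∘ φ.symm) (fderiv ℂ (ψ ∘ φ.symm) z) z :=
      (h2.differentiableAt (by simp)).hasFDerivAt
    exact (h3.restrictScalars ℝ).hasFDerivWithinAt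
  rw [lintegral_image_eq_lintegral_abs_det_fderiv_mul volume hQ hder hinj]
  refine setLIntegral_congr_fun hQ ?_
  intro z hz
  have h1 : jac ψ φ (φ.symm z) = (fderiv ℂ (ψ ∘ φ.symm) z).det := by
    simp only [jac, φ.right_inv (hQφ hz)]
  have h2 : ENNReal.ofReal |((fderiv ℂ (ψ ∘ φ.symm) z).restrictScalars ℝ).det| =
      ‖jac ψ φ (φ.symm z)‖ₑ ^ 2 := by
    rw [h1, pchg_det_restrictScalars, abs_of_nonneg (by positivity), ENNReal.ofReal_pow (norm_nonneg _),
      ofReal_norm]
  show ENNReal.ofReal |((fderiv ℂ (ψ ∘ φ.symm) z).restrictScalars ℝ).det| * g (ψ (φ.symm z)) =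
    ‖jac ψ φ (φ.symm z)‖ₑ ^ 2 * g (ψ (φ.symm z))
  rw [h2]

end Pool.Agent.Abd
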