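import Pool.Agent.H.MP_e23cd6_ag.TB.PAct2

/-! The representation of the torus on the space of sections. -/

set_option autoImplicit false

open scoped Manifold ContDiff Topology ENNReal
open MeasureTheory Set Filter

namespace Pool.Agent.Abd

variable {E : Type} [NormedAddCommGroup E] [NormedSpace ℂ E] {n : ℕ}
  {F : Type} [TopologicalSpace F] [ChartedSpace E F] [IsManifold 𝓘(ℂ, E) ω F]
  {A : TorusAction E n F} {B : LineBundle E F} (Λ : Linearization A B)

omit [IsManifold 𝓘(ℂ, E) ω F] in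
theorem prho_pull (A : TorusAction E n F) {a b : Fin n → ℂ} (ha : InT a) (hb : InT b)
    (φ : OpenPartialHomeomorph F E) :
    pull A hb (pull A ha φ) = pull A (ha.mul hb) φ := by
  refine OpenPartialHomeomorph.ext _ _ (fun y => ?_) (fun x => ?_) ?_
  · rw [pull_apply, pull_apply, pull_apply, A.mul a b ha hb]
  · show A.act b⁻¹ (A.act a⁻¹ (φ.symm x)) = A.act (a * b)⁻¹ (φ.symm x)
    rw [← A.mul _ _ hb.inv ha.inv, mul_inv, mul_comm]
  · ext y
    rw [mem_pull_source, mem_pull_source, mem_pull_source, A.mul a b ha hb]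

/-- Proof. At a spot `(i, φ, x)` put `y = a⁻¹ x`, so `a y = x`; both values are given by `isAct_iff`.
Outside of the spots both are zero (`t.2.1`). -/
theorem isAct_unique {k m : ℕ} {a : Fin n → ℂ} (ha : InT a) {t t' t'' : secMod B k m}
    (h : Λ.IsAct a t t') (h' : Λ.IsAct a t t'') : t' = t'' := by
  apply Subtype.ext
  funext i φ x
  by_cases hc : φ ∈ Charts E F ∧ x ∈ B.U i ∧ x ∈ φ.source
  · obtain ⟨hφ, hi, hx⟩ := hc
    obtain ⟨j, hj⟩ := B.cover (A.act a⁻¹ x)
    have e1 := (isAct_iff Λ ha t t').1 h i j φ hφ (A.act a⁻¹ x)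
      (by rw [act_act_inv A ha]; exact hi) hj (by rw [act_act_inv A ha]; exact hx)
    have e2 := (isAct_iff Λ ha t t'').1 h' i j φ hφ (A.act a⁻¹ x)
      (by rw [act_act_inv A ha]; exact hi) hj (by rw [act_act_inv A ha]; exact hx)
    rw [act_act_inv A ha] at e1 e2
    rw [e1, e2]
  · have e1 : t'.1 i φ x = 0 := by
      by_contra h0
      exact hc (t'.2.1 i φ x h0)
    have e2 : t''.1 i φ x = 0 := by
      by_contra h0
      exact hc (t''.2.1 i φ x h0)
    rw [e1, e2]

omit [IsManifold 𝓘(ℂ, E) ω F] in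
theorem isAct_add {k m : ℕ} {a : Fin n → ℂ} {t t' u u' : secMod B k m}
    (h : Λ.IsAct a t t') (h' : Λ.IsAct a u u') : Λ.IsAct a (t + u) (t' + u') := by
  intro i j φ hφ ψ hψ y h1 h2 h3 h4
  simp only [Submodule.coe_add, Pi.add_apply]
  rw [h i j φ hφ ψ hψ y h1 h2 h3 h4, h' i j φ hφ ψ hψ y h1 h2 h3 h4]
  ring

omit [IsManifold 𝓘(ℂ, E) ω F] in
theorem isAct_smul {k m : ℕ} {a : Fin n → ℂ} (c : ℂ) {t t' : secMod B k m}
    (h : Λ.IsAct a t t') : Λ.IsAct a (c • t) (c • t') := by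
  intro i j φ hφ ψ hψ y h1 h2 h3 h4
  simp only [Submodule.coe_smul, Pi.smul_apply, smul_eq_mul]
  rw [h i j φ hφ ψ hψ y h1 h2 h3 h4]
  ring

omit [IsManifold 𝓘(ℂ, E) ω F] in
/-- Proof. `isAct_iff`, `A.one`, `Λ.one`; `pull A InT.one φ` and `φ` have the same values near `y`, so
`t j (pull φ) y = jac (pull φ) φ y ^ m * t j φ y = t j φ y` (the Jacobian of the identity is `1`). Or
directly from the definition of `IsAct`: `A.jac φ ψ 1 y = jac φ ψ y` because `A.act 1 = id`. -/
theorem isAct_one {k m : ℕ} (t : secMod B k m) : Λ.IsAct 1 t t := by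
  intro i j φ hφ ψ hψ y h1 h2 h3 h4
  have hid : A.act 1 = id := funext A.one
  rw [A.one] at h1 h3
  have hj : A.jac φ ψ 1 y = jac φ ψ y := by
    unfold TorusAction.jac jac
    rw [hid, Function.id_comp]
  rw [A.one, Λ.one i j y h1 h2, hj]
  exact t.2.2.2 i j φ hφ ψ hψ y h1 h2 h3 h4

/-- Proof. At `y` with `a b y ∈ B.U i`, `y ∈ B.U l` choose `j` with `b y ∈ B.U j` and use `isAct_iff` twice:
`t'' i φ (a (b y)) = lam i j a (b y) ^ k * t' j (pull a φ) (b y)`,
`t' j (pull a φ) (b y) = lam j l b y ^ k * t l (pull b (pull a φ)) y`, and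
`lam i j a (b y) * lam j l b y = lam i l (a b) y`; the charts `pull b (pull a φ)` and `pull (a b) φ`
are equal (`prho_pull`). -/
theorem isAct_mul {k m : ℕ} {a b : Fin n → ℂ} (ha : InT a) (hb : InT b) {t t' t'' : secMod B k m}
    (h : Λ.IsAct b t t') (h' : Λ.IsAct a t' t'') : Λ.IsAct (a * b) t t'' := by
  rw [isAct_iff Λ (ha.mul hb)]
  intro i l φ hφ y hi hl hs
  obtain ⟨j, hj⟩ := B.cover (A.act b y)
  have e3 := Λ.mul i j l a b y ha hb hl hj hi
  rw [A.mul a b ha hb] at hi hs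
  have e1 := (isAct_iff Λ ha t' t'').1 h' i j φ hφ (A.act b y) hi hj hs
  have e2 := (isAct_iff Λ hb t t').1 h j l (pull A ha φ) (pull_mem A ha hφ) y hj hl
    ((mem_pull_source A ha φ (A.act b y)).2 hs)
  rw [A.mul a b ha hb, e1, e2, ← e3, prho_pull A ha hb]
  ring

open Classical in
/-- The action of the torus on the space of sections. -/
noncomputable def rho (k m : ℕ) (a : Fin n → ℂ) : secMod B k m →ₗ[ℂ] secMod B k m :=
  if ha : InT a then
    { toFun := fun t => (exists_act Λ ha t).choose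
      map_add' := fun t u => isAct_unique Λ ha (exists_act Λ ha (t + u)).choose_spec
        (isAct_add Λ (exists_act Λ ha t).choose_spec (exists_act Λ ha u).choose_spec)
      map_smul' := fun c t => isAct_unique Λ ha (exists_act Λ ha (c • t)).choose_spec
        (isAct_smul Λ c (exists_act Λ ha t).choose_spec) }
  else LinearMap.id

theorem rho_isAct {k m : ℕ} {a : Fin n → ℂ} (ha : InT a) (t : secMod B k m) :
    Λ.IsAct a t (rho Λ k m a t) := by
  have h : rho Λ k m a t = (exists_act Λ ha t).choose := by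
    unfold rho
    rw [dif_pos ha]
    rfl
  rw [h]
  exact (exists_act Λ ha t).choose_spec

theorem isAct_iff_rho {k m : ℕ} {a : Fin n → ℂ} (ha : InT a) (t t' : secMod B k m) :
    Λ.IsAct a t t' ↔ t' = rho Λ k m a t :=
  ⟨fun h => isAct_unique Λ ha h (rho_isAct Λ ha t), fun h => h ▸ rho_isAct Λ ha t⟩

theorem rho_one (k m : ℕ) : rho Λ k m 1 = LinearMap.id := by
  ext1 t
  exact ((isAct_iff_rho Λ InT.one t t).1 (isAct_one Λ t)).symm

theorem rho_mul (k m : ℕ) (a b : Fin n → ℂ) (ha : InT a) (hb : InT b) :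
    rho Λ k m (a * b) = rho Λ k m a ∘ₗ rho Λ k m b := by
  ext1 t
  exact ((isAct_iff_rho Λ (ha.mul hb) t _).1
    (isAct_mul Λ ha hb (rho_isAct Λ hb t) (rho_isAct Λ ha _))).symm

end Pool.Agent.Abd
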