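import Pool.Agent.H.MP_e23cd6_ag.TB.PChg
import Pool.Agent.H.MP_e23cd6_ag.TB.PRho

/-! The torus moves the integral of `|t| ^ (-2/m)` in a controlled way. -/

set_option autoImplicit false

open scoped Manifold ContDiff Topology ENNReal
open MeasureTheory Set Filter

namespace Pool.Agent.Abd

variable {E : Type} [NormedAddCommGroup E] [NormedSpace ℂ E] [FiniteDimensional ℂ E] {n : ℕ}
  {F : Type} [TopologicalSpace F] [ChartedSpace E F] [IsManifold 𝓘(ℂ, E) ω F]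
  {A : TorusAction E n F} {B : LineBundle E F} (Λ : Linearization A B)

omit [FiniteDimensional ℂ E] [IsManifold 𝓘(ℂ, E) ω F] in
theorem pnorm_chr_ne_zero {n : ℕ} (χ : Fin n → ℤ) {a : Fin n → ℂ} (ha : InT a) :
    chr χ a ≠ 0 := Finset.prod_ne_zero_iff.2 fun c _ => zpow_ne_zero _ (ha c)

/-- The Jacobian determinant of a coordinate change is not zero. -/
theorem pnorm_jac_ne_zero {φ ψ : OpenPartialHomeomorph F E} (hφ : φ ∈ Charts E F)
    (hψ : ψ ∈ Charts E F) {x : F} (hx : x ∈ φ.source) (hx' : x ∈ ψ.source) :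
    Abd.jac φ ψ x ≠ 0 := by
  have hω : (ω : WithTop ℕ∞) ≠ 0 := by simp
  have h1 := (kltchart_contDiffAt hφ hψ hx hx').differentiableAt hω
  have h2 := (kltchart_contDiffAt hψ hφ hx' hx).differentiableAt hω
  have hf : (φ ∘ ψ.symm) (ψ x) = φ x := by
    rw [Function.comp_apply, ψ.left_inv hx']
  have h3 : HasFDerivAt (ψ ∘ φ.symm) (fderiv ℂ (ψ ∘ φ.symm) (φ x)) ((φ ∘ ψ.symm) (ψ x)) := by
    rw [hf]
    exact h2.hasFDerivAt
  have h4 := h3.comp (ψ x) h1.hasFDerivAt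
  have h5 : ((ψ ∘ φ.symm) ∘ (φ ∘ ψ.symm)) =ᶠ[𝓝 (ψ x)] id := by
    have h6 : (ψ.symm.trans φ).source ∈ 𝓝 (ψ x) := by
      refine (ψ.symm.trans φ).open_source.mem_nhds ?_
      rw [OpenPartialHomeomorph.trans_source]
      refine ⟨ψ.map_source hx', ?_⟩
      show ψ.symm (ψ x) ∈ φ.source
      rw [ψ.left_inv hx']
      exact hx
    filter_upwards [h6] with z hz
    rw [OpenPartialHomeomorph.trans_source] at hz
    have h7 : ψ.symm z ∈ φ.source := hz.2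
    have h8 : z ∈ ψ.target := hz.1
    simp only [Function.comp_apply, id]
    rw [φ.left_inv h7, ψ.right_inv h8]
  have h6 := (h4.congr_of_eventuallyEq h5.symm).unique (hasFDerivAt_id (ψ x))
  have h7 : (fderiv ℂ (ψ ∘ φ.symm) (φ x)).det * (fderiv ℂ (φ ∘ ψ.symm) (ψ x)).det = 1 := by
    have h8 : (((fderiv ℂ (ψ ∘ φ.symm) (φ x)).comp (fderiv ℂ (φ ∘ ψ.symm) (ψ x)) :
        E →L[ℂ] E) : E →ₗ[ℂ] E).det = 1 := by
      rw [h6]
      exact LinearMap.det_id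
    change ((fderiv ℂ (ψ ∘ φ.symm) (φ x) : E →ₗ[ℂ] E) ∘ₗ
      (fderiv ℂ (φ ∘ ψ.symm) (ψ x) : E →ₗ[ℂ] E)).det = 1 at h8
    rw [LinearMap.det_comp] at h8
    exact h8
  intro h0
  unfold Abd.jac at h0
  rw [h0, mul_zero] at h7
  exact zero_ne_one h7

/-- The pointwise inequality. -/
theorem pnorm_point {k m l : ℕ} (hm : 1 ≤ m) (hl : 1 ≤ l) {lam J T T' : ℂ} {S : ℝ} (hS : 0 < S)
    (hlam : ‖lam‖ ^ l ≤ S) (hJ : J ≠ 0) (hT : T = lam ^ k * (J ^ m * T')) :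
    ENNReal.ofReal (S ^ (-(2 * k : ℝ) / (l * m))) * ‖T'‖ₑ ^ (-(2 : ℝ) / m) ≤
      ‖J‖ₑ ^ 2 * ‖T‖ₑ ^ (-(2 : ℝ) / m) := by
  have hm0 : (0 : ℝ) < m := by exact_mod_cast hm
  have hl0 : (0 : ℝ) < l := by exact_mod_cast hl
  set τ : ℝ := 2 / m with hτd
  have hτ : 0 ≤ τ := by positivity
  have hτe : -(2 : ℝ) / m = -τ := by rw [hτd, neg_div]
  rw [hτe]
  have h1 : ‖lam‖ ^ k ≤ S ^ ((k : ℝ) / l) := by
    have h2 : ‖lam‖ ≤ S ^ ((l : ℝ)⁻¹) := by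
      rw [← Real.pow_rpow_inv_natCast (norm_nonneg lam) (by omega : l ≠ 0)]
      exact Real.rpow_le_rpow (by positivity) hlam (by positivity)
    calc ‖lam‖ ^ k ≤ (S ^ ((l : ℝ)⁻¹)) ^ k := pow_le_pow_left₀ (norm_nonneg _) h2 k
      _ = S ^ ((k : ℝ) / l) := by
        rw [← Real.rpow_natCast, ← Real.rpow_mul hS.le]
        congr 1
        ring
  set R : ℝ := S ^ ((k : ℝ) / l) with hR
  have hR0 : 0 < R := Real.rpow_pos_of_pos hS _
  have hC0 : ENNReal.ofReal R * ‖J‖ₑ ^ m ≠ 0 := by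
    refine mul_ne_zero ?_ (pow_ne_zero _ ?_)
    · rw [Ne, ENNReal.ofReal_eq_zero]
      exact not_le.2 hR0
    · rw [Ne, enorm_eq_zero]
      exact hJ
  have hC : ENNReal.ofReal R * ‖J‖ₑ ^ m ≠ ⊤ :=
    ENNReal.mul_ne_top ENNReal.ofReal_ne_top (ENNReal.pow_ne_top enorm_ne_top)
  have h3 : ‖T‖ₑ ≤ ENNReal.ofReal R * ‖J‖ₑ ^ m * ‖T'‖ₑ := by
    rw [hT, enorm_mul, enorm_mul, enorm_pow, enorm_pow, mul_assoc]
    refine mul_le_mul_left ?_ _
    rw [← ofReal_norm, ← ENNReal.ofReal_pow (norm_nonneg _)]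
    exact ENNReal.ofReal_le_ofReal h1
  have h4 := kltchart_enorm_rpow hC0 hC hτ h3
  have h5 : (ENNReal.ofReal R * ‖J‖ₑ ^ m) ^ τ =
      ENNReal.ofReal (S ^ ((2 * k : ℝ) / (l * m))) * ‖J‖ₑ ^ 2 := by
    rw [ENNReal.mul_rpow_of_nonneg _ _ hτ, ENNReal.ofReal_rpow_of_pos hR0]
    congr 1
    · rw [hR, ← Real.rpow_mul hS.le, hτd]
      congr 2
      field_simp
    · rw [← ENNReal.rpow_natCast, ← ENNReal.rpow_mul]
      have h6 : (m : ℝ) * τ = 2 := by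
        rw [hτd]
        field_simp
      rw [h6, ENNReal.rpow_two]
  rw [h5] at h4
  calc ENNReal.ofReal (S ^ (-(2 * k : ℝ) / (l * m))) * ‖T'‖ₑ ^ (-τ)
      ≤ ENNReal.ofReal (S ^ (-(2 * k : ℝ) / (l * m))) *
        (ENNReal.ofReal (S ^ ((2 * k : ℝ) / (l * m))) * ‖J‖ₑ ^ 2 * ‖T‖ₑ ^ (-τ)) :=
        mul_le_mul_right h4 _
    _ = ENNReal.ofReal (S ^ (-(2 * k : ℝ) / (l * m))) *
        ENNReal.ofReal (S ^ ((2 * k : ℝ) / (l * m))) * (‖J‖ₑ ^ 2 * ‖T‖ₑ ^ (-τ)) := by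
        ring
    _ = ‖J‖ₑ ^ 2 * ‖T‖ₑ ^ (-τ) := by
        rw [← ENNReal.ofReal_mul (Real.rpow_nonneg hS.le _), ← Real.rpow_add hS]
        have h7 : (-(2 * k : ℝ) / (l * m)) + (2 * k : ℝ) / (l * m) = 0 := by ring
        rw [h7, Real.rpow_zero, ENNReal.ofReal_one, one_mul]

/-- Let `u` be a section of `B ^ l` of weight `w` which does not vanish at the spot `v`. There are a
compact neighbourhood `K₀` of the point in the chart of `v` and `c > 0` such that for `t = a t'`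
the integral of `|t| ^ (-2/m)` over `F` is at least `c * |w(a)| ^ (-2k/(lm))` times the integral of
`|t'| ^ (-2/m)` over `K₀`.

Proof. Let `i₀ = v.i`, `φ₀ = v.φ`. Take a compact neighbourhood `K₀` of `φ₀ v.x` inside
`φ₀.target ∩ φ₀.symm ⁻¹' B.U i₀` on which `‖u i₀ φ₀ (φ₀.symm z)‖ ≥ ε > 0` (continuity). Let `D > 0` be a bound of
`‖u (C.i j) (C.φ j) ((C.φ j).symm z)‖` on `C.K j` for all `j` (compact sets, `C.sub`, `C.subU`).
Fix `a` in the torus and `t = a t'`. For `j : C.α` let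
`Q j = {z ∈ K₀ | A.act a (φ₀.symm z) ∈ (C.φ j).source ∧ C.φ j (A.act a (φ₀.symm z)) ∈ C.K j}` (measurable:
intersection of the compact `K₀` with `open ∩ preimage of a closed set`, continuity of
`z ↦ A.act a (φ₀.symm z)` on `φ₀.target` and of `C.φ j` on its source). The sets `Q j` cover `K₀` (`C.cover`,
`interior_subset`). On `Q j`, with `y = φ₀.symm z`, `i = C.i j`, `ψ = pull A ha (C.φ j)` (a chart, `pull_mem`):
 * `isAct_iff` and the transformation rule of `t'`: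
   `t i (C.φ j) (a y) = lam i i₀ a y ^ k * t' i₀ ψ y = lam i i₀ a y ^ k * jac ψ φ₀ y ^ m * t' i₀ φ₀ y`;
 * `IsWt` of `u` and `isAct_iff` (here `m = 0`): `chr w a * u i (C.φ j) (a y) = lam i i₀ a y ^ l * u i₀ ψ y` and
   `u i₀ ψ y = u i₀ φ₀ y`, so `‖lam i i₀ a y‖ ^ l ≤ ‖chr w a‖ * D / ε`.
So `‖t i (C.φ j) (a y)‖ₑ ^ (-2/m) * ‖jac ψ φ₀ y‖ₑ ^ 2 ≥ (‖chr w a‖ * D / ε) ^ (-2k/(lm)) * ‖t' i₀ φ₀ y‖ₑ ^ (-2/m)`
(`jac ≠ 0`: `jac ψ φ₀ y * jac φ₀ ψ y = 1` by the chain rule; if `t' i₀ φ₀ y = 0` both sides are `⊤`, `m ≥ 1`). By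
`lintegral_chart_change` (charts `φ₀`, `ψ`, set `Q j`; `ψ (φ₀.symm z) = C.φ j (a y) ∈ C.K j`, and
`(C.φ j).symm (ψ y) = a y`):
`∫_{C.K j} ‖t i (C.φ j) ((C.φ j).symm ·)‖ₑ ^ (-2/m) ≥ (...) * ∫_{Q j} ‖t' i₀ φ₀ (φ₀.symm z)‖ₑ ^ (-2/m)`. Sum over `j` and
use `∑ j, ∫_{Q j} ≥ ∫_{K₀}` (`lintegral_iUnion_le`, finite). Take `c = (D / ε) ^ (-2k/(lm))`. -/
theorem act_int_bound [MeasureSpace E] [BorelSpace E] [(volume : Measure E).IsAddHaarMeasure]
    {k m l : ℕ} (hm : 1 ≤ m) (hl : 1 ≤ l) {u : secMod B l 0} {w : Fin n → ℤ} (hu : Λ.IsWt w u)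
    (v : Spot B) (hv : u.1 v.i v.φ v.x ≠ 0) (C : FinCover B) :
    ∃ K₀ : Set E, IsCompact K₀ ∧ K₀ ⊆ v.φ.target ∧ (∀ z ∈ K₀, v.φ.symm z ∈ B.U v.i) ∧
      v.φ v.x ∈ interior K₀ ∧ ∃ c : ℝ, 0 < c ∧ ∀ (a : Fin n → ℂ) (t t' : secMod B k m), InT a →
        Λ.IsAct a t' t →
        ENNReal.ofReal (c * ‖chr w a‖ ^ (-(2 * k : ℝ) / (l * m))) *
            ∫⁻ z in K₀, ‖t'.1 v.i v.φ (v.φ.symm z)‖ₑ ^ (-(2 : ℝ) / m) ≤ C.int m t.1 := by
  have hproper : ProperSpace E := FiniteDimensional.proper ℂ E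
  -- continuity of `u` in charts
  have hcont : ∀ (i : B.ι) (φ : OpenPartialHomeomorph F E), φ ∈ Charts E F → ∀ z ∈ φ.target,
      φ.symm z ∈ B.U i → ContinuousAt (fun z => u.1 i φ (φ.symm z)) z := by
    intro i φ hφ z hz hzi
    have h1 : ContinuousAt (u.1 i φ) (φ.symm z) :=
      (u.2.2.1 i φ hφ (φ.symm z) hzi (φ.map_target hz)).continuousAt
    exact ContinuousAt.comp (f := φ.symm) h1 (φ.symm.continuousAt hz)
  have hvt : v.φ v.x ∈ v.φ.target := v.φ.map_source v.hx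
  have hvx : v.φ.symm (v.φ v.x) = v.x := v.φ.left_inv v.hx
  set ε : ℝ := ‖u.1 v.i v.φ v.x‖ / 2 with hε
  have hε0 : 0 < ε := by
    have := norm_pos_iff.2 hv
    positivity
  -- the compact neighbourhood
  obtain ⟨K₀, hK₀n, hK₀s, hK₀c⟩ : ∃ K₀ ∈ 𝓝 (v.φ v.x), K₀ ⊆ {z | z ∈ v.φ.target ∧
      v.φ.symm z ∈ B.U v.i ∧ ε ≤ ‖u.1 v.i v.φ (v.φ.symm z)‖} ∧ IsCompact K₀ := by
    refine local_compact_nhds ?_
    have h1 : ContinuousAt v.φ.symm (v.φ v.x) := v.φ.symm.continuousAt hvt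
    have h2 : v.φ.symm ⁻¹' (B.U v.i) ∈ 𝓝 (v.φ v.x) :=
      h1.preimage_mem_nhds (by rw [hvx]; exact (B.isOpen _).mem_nhds v.hi)
    have h3 := (hcont v.i v.φ v.hφ (v.φ v.x) hvt (by rw [hvx]; exact v.hi)).norm
    have h4 : ε < ‖u.1 v.i v.φ (v.φ.symm (v.φ v.x))‖ := by
      rw [hvx, hε]
      exact half_lt_self (norm_pos_iff.2 hv)
    filter_upwards [v.φ.open_target.mem_nhds hvt, h2, h3.eventually_const_lt h4] with z h5 h6 h7
    exact ⟨h5, h6, h7.le⟩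
  -- a bound for `u`
  have hbd : ∀ j : C.α, ∃ D : ℝ, ∀ z ∈ C.K j, ‖u.1 (C.i j) (C.φ j) ((C.φ j).symm z)‖ ≤ D :=
    fun j => (C.compact j).exists_bound_of_continuousOn fun z hz =>
      (hcont (C.i j) (C.φ j) (C.mem j) z (C.sub j hz) (C.subU j z hz)).continuousWithinAt
  choose D0 hD0 using hbd
  set D : ℝ := 1 + ∑ j, |D0 j| with hD
  have hDpos : 0 < D := by
    have : 0 ≤ ∑ j, |D0 j| := Finset.sum_nonneg fun j _ => abs_nonneg _
    linarith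
  have hDb : ∀ j : C.α, ∀ z ∈ C.K j, ‖u.1 (C.i j) (C.φ j) ((C.φ j).symm z)‖ ≤ D := by
    intro j z hz
    have h1 : |D0 j| ≤ ∑ j, |D0 j| := Finset.single_le_sum (f := fun j => |D0 j|)
      (fun j _ => abs_nonneg _) (Finset.mem_univ j)
    have h2 := hD0 j z hz
    have h3 := le_abs_self (D0 j)
    linarith
  refine ⟨K₀, hK₀c, fun z hz => (hK₀s hz).1, fun z hz => (hK₀s hz).2.1,
    mem_interior_iff_mem_nhds.2 hK₀n, (D / ε) ^ (-(2 * k : ℝ) / (l * m)),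
    Real.rpow_pos_of_pos (by positivity) _, ?_⟩
  intro a t t' ha hact
  have hchr : 0 < ‖chr w a‖ := norm_pos_iff.2 (pnorm_chr_ne_zero w ha)
  set S : ℝ := D / ε * ‖chr w a‖ with hS
  have hS0 : 0 < S := by positivity
  rw [← Real.mul_rpow (by positivity) hchr.le, ← hS]
  -- the pieces
  set e : C.α → OpenPartialHomeomorph E E := fun j => v.φ.symm.trans (pull A ha (C.φ j)) with he
  set Q : C.α → Set E := fun j => K₀ ∩ ((e j).source ∩ e j ⁻¹' C.K j) with hQ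
  have hQm : ∀ j, MeasurableSet (Q j) := by
    intro j
    obtain ⟨U, hU, hUe⟩ := continuousOn_iff_isClosed.1 (e j).continuousOn (C.K j)
      (C.compact j).isClosed
    have h1 : (e j).source ∩ e j ⁻¹' C.K j = U ∩ (e j).source := by
      rw [inter_comm]
      exact hUe
    simp only [hQ]
    rw [h1]
    exact hK₀c.isClosed.measurableSet.inter
      (hU.measurableSet.inter (e j).open_source.measurableSet)
  have hQcov : K₀ ⊆ ⋃ j, Q j := by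
    intro z hz
    obtain ⟨j, hj1, hj2⟩ := C.cover (A.act a (v.φ.symm z))
    have hj3 : e j z ∈ C.K j := interior_subset hj2
    refine mem_iUnion.2 ⟨j, hz, ?_, hj3⟩
    rw [he, OpenPartialHomeomorph.trans_source]
    exact ⟨(hK₀s hz).1, (mem_pull_source A ha (C.φ j) _).2 hj1⟩
  have hpiece : ∀ j, ENNReal.ofReal (S ^ (-(2 * k : ℝ) / (l * m))) *
      ∫⁻ z in Q j, ‖t'.1 v.i v.φ (v.φ.symm z)‖ₑ ^ (-(2 : ℝ) / m) ≤
      ∫⁻ z in C.K j, ‖t.1 (C.i j) (C.φ j) ((C.φ j).symm z)‖ₑ ^ (-(2 : ℝ) / m) := by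
    intro j
    have hψ : pull A ha (C.φ j) ∈ Charts E F := pull_mem A ha (C.mem j)
    have hQs : ∀ z ∈ Q j, v.φ.symm z ∈ (pull A ha (C.φ j)).source := by
      intro z hz
      have h1 := hz.2.1
      rw [he, OpenPartialHomeomorph.trans_source] at h1
      exact h1.2
    have h1 := lintegral_chart_change v.hφ hψ (hQm j) (fun z hz => (hK₀s hz.1).1) hQs
      (fun z => ‖t.1 (C.i j) (C.φ j) ((C.φ j).symm z)‖ₑ ^ (-(2 : ℝ) / m))
    have h2 : (fun z => pull A ha (C.φ j) (v.φ.symm z)) '' Q j ⊆ C.K j := by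
      rintro _ ⟨z, hz, rfl⟩
      exact hz.2.2
    refine le_trans ?_ (lintegral_mono_set h2)
    rw [h1, ← lintegral_const_mul' _ _ ENNReal.ofReal_ne_top]
    refine setLIntegral_mono' (hQm j) fun z hz => ?_
    have hzt := (hK₀s hz.1).1
    have hyi := (hK₀s hz.1).2.1
    have hyε := (hK₀s hz.1).2.2
    have hys : v.φ.symm z ∈ v.φ.source := v.φ.map_target hzt
    have hyψ := hQs z hz
    have hay : A.act a (v.φ.symm z) ∈ (C.φ j).source := (mem_pull_source A ha (C.φ j) _).1 hyψ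
    have hK : C.φ j (A.act a (v.φ.symm z)) ∈ C.K j := hz.2.2
    have hinv : (C.φ j).symm (C.φ j (A.act a (v.φ.symm z))) = A.act a (v.φ.symm z) :=
      (C.φ j).left_inv hay
    have hai : A.act a (v.φ.symm z) ∈ B.U (C.i j) := by
      have := C.subU j _ hK
      rwa [hinv] at this
    have hg : B.g v.i v.i (v.φ.symm z) = 1 := B.one _ _ hyi
    have h3 : t.1 (C.i j) (C.φ j) (A.act a (v.φ.symm z)) =
        Λ.lam (C.i j) v.i a (v.φ.symm z) ^ k *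
          (Abd.jac (pull A ha (C.φ j)) v.φ (v.φ.symm z) ^ m * t'.1 v.i v.φ (v.φ.symm z)) := by
      rw [(isAct_iff Λ ha t' t).1 hact (C.i j) v.i (C.φ j) (C.mem j) _ hai hyi hay,
        t'.2.2.2 v.i v.i _ hψ v.φ v.hφ _ hyi hyi hyψ hys, hg, one_pow, one_mul]
    have h4 : chr w a * u.1 (C.i j) (C.φ j) (A.act a (v.φ.symm z)) =
        Λ.lam (C.i j) v.i a (v.φ.symm z) ^ l * u.1 v.i v.φ (v.φ.symm z) := by
      have h5 := (isAct_iff Λ ha u (chr w a • u)).1 (hu a ha) (C.i j) v.i (C.φ j) (C.mem j) _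
        hai hyi hay
      rw [u.2.2.2 v.i v.i _ hψ v.φ v.hφ _ hyi hyi hyψ hys, hg, one_pow, one_mul, pow_zero,
        one_mul] at h5
      exact h5
    have h5 : ‖Λ.lam (C.i j) v.i a (v.φ.symm z)‖ ^ l ≤ S := by
      have h6 := hDb j _ hK
      rw [hinv] at h6
      have h7 : ‖Λ.lam (C.i j) v.i a (v.φ.symm z)‖ ^ l * ‖u.1 v.i v.φ (v.φ.symm z)‖ =
          ‖chr w a‖ * ‖u.1 (C.i j) (C.φ j) (A.act a (v.φ.symm z))‖ := by
        rw [← norm_pow, ← norm_mul, ← norm_mul, h4]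
      have h8 : ‖Λ.lam (C.i j) v.i a (v.φ.symm z)‖ ^ l * ε ≤ ‖chr w a‖ * D := by
        calc ‖Λ.lam (C.i j) v.i a (v.φ.symm z)‖ ^ l * ε
            ≤ ‖Λ.lam (C.i j) v.i a (v.φ.symm z)‖ ^ l * ‖u.1 v.i v.φ (v.φ.symm z)‖ :=
              mul_le_mul_of_nonneg_left hyε (by positivity)
          _ = ‖chr w a‖ * ‖u.1 (C.i j) (C.φ j) (A.act a (v.φ.symm z))‖ := h7
          _ ≤ ‖chr w a‖ * D := mul_le_mul_of_nonneg_left h6 hchr.le
      rw [hS, div_mul_eq_mul_div, le_div_iff₀ hε0, mul_comm D]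
      exact h8
    have h6 := pnorm_point (k := k) hm hl hS0 h5 (pnorm_jac_ne_zero hψ v.hφ hyψ hys) h3
    have h7 : (C.φ j).symm (pull A ha (C.φ j) (v.φ.symm z)) = A.act a (v.φ.symm z) := hinv
    simp only [h7]
    exact h6
  calc ENNReal.ofReal (S ^ (-(2 * k : ℝ) / (l * m))) *
        ∫⁻ z in K₀, ‖t'.1 v.i v.φ (v.φ.symm z)‖ₑ ^ (-(2 : ℝ) / m)
      ≤ ENNReal.ofReal (S ^ (-(2 * k : ℝ) / (l * m))) *
        ∑ j, ∫⁻ z in Q j, ‖t'.1 v.i v.φ (v.φ.symm z)‖ₑ ^ (-(2 : ℝ) / m) := by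
        refine mul_le_mul_right ?_ _
        refine (lintegral_mono_set hQcov).trans ?_
        refine (lintegral_iUnion_le _ _).trans ?_
        rw [tsum_fintype]
    _ ≤ C.int m t.1 := by
        rw [Finset.mul_sum]
        exact Finset.sum_le_sum fun j _ => hpiece j

end Pool.Agent.Abd
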