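import Pool.Agent.H.MP_e23cd6_ag.TB.PCov

/-! The space of sections over a compact manifold has finite dimension. -/

set_option autoImplicit false

open scoped Manifold ContDiff Topology ENNReal
open MeasureTheory Set Filter

namespace Pool.Agent.Abd

variable {E : Type} [NormedAddCommGroup E] [NormedSpace ℂ E] [FiniteDimensional ℂ E]
  {F : Type} [TopologicalSpace F] [ChartedSpace E F] [IsManifold 𝓘(ℂ, E) ω F] [CompactSpace F]

omit [FiniteDimensional ℂ E] [CompactSpace F] in
theorem pfin_differentiableAt {B : LineBundle E F} {k m : ℕ} (t : secMod B k m) {i : B.ι}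
    {φ : OpenPartialHomeomorph F E} (hφ : φ ∈ Charts E F) {w : E} (hw : w ∈ φ.target)
    (hi : φ.symm w ∈ B.U i) :
    DifferentiableAt ℂ (fun w => t.1 i φ (φ.symm w)) w := by
  have h1 : ContMDiffAt 𝓘(ℂ, E) 𝓘(ℂ, E) ω φ.symm w :=
    contMDiffAt_symm_of_mem_maximalAtlas hφ hw
  have h2 : HolAt E (t.1 i φ) (φ.symm w) := t.2.2.1 i φ hφ _ hi (φ.map_target hw)
  have h3 : ContMDiffAt 𝓘(ℂ, E) 𝓘(ℂ) ω (t.1 i φ ∘ φ.symm) w := ContMDiffAt.comp w h2 h1
  exact h3.contDiffAt.differentiableAt (by simp)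

omit [FiniteDimensional ℂ E] in
/-- One step of the iteration. -/
theorem pfin_half {f : E → ℂ} {e : E} {R C S : ℝ} (hR : 0 < R) (hC : 0 < C) (hS : 0 ≤ S)
    (hd : ∀ w ∈ Metric.closedBall e (2 * R), DifferentiableAt ℂ f w)
    (hb : ∀ w ∈ Metric.closedBall e (2 * R), ‖f w‖ ≤ C * S) {T : Set E}
    (hTs : T ⊆ Metric.ball e R)
    (hT : Metric.ball e R ⊆ ⋃ y ∈ T, Metric.ball y (R / (2 * (C + 1))))
    (h0 : ∀ y ∈ T, f y = 0) {w : E} (hw : w ∈ Metric.ball e R) : ‖f w‖ ≤ S / 2 := by
  obtain ⟨y, hyT, hy⟩ := mem_iUnion₂.1 (hT hw)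
  rw [Metric.mem_ball] at hy
  have hye := hTs hyT
  rw [Metric.mem_ball] at hye
  have hsub : Metric.ball y R ⊆ Metric.closedBall e (2 * R) := by
    intro z hz
    rw [Metric.mem_ball] at hz
    rw [Metric.mem_closedBall]
    have := dist_triangle z y e
    linarith
  have hδ : R / (2 * (C + 1)) < R := by
    rw [div_lt_iff₀ (by positivity)]
    nlinarith
  have h1 : DifferentiableOn ℂ f (Metric.ball y R) := fun z hz =>
    (hd z (hsub hz)).differentiableWithinAt
  have h2 : MapsTo f (Metric.ball y R) (Metric.closedBall (f y) (C * S)) := by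
    intro z hz
    rw [h0 y hyT, Metric.mem_closedBall, dist_zero_right]
    exact hb z (hsub hz)
  have h3 := Complex.dist_le_div_mul_dist_of_mapsTo_ball h1 h2
    (z := w) (by rw [Metric.mem_ball]; linarith)
  rw [h0 y hyT, dist_zero_right] at h3
  calc ‖f w‖ ≤ C * S / R * dist w y := h3
    _ ≤ C * S / R * (R / (2 * (C + 1))) := by
        apply mul_le_mul_of_nonneg_left hy.le
        positivity
    _ = (C / (C + 1)) * (S / 2) := by
        field_simp
    _ ≤ 1 * (S / 2) := by
        apply mul_le_mul_of_nonneg_right _ (by positivity)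
        rw [div_le_one (by positivity)]
        linarith
    _ = S / 2 := one_mul _

/-- `H⁰(F, B ^ k ⊗ K ^ (-m))` has finite dimension. -/
instance secMod_finite [T2Space F] (B : LineBundle E F) (k m : ℕ) :
    FiniteDimensional ℂ (secMod B k m) := by
  classical
  obtain ⟨α, _, i, φ, e, R, hφ, hR, hsub, hcov⟩ := exists_ballCover B
  obtain ⟨C, hC, hdbl⟩ := sec_bound_double B k m hφ hR hsub hcov
  have : ProperSpace E := FiniteDimensional.proper ℂ E
  have hnet : ∀ a, ∃ T : Set E, T ⊆ Metric.ball (e a) (R a) ∧ T.Finite ∧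
      Metric.ball (e a) (R a) ⊆ ⋃ y ∈ T, Metric.ball y (R a / (2 * (C + 1))) := by
    intro a
    have h1 : TotallyBounded (Metric.ball (e a) (R a)) :=
      (isCompact_closedBall (e a) (R a)).totallyBounded.subset Metric.ball_subset_closedBall
    exact Metric.finite_approx_of_totallyBounded h1 _ (by have := hR a; positivity)
  choose T hTs hTf hT using hnet
  have : ∀ a, Finite (T a) := fun a => (hTf a).to_subtype
  let L : secMod B k m →ₗ[ℂ] ((Σ a, T a) → ℂ) :=
    { toFun := fun t p => t.1 (i p.1) (φ p.1) ((φ p.1).symm p.2.1)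
      map_add' := fun t t' => rfl
      map_smul' := fun c t => rfl }
  have hinj : Function.Injective L := by
    rw [injective_iff_map_eq_zero]
    intro t ht
    have hz : ∀ a, ∀ y ∈ T a, t.1 (i a) (φ a) ((φ a).symm y) = 0 := fun a y hy =>
      congrFun ht ⟨a, ⟨y, hy⟩⟩
    have hmem : ∀ a, ∀ w ∈ Metric.closedBall (e a) (2 * R a), w ∈ (φ a).target ∧
        (φ a).symm w ∈ B.U (i a) := by
      intro a w hw
      have hRa := hR a
      exact hsub a (Metric.closedBall_subset_closedBall (by linarith) hw)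
    have hd : ∀ a, ∀ w ∈ Metric.closedBall (e a) (2 * R a),
        DifferentiableAt ℂ (fun w => t.1 (i a) (φ a) ((φ a).symm w)) w := fun a w hw =>
      pfin_differentiableAt t (hφ a) (hmem a w hw).1 (hmem a w hw).2
    have hstep : ∀ S : ℝ, 0 ≤ S →
        (∀ a, ∀ w ∈ Metric.ball (e a) (R a), ‖t.1 (i a) (φ a) ((φ a).symm w)‖ ≤ S) →
        ∀ a, ∀ w ∈ Metric.ball (e a) (R a), ‖t.1 (i a) (φ a) ((φ a).symm w)‖ ≤ S / 2 := by
      intro S hS hb a w hw
      exact pfin_half (f := fun w => t.1 (i a) (φ a) ((φ a).symm w)) (hR a) hC hS (hd a)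
        (hdbl t S hS hb a) (hTs a) (hT a) (hz a) hw
    -- an initial bound
    obtain ⟨S, hS0, hS⟩ : ∃ S : ℝ, 0 ≤ S ∧
        ∀ a, ∀ w ∈ Metric.ball (e a) (R a), ‖t.1 (i a) (φ a) ((φ a).symm w)‖ ≤ S := by
      have h1 : ∀ a, ∃ S : ℝ, ∀ w ∈ Metric.closedBall (e a) (R a),
          ‖t.1 (i a) (φ a) ((φ a).symm w)‖ ≤ S := by
        intro a
        refine (isCompact_closedBall (e a) (R a)).exists_bound_of_continuousOn ?_
        intro w hw
        have hRa := hR a
        exact (hd a w (Metric.closedBall_subset_closedBall (by linarith)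
          hw)).continuousAt.continuousWithinAt
      choose S hS using h1
      refine ⟨∑ a, |S a|, Finset.sum_nonneg fun a _ => abs_nonneg _, fun a w hw => ?_⟩
      calc _ ≤ S a := hS a w (Metric.ball_subset_closedBall hw)
        _ ≤ |S a| := le_abs_self _
        _ ≤ _ := Finset.single_le_sum (f := fun a => |S a|) (fun a _ => abs_nonneg _)
            (Finset.mem_univ a)
    have hit : ∀ n : ℕ, ∀ a, ∀ w ∈ Metric.ball (e a) (R a),
        ‖t.1 (i a) (φ a) ((φ a).symm w)‖ ≤ S * (1 / 2) ^ n := by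
      intro n
      induction n with
      | zero => intro a w hw; simpa using hS a w hw
      | succ n ih =>
        intro a w hw
        have := hstep _ (by positivity) ih a w hw
        calc _ ≤ _ := this
          _ = _ := by ring
    have hzero : ∀ a, ∀ w ∈ Metric.ball (e a) (R a), t.1 (i a) (φ a) ((φ a).symm w) = 0 := by
      intro a w hw
      rw [← norm_le_zero_iff]
      have hlim : Tendsto (fun n : ℕ => S * (1 / 2 : ℝ) ^ n) atTop (𝓝 (S * 0)) :=
        (tendsto_pow_atTop_nhds_zero_of_lt_one (by norm_num) (by norm_num)).const_mul S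
      rw [mul_zero] at hlim
      exact ge_of_tendsto' hlim fun n => hit n a w hw
    -- all values vanish
    ext j ψ x
    by_contra hne
    have hne' : t.1 j ψ x ≠ 0 := hne
    obtain ⟨hψ, hxj, hxψ⟩ := t.2.1 j ψ x hne'
    obtain ⟨a, hxa, hxb⟩ := hcov x
    have hRa := hR a
    have hxU : x ∈ B.U (i a) := by
      have h2 := (hsub a (Metric.ball_subset_closedBall
        (Metric.ball_subset_ball (by linarith) hxb))).2
      rw [mem_preimage, (φ a).left_inv hxa] at h2
      exact h2
    have h3 := t.2.2.2 j (i a) ψ hψ (φ a) (hφ a) x hxj hxU hxψ hxa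
    have h4 := hzero a _ hxb
    rw [(φ a).left_inv hxa] at h4
    rw [h4, mul_zero] at h3
    exact hne' h3
  exact Module.Finite.of_injective L hinj

/-- The value at a spot, as a linear form. -/
def pfin_ev {B : LineBundle E F} (k m : ℕ) (v : Spot B) : secMod B k m →ₗ[ℂ] ℂ where
  toFun t := t.1 v.i v.φ v.x
  map_add' _ _ := rfl
  map_smul' _ _ := rfl

omit [FiniteDimensional ℂ E] [CompactSpace F] in
theorem pfin_isEval_of_mem_span [Nonempty F] {B : LineBundle E F} {k m : ℕ}
    {l : secMod B k m →ₗ[ℂ] ℂ}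
    (hl : l ∈ Submodule.span ℂ (Set.range (pfin_ev (B := B) k m))) : IsEval l := by
  classical
  rw [Finsupp.mem_span_range_iff_exists_finsupp] at hl
  obtain ⟨c, hc⟩ := hl
  obtain ⟨x₀⟩ := ‹Nonempty F›
  obtain ⟨i₀, hi₀⟩ := B.cover x₀
  let v₀ : Spot B := ⟨i₀, chartAt E x₀, x₀, IsManifold.chart_mem_maximalAtlas (n := ω) x₀, hi₀,
    mem_chart_source E x₀⟩
  let s := c.support
  let q := s.equivFin
  let v : ℕ → Spot B := fun a => if h : a < s.card then (q.symm ⟨a, h⟩).1 else v₀
  refine ⟨Finset.range s.card, fun a => c (v a), v, fun t => ?_⟩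
  have h1 : l t = ∑ p ∈ s, c p * t.1 p.i p.φ p.x := by
    rw [← hc]
    simp only [Finsupp.sum, LinearMap.sum_apply, LinearMap.smul_apply, smul_eq_mul]
    rfl
  rw [h1, Finset.sum_range, ← Finset.sum_coe_sort s, ← Equiv.sum_comp q.symm]
  refine Finset.sum_congr rfl fun a _ => ?_
  have h2 : v a.1 = (q.symm a).1 := by
    simp only [v]
    rw [dif_pos a.2]
  show c (q.symm a).1 * t.1 (q.symm a).1.i (q.symm a).1.φ (q.symm a).1.x =
    c (v a.1) * t.1 (v a.1).i (v a.1).φ (v a.1).x
  rw [h2]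

/-- Every linear form on the space of sections is a combination of values at points. -/
theorem isEval_all [T2Space F] [Nonempty F] {B : LineBundle E F} {k m : ℕ}
    (l : secMod B k m →ₗ[ℂ] ℂ) : IsEval l := by
  apply pfin_isEval_of_mem_span
  set W : Subspace ℂ (Module.Dual ℂ (secMod B k m)) :=
    Submodule.span ℂ (Set.range (pfin_ev (B := B) k m)) with hW
  have h0 : W.dualCoannihilator = ⊥ := by
    rw [eq_bot_iff]
    intro t ht
    rw [Submodule.mem_dualCoannihilator] at ht
    rw [Submodule.mem_bot]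
    ext j ψ x
    by_contra hne
    have hne' : t.1 j ψ x ≠ 0 := hne
    obtain ⟨hψ, hxj, hxψ⟩ := t.2.1 j ψ x hne'
    exact hne' (ht _ (Submodule.subset_span ⟨⟨j, ψ, x, hψ, hxj, hxψ⟩, rfl⟩))
  have h1 : W.dualCoannihilator.dualAnnihilator = W := Subspace.dualCoannihilator_dualAnnihilator_eq
  rw [h0, Submodule.dualAnnihilator_bot] at h1
  have h2 : (l : Module.Dual ℂ (secMod B k m)) ∈ (⊤ : Subspace ℂ (Module.Dual ℂ (secMod B k m))) :=
    Submodule.mem_top
  rw [h1] at h2
  exact h2

end Pool.Agent.Abd
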