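import Mathlib

/-! Weight decomposition of a finite dimensional holomorphic representation of the torus
`(ℂ^*)^n`, here the set of `a : Fin n → ℂ` without zero entries. -/

set_option autoImplicit false

open Set Filter Topology

namespace Pool.Agent.Abd

/-- A holomorphic homomorphism `ℂ^* → ℂ^*` is an integer power. -/
theorem wt_onevar (f : ℂ → ℂ) (h1 : f 1 = 1)
    (hm : ∀ z w : ℂ, z ≠ 0 → w ≠ 0 → f (z * w) = f z * f w)
    (hd : ∀ z : ℂ, z ≠ 0 → DifferentiableAt ℂ f z) :
    ∃ m : ℤ, ∀ z : ℂ, z ≠ 0 → f z = z ^ m := by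
  set κ : ℂ := deriv f 1 with hκ
  have hder : ∀ z : ℂ, z ≠ 0 → z * deriv f z = κ * f z := by
    intro z hz
    -- differentiate `w ↦ f (z * w)` at `1`
    have e1 : HasDerivAt (fun w : ℂ => f (z * w)) (z * deriv f z) 1 := by
      have h2 : HasDerivAt f (deriv f z) (z * 1) := by
        rw [mul_one]; exact (hd z hz).hasDerivAt
      have h3 : HasDerivAt (fun w : ℂ => z * w) z 1 := by
        simpa using (hasDerivAt_id (1 : ℂ)).const_mul z
      have h4 := h2.comp (1 : ℂ) h3
      rw [mul_comm] at h4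
      exact h4
    have e2 : HasDerivAt (fun w : ℂ => f z * f w) (f z * κ) 1 :=
      ((hd 1 one_ne_zero).hasDerivAt).const_mul (f z)
    have e3 : (fun w : ℂ => f (z * w)) =ᶠ[𝓝 1] fun w => f z * f w := by
      filter_upwards [isOpen_ne.mem_nhds (one_ne_zero : (1 : ℂ) ≠ 0)] with w hw
      exact hm z w hz hw
    rw [(e1.congr_of_eventuallyEq e3.symm).unique e2, mul_comm]
  have hconst : ∀ w : ℂ, f (Complex.exp w) * Complex.exp (-(κ * w)) = 1 := by
    have hderiv : ∀ w : ℂ,
        HasDerivAt (fun w => f (Complex.exp w) * Complex.exp (-(κ * w))) 0 w := by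
      intro w
      have a1 : HasDerivAt (fun w => f (Complex.exp w))
          (deriv f (Complex.exp w) * Complex.exp w) w :=
        ((hd _ (Complex.exp_ne_zero w)).hasDerivAt).comp w (Complex.hasDerivAt_exp w)
      have a2 : HasDerivAt (fun w : ℂ => Complex.exp (-(κ * w)))
          (Complex.exp (-(κ * w)) * (-κ)) w := by
        have := ((hasDerivAt_id w).const_mul κ).neg.cexp
        simpa using this
      refine (a1.mul a2).congr_deriv ?_
      have := hder _ (Complex.exp_ne_zero w)
      linear_combination Complex.exp (-(κ * w)) * this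
    intro w
    have h5 := is_const_of_deriv_eq_zero (fun w => (hderiv w).differentiableAt)
      (fun w => (hderiv w).deriv) w 0
    rw [h5]; simp [h1]
  have hexp : ∀ w : ℂ, f (Complex.exp w) = Complex.exp (κ * w) := by
    intro w
    have := hconst w
    rw [Complex.exp_neg] at this
    have hne := Complex.exp_ne_zero (κ * w)
    field_simp at this
    exact this
  have h6 := hexp (2 * Real.pi * Complex.I)
  rw [Complex.exp_two_pi_mul_I, h1] at h6
  obtain ⟨m, hm'⟩ := Complex.exp_eq_one_iff.1 h6.symm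
  have hκm : κ = m := by
    have : (2 * (Real.pi : ℂ) * Complex.I) ≠ 0 := by
      simp [Real.pi_ne_zero]
    exact mul_right_cancel₀ this hm'
  refine ⟨m, fun z hz => ?_⟩
  have h7 := hexp (Complex.log z)
  rw [Complex.exp_log hz, hκm] at h7
  rw [h7, Complex.exp_int_mul, Complex.exp_log hz]

/-- An entry `a c` replaced by `z`. -/
theorem wt_diff_update {n : ℕ} {g : (Fin n → ℂ) → ℂ}
    (hg : ∀ a : Fin n → ℂ, (∀ c, a c ≠ 0) → DifferentiableAt ℂ g a)
    (a : Fin n → ℂ) (ha : ∀ c, a c ≠ 0) (c : Fin n) {z : ℂ} (hz : z ≠ 0) :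
    DifferentiableAt ℂ (fun w => g (Function.update a c w)) z := by
  have h1 : ∀ c', Function.update a c z c' ≠ 0 := by
    intro c'
    rcases eq_or_ne c' c with rfl | h
    · rwa [Function.update_self]
    · rw [Function.update_of_ne h]; exact ha c'
  have h2 : DifferentiableAt ℂ (fun w : ℂ => Function.update a c w) z := by
    rw [differentiableAt_pi]
    intro c'
    rcases eq_or_ne c' c with rfl | h
    · simp only [Function.update_self]; exact differentiableAt_id
    · simp only [Function.update_of_ne h]; exact differentiableAt_const _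
  exact (hg _ h1).comp z h2

/-- `a` is a root of unity. -/
def WtTors (z : ℂ) : Prop := ∃ N : ℕ, 0 < N ∧ z ^ N = 1

theorem WtTors.ne_zero {z : ℂ} (h : WtTors z) : z ≠ 0 := by
  obtain ⟨N, hN, h⟩ := h
  rintro rfl
  rw [zero_pow hN.ne'] at h
  exact zero_ne_one h

/-- Identity theorem on `ℂ^*` for functions vanishing at the roots of unity. -/
theorem wt_ident_one (h : ℂ → ℂ) (hd : ∀ z : ℂ, z ≠ 0 → DifferentiableAt ℂ h z)
    (h0 : ∀ z, WtTors z → h z = 0) {z : ℂ} (hz : z ≠ 0) : h z = 0 := by
  have hopen : IsOpen ({0}ᶜ : Set ℂ) := isOpen_compl_singleton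
  have han : AnalyticOnNhd ℂ h ({0}ᶜ : Set ℂ) := by
    refine DifferentiableOn.analyticOnNhd (fun w hw => ?_) hopen
    exact (hd w hw).differentiableWithinAt
  have hpre : IsPreconnected ({0}ᶜ : Set ℂ) :=
    (isConnected_compl_singleton_of_one_lt_rank (by
      rw [Complex.rank_real_complex]; exact Nat.one_lt_ofNat) 0).isPreconnected
  have hfreq : ∃ᶠ w in 𝓝[≠] (1 : ℂ), h w = 0 := by
    have ht : Tendsto (fun N : ℕ => Complex.exp (2 * Real.pi * Complex.I / ((N : ℂ) + 2)))
        atTop (𝓝[≠] (1 : ℂ)) := by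
      refine tendsto_nhdsWithin_iff.2 ⟨?_, Eventually.of_forall fun N => ?_⟩
      · have h2 : Tendsto (fun N : ℕ => 2 * (Real.pi : ℂ) * Complex.I / ((N : ℂ) + 2)) atTop
            (𝓝 0) := by
          have h3 : Tendsto (fun N : ℕ => ((N : ℂ) + 2)) atTop (Bornology.cobounded ℂ) := by
            rw [← tendsto_norm_atTop_iff_cobounded]
            have h4 : Tendsto (fun N : ℕ => ((N : ℝ) + 2)) atTop atTop :=
              tendsto_atTop_add_const_right _ _ tendsto_natCast_atTop_atTop
            refine h4.congr fun N => ?_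
            have : ((N : ℂ) + 2) = (((N : ℝ) + 2 : ℝ) : ℂ) := by push_cast; ring
            rw [this, Complex.norm_real, Real.norm_of_nonneg (by positivity)]
          have h5 := (tendsto_inv₀_cobounded.comp h3).const_mul (2 * (Real.pi : ℂ) * Complex.I)
          rw [mul_zero] at h5
          exact h5
        have h5 := (Complex.continuous_exp.tendsto 0).comp h2
        rwa [Complex.exp_zero] at h5
      · have hN2 : ((N : ℂ) + 2) ≠ 0 := by
          have : ((N + 2 : ℕ) : ℂ) ≠ 0 := by exact_mod_cast (by omega : N + 2 ≠ 0)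
          push_cast at this; exact this
        show Complex.exp (2 * Real.pi * Complex.I / ((N : ℂ) + 2)) ≠ 1
        have hprim := Complex.isPrimitiveRoot_exp (N + 2) (by omega)
        intro h1
        have h6 : (((N + 2 : ℕ) : ℂ)) = (N : ℂ) + 2 := by push_cast; ring
        rw [h6, h1] at hprim
        have := hprim.dvd_of_pow_eq_one 1 (by simp)
        have := Nat.le_of_dvd one_pos this
        omega
    refine ht.frequently (Frequently.of_forall fun N => ?_)
    apply h0
    refine ⟨N + 2, by omega, ?_⟩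
    have hprim := Complex.isPrimitiveRoot_exp (N + 2) (by omega)
    have h6 : (((N + 2 : ℕ) : ℂ)) = (N : ℂ) + 2 := by push_cast; ring
    rw [h6] at hprim
    exact hprim.pow_eq_one
  exact han.eqOn_zero_of_preconnected_of_frequently_eq_zero hpre
    (by simp : (1 : ℂ) ∈ ({0}ᶜ : Set ℂ)) hfreq hz

/-- Identity theorem on the torus for functions vanishing at the torsion points. -/
theorem wt_ident {n : ℕ} (g : (Fin n → ℂ) → ℂ)
    (hg : ∀ a : Fin n → ℂ, (∀ c, a c ≠ 0) → DifferentiableAt ℂ g a)
    (h0 : ∀ a : Fin n → ℂ, (∀ c, WtTors (a c)) → g a = 0)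
    (a : Fin n → ℂ) (ha : ∀ c, a c ≠ 0) : g a = 0 := by
  have key : ∀ s : Finset (Fin n), ∀ a : Fin n → ℂ, (∀ c, a c ≠ 0) →
      (∀ c, c ∉ s → WtTors (a c)) → g a = 0 := by
    intro s
    induction s using Finset.induction_on with
    | empty => exact fun a _ h => h0 a fun c => h c (by simp)
    | insert c s hc ih =>
      intro a ha h
      have h1 := wt_ident_one (fun w => g (Function.update a c w))
        (fun z hz => wt_diff_update hg a ha c hz) (fun z hz => ?_) (ha c)
      · simpa using h1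
      · refine ih _ (fun c' => ?_) (fun c' hc' => ?_)
        · rcases eq_or_ne c' c with rfl | hne
          · rw [Function.update_self]; exact hz.ne_zero
          · rw [Function.update_of_ne hne]; exact ha c'
        · rcases eq_or_ne c' c with rfl | hne
          · rwa [Function.update_self]
          · rw [Function.update_of_ne hne]
            exact h c' (by simp [hne, hc'])
  exact key Finset.univ a ha fun c hc => absurd (Finset.mem_univ c) hc

/-- A holomorphic homomorphism from the torus to `ℂ^*` is a monomial. -/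
theorem wt_monomial {n : ℕ} (X : (Fin n → ℂ) → ℂ) (h1 : X 1 = 1)
    (hm : ∀ a b : Fin n → ℂ, (∀ c, a c ≠ 0) → (∀ c, b c ≠ 0) → X (a * b) = X a * X b)
    (hd : ∀ a : Fin n → ℂ, (∀ c, a c ≠ 0) → DifferentiableAt ℂ X a) :
    ∃ w : Fin n → ℤ, ∀ a : Fin n → ℂ, (∀ c, a c ≠ 0) → X a = ∏ c, a c ^ w c := by
  have hne1 : ∀ c : Fin n, (1 : Fin n → ℂ) c ≠ 0 := fun c => by simp
  have hone : ∀ c : Fin n, ∃ m : ℤ, ∀ z : ℂ, z ≠ 0 →
      X (Function.update (1 : Fin n → ℂ) c z) = z ^ m := by
    intro c
    refine wt_onevar (fun z => X (Function.update (1 : Fin n → ℂ) c z)) ?_ ?_ ?_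
    · show X (Function.update (1 : Fin n → ℂ) c 1) = 1
      have : Function.update (1 : Fin n → ℂ) c 1 = 1 := by
        rw [Function.update_eq_self_iff]; rfl
      rw [this, h1]
    · intro z w hz hw
      show X (Function.update (1 : Fin n → ℂ) c (z * w)) = _
      have hne : ∀ {z : ℂ}, z ≠ 0 → ∀ c', Function.update (1 : Fin n → ℂ) c z c' ≠ 0 := by
        intro z hz c'
        rcases eq_or_ne c' c with rfl | h
        · rwa [Function.update_self]
        · rw [Function.update_of_ne h]; exact hne1 c'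
      rw [← hm _ _ (hne hz) (hne hw)]
      congr 1
      funext c'
      rcases eq_or_ne c' c with rfl | h
      · simp
      · simp [Function.update_of_ne h]
    · exact fun z hz => wt_diff_update hd 1 hne1 c hz
  choose w hw using hone
  refine ⟨w, fun a ha => ?_⟩
  have key : ∀ s : Finset (Fin n), X (fun c => if c ∈ s then a c else 1) = ∏ c ∈ s, a c ^ w c := by
    intro s
    induction s using Finset.induction_on with
    | empty =>
      simp only [Finset.notMem_empty, if_false, Finset.prod_empty]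
      exact h1
    | insert c s hc ih =>
      rw [Finset.prod_insert hc, ← ih, ← hw c (a c) (ha c), ← hm]
      · congr 1
        funext c'
        rcases eq_or_ne c' c with rfl | h
        · simp [hc]
        · simp [h]
      · intro c'
        rcases eq_or_ne c' c with rfl | h
        · rw [Function.update_self]; exact ha c'
        · rw [Function.update_of_ne h]; exact hne1 c'
      · intro c'
        show (if c' ∈ s then a c' else 1) ≠ 0
        split_ifs
        · exact ha c'
        · exact one_ne_zero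
  have := key Finset.univ
  simpa using this

section rep

variable {n : ℕ} {V : Type*} [AddCommGroup V] [Module ℂ V] [FiniteDimensional ℂ V]

/-- The simultaneous eigenspaces of the torsion elements span. -/
theorem wt_torsion_span (ρ : (Fin n → ℂ) → V →ₗ[ℂ] V) (h1 : ρ 1 = LinearMap.id)
    (hm : ∀ a b : Fin n → ℂ, (∀ c, a c ≠ 0) → (∀ c, b c ≠ 0) → ρ (a * b) = ρ a ∘ₗ ρ b) :
    (⨆ χ : {a : Fin n → ℂ // ∀ c, WtTors (a c)} → ℂ,
      ⨅ a, Module.End.eigenspace (ρ a.1) (χ a)) = ⊤ := by
  have hne : ∀ a : {a : Fin n → ℂ // ∀ c, WtTors (a c)}, ∀ c, a.1 c ≠ 0 := fun a c =>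
    (a.2 c).ne_zero
  have hpow : ∀ (a : Fin n → ℂ), (∀ c, a c ≠ 0) → ∀ N : ℕ, ρ (a ^ N) = (ρ a : Module.End ℂ V) ^ N := by
    intro a ha N
    induction N with
    | zero => rw [pow_zero, pow_zero, h1]; rfl
    | succ N ih =>
      rw [pow_succ, hm _ _ (fun c => by rw [Pi.pow_apply]; exact pow_ne_zero _ (ha c)) ha, ih,
        pow_succ]
      rfl
  have hss : ∀ a : {a : Fin n → ℂ // ∀ c, WtTors (a c)},
      Module.End.IsSemisimple (ρ a.1 : Module.End ℂ V) := by
    intro a
    choose N hN hNa using a.2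
    set M : ℕ := ∏ c, N c with hM
    have hM0 : 0 < M := Finset.prod_pos fun c _ => hN c
    have haM : a.1 ^ M = 1 := by
      funext c
      rw [Pi.pow_apply, Pi.one_apply]
      obtain ⟨k, hk⟩ : N c ∣ M := Finset.dvd_prod_of_mem N (Finset.mem_univ c)
      rw [hk, pow_mul, hNa c, one_pow]
    have hρ : (ρ a.1 : Module.End ℂ V) ^ M = 1 := by
      rw [← hpow _ (hne a), haM, h1]; rfl
    refine Module.End.isSemisimple_of_squarefree_aeval_eq_zero
      (p := Polynomial.X ^ M - Polynomial.C 1) ?_ ?_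
    · exact (Polynomial.separable_X_pow_sub_C (1 : ℂ) (by exact_mod_cast hM0.ne') one_ne_zero).squarefree
    · simp [hρ]
  have hcomm : Pairwise fun a b : {a : Fin n → ℂ // ∀ c, WtTors (a c)} =>
      Commute (ρ a.1 : Module.End ℂ V) (ρ b.1) := by
    intro a b _
    show ρ a.1 ∘ₗ ρ b.1 = ρ b.1 ∘ₗ ρ a.1
    rw [← hm _ _ (hne a) (hne b), ← hm _ _ (hne b) (hne a), mul_comm]
  have := Module.End.iSup_iInf_maxGenEigenspace_eq_top_of_iSup_maxGenEigenspace_eq_top_of_commute
    (fun a : {a : Fin n → ℂ // ∀ c, WtTors (a c)} => (ρ a.1 : Module.End ℂ V)) hcomm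
    (fun a => Module.End.iSup_maxGenEigenspace_eq_top _)
  rw [← this]
  refine iSup_congr fun χ => iInf_congr fun a => ?_
  rw [(hss a).isFinitelySemisimple.maxGenEigenspace_eq_eigenspace]

/-- Weight vectors. -/
def IsWeightVec (ρ : (Fin n → ℂ) → V →ₗ[ℂ] V) (w : Fin n → ℤ) (v : V) : Prop :=
  ∀ a : Fin n → ℂ, (∀ c, a c ≠ 0) → ρ a v = (∏ c, a c ^ w c) • v

/-- A finite dimensional holomorphic representation of the torus has a basis of weight vectors. -/
theorem exists_weight_basis (ρ : (Fin n → ℂ) → V →ₗ[ℂ] V) (h1 : ρ 1 = LinearMap.id)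
    (hm : ∀ a b : Fin n → ℂ, (∀ c, a c ≠ 0) → (∀ c, b c ≠ 0) → ρ (a * b) = ρ a ∘ₗ ρ b)
    (F : Set (V →ₗ[ℂ] ℂ)) (hF : ∀ v, (∀ f ∈ F, f v = 0) → v = 0)
    (hol : ∀ f ∈ F, ∀ v, ∀ a : Fin n → ℂ, (∀ c, a c ≠ 0) →
      DifferentiableAt ℂ (fun a => f (ρ a v)) a) :
    ∃ (d : ℕ) (b : Module.Basis (Fin d) ℂ V) (χ : Fin d → Fin n → ℤ),
      ∀ j, IsWeightVec ρ (χ j) (b j) := by
  -- the torsion eigenvectors are weight vectors
  have hvec : ∀ (χ : {a : Fin n → ℂ // ∀ c, WtTors (a c)} → ℂ) (v : V),
      v ∈ (⨅ a, Module.End.eigenspace (ρ a.1) (χ a) : Submodule ℂ V) →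
      ∃ w : Fin n → ℤ, IsWeightVec ρ w v := by
    intro χ v hv
    rw [Submodule.mem_iInf] at hv
    by_cases hv0 : v = 0
    · exact ⟨0, fun a _ => by rw [hv0, map_zero, smul_zero]⟩
    obtain ⟨f0, hf0, hf0v⟩ : ∃ f ∈ F, f v ≠ 0 := by
      by_contra h
      push Not at h
      exact hv0 (hF v h)
    set X : (Fin n → ℂ) → ℂ := fun a => f0 (ρ a v) / f0 v with hX
    have hXd : ∀ a : Fin n → ℂ, (∀ c, a c ≠ 0) → DifferentiableAt ℂ X a := fun a ha => by
      have h5 := (hol f0 hf0 v a ha).mul_const (f0 v)⁻¹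
      simp only [← div_eq_mul_inv] at h5
      exact h5
    have hρ : ∀ a : Fin n → ℂ, (∀ c, a c ≠ 0) → ρ a v = X a • v := by
      intro a ha
      rw [← sub_eq_zero]
      refine hF _ fun f hf => ?_
      have := wt_ident (fun a => f (ρ a v) - X a * f v)
        (fun a ha => (hol f hf v a ha).sub ((hXd a ha).mul_const _)) (fun a ha => ?_) a ha
      · simpa [smul_eq_mul] using this
      · have h2 := Module.End.mem_eigenspace_iff.1 (hv ⟨a, ha⟩)
        simp only at h2
        simp only [hX, h2, map_smul, smul_eq_mul]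
        field_simp
        ring
    have hX1 : X 1 = 1 := by simp [hX, h1, div_self hf0v]
    have hXm : ∀ a b : Fin n → ℂ, (∀ c, a c ≠ 0) → (∀ c, b c ≠ 0) → X (a * b) = X a * X b := by
      intro a b ha hb
      have h3 : X (a * b) • v = (X a * X b) • v := by
        rw [← hρ (a * b) fun c => mul_ne_zero (ha c) (hb c), hm a b ha hb, LinearMap.comp_apply,
          hρ b hb, map_smul, hρ a ha, smul_smul, mul_comm]
      exact smul_left_injective ℂ hv0 h3
    obtain ⟨w, hw⟩ := wt_monomial X hX1 hXm hXd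
    exact ⟨w, fun a ha => by rw [hρ a ha, hw a ha]⟩
  have hspan : ⊤ ≤ Submodule.span ℂ {v : V | ∃ w : Fin n → ℤ, IsWeightVec ρ w v} := by
    rw [← wt_torsion_span ρ h1 hm]
    exact iSup_le fun χ v hv => Submodule.subset_span (hvec χ v hv)
  set B := Module.Basis.ofSpan hspan with hB
  have : Fintype ((linearIndepOn_empty ℂ (id : V → V)).extend
      (empty_subset {v : V | ∃ w : Fin n → ℤ, IsWeightVec ρ w v})) :=
    FiniteDimensional.fintypeBasisIndex B
  set B' := B.reindex (Fintype.equivFin _) with hB'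
  have hBw : ∀ j, ∃ w : Fin n → ℤ, IsWeightVec ρ w (B' j) := by
    intro j
    have h4 : B' j ∈ {v : V | ∃ w : Fin n → ℤ, IsWeightVec ρ w v} := by
      rw [hB', Module.Basis.reindex_apply]
      exact Module.Basis.ofSpan_subset hspan ⟨_, rfl⟩
    exact h4
  choose χ hχ using hBw
  exact ⟨_, B', χ, hχ⟩

end rep

end Pool.Agent.Abd
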