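import Pool.Agent.H.MP_e23cd6_ag.TB.PHolo
import Pool.Agent.H.MP_e23cd6_ag.TB.Weights
import Pool.Agent.H.MP_e23cd6_ag.TB.PFin

/-! Weights. -/

set_option autoImplicit false

open scoped Manifold ContDiff Topology ENNReal
open MeasureTheory Set Filter

namespace Pool.Agent.Abd

variable {E : Type} [NormedAddCommGroup E] [NormedSpace ℂ E] [FiniteDimensional ℂ E] {n : ℕ}
  {F : Type} [TopologicalSpace F] [ChartedSpace E F] [IsManifold 𝓘(ℂ, E) ω F]
  {A : TorusAction E n F} {B : LineBundle E F} (Λ : Linearization A B)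

/-- The value at a spot as a linear form. -/
noncomputable def PWt_ev {B : LineBundle E F} (k m : ℕ) (v : Spot B) :
    secMod B k m →ₗ[ℂ] ℂ where
  toFun := fun t => t.1 v.i v.φ v.x
  map_add' := fun t u => rfl
  map_smul' := fun c t => rfl

/-- Proof. `exists_weight_basis` (TB/Weights) applied to `rho Λ k m` and to the set of evaluations at
spots (they separate points by `t.2.1`); `rho_one`, `rho_mul`, `rho_holo`. -/
theorem sec_weight_basis [CompactSpace F] [T2Space F] (k m : ℕ) :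
    ∃ (d : ℕ) (b : Module.Basis (Fin d) ℂ (secMod B k m)) (χ : Fin d → Fin n → ℤ),
      ∀ j, ∀ a, InT a → rho Λ k m a (b j) = chr (χ j) a • b j := by
  obtain ⟨d, b, χ, h⟩ := exists_weight_basis (V := secMod B k m) (rho Λ k m) (rho_one Λ k m)
    (fun a a' ha ha' => rho_mul Λ k m a a' ha ha') (Set.range (PWt_ev (B := B) k m))
    (fun v hv => by
      apply Subtype.ext
      funext i φ x
      by_contra hne
      obtain ⟨h1, h2, h3⟩ := v.2.1 i φ x hne
      exact hne (hv _ ⟨⟨i, φ, x, h1, h2, h3⟩, rfl⟩))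
    (by
      rintro _ ⟨s, rfl⟩ v a ha
      exact rho_holo Λ v s ha)
  exact ⟨d, b, χ, fun j a ha => h j a ha⟩

/-- Proof. Expand `t` in the basis of `sec_weight_basis`: `t = ∑ c_j • b j`; some `b j` does not vanish at
the spot. `Λ.IsWt (χ j) (b j)` by `rho_isAct`. -/
theorem exists_weight_component [CompactSpace F] [T2Space F] {k m : ℕ} (t : secMod B k m)
    (v : Spot B) (hv : t.1 v.i v.φ v.x ≠ 0) :
    ∃ (χ : Fin n → ℤ) (t' : secMod B k m), Λ.IsWt χ t' ∧ t'.1 v.i v.φ v.x ≠ 0 := by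
  obtain ⟨d, b, χ, h⟩ := sec_weight_basis (B := B) Λ k m
  by_contra hcon
  push Not at hcon
  apply hv
  have h1 : PWt_ev (B := B) k m v = 0 := by
    apply b.ext
    intro j
    have h2 : Λ.IsWt (χ j) (b j) := by
      intro a ha
      rw [← h j a ha]
      exact rho_isAct Λ ha (b j)
    exact hcon (χ j) (b j) h2
  have h2 : PWt_ev (B := B) k m v t = 0 := by rw [h1]; rfl
  exact h2

omit [FiniteDimensional ℂ E] [IsManifold 𝓘(ℂ, E) ω F] in
/-- The torus acts by a character on the fibre at a fixed point.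

Proof. Choose `i` with `y ∈ B.U i` and apply `wt_monomial` (TB/Weights) to `X a = lam i i a y`:
`X 1 = 1` (`Λ.one`, `B.one`), multiplicative (`Λ.mul`, `y` fixed), differentiable (`Λ.hol` composed with
`a ↦ (a, y)`). The weight is the same for another `i'` (`lam_change` with `g i i' * g i' i = 1`). -/
theorem exists_hasWeight {y : F} (hy : A.Fixed y) : ∃ χ, Λ.HasWeight y χ := by
  obtain ⟨i, hi⟩ := B.cover y
  obtain ⟨w, hw⟩ := wt_monomial (fun a => Λ.lam i i a y)
    (by
      show Λ.lam i i 1 y = 1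
      rw [Λ.one i i y hi hi, B.one i y hi])
    (fun a b ha hb => by
      show Λ.lam i i (a * b) y = Λ.lam i i a y * Λ.lam i i b y
      have h1 := Λ.mul i i i a b y ha hb hi (by rw [hy b hb]; exact hi)
        (by rw [hy (a * b) (InT.mul ha hb)]; exact hi)
      rw [hy b hb] at h1
      exact h1.symm)
    (fun a ha => by
      have h1 := Λ.hol i i a y ha hi (by rw [hy a ha]; exact hi)
      have h2 : ContMDiffAt 𝓘(ℂ, Fin n → ℂ) (𝓘(ℂ, Fin n → ℂ).prod 𝓘(ℂ, E)) ω
          (fun a : Fin n → ℂ => (a, y)) a := contMDiffAt_id.prodMk contMDiffAt_const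
      have h3 : ContMDiffAt 𝓘(ℂ, Fin n → ℂ) 𝓘(ℂ) ω (fun a : Fin n → ℂ => Λ.lam i i a y) a :=
        ContMDiffAt.comp (g := fun v : (Fin n → ℂ) × F => Λ.lam i i v.1 v.2)
          (f := fun a : Fin n → ℂ => (a, y)) a h1 h2
      exact (contMDiffAt_iff_contDiffAt.1 h3).differentiableAt (by simp))
  refine ⟨w, fun i' hi' a ha => ?_⟩
  have h1 := lam_change Λ ha (i := i') (i' := i) (j := i') (j' := i) hi' hi
    (by rw [hy a ha]; exact hi') (by rw [hy a ha]; exact hi)
  have h2 := B.mul i' i i' y hi' hi hi'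
  rw [B.one i' y hi'] at h2
  have h3 : Λ.lam i i a y = chr w a := hw a ha
  rw [h1, hy a ha, h3, mul_right_comm, h2, one_mul]

end Pool.Agent.Abd
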