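import Pool.Agent.H.MP_e23cd6_ag.TB.PMono
import Pool.Agent.H.MP_e23cd6_ag.TB.PWt
import Pool.Agent.H.MP_e23cd6_ag.TB.PNorm

/-! The lower bound for the integral of `|t| ^ (-2/m)` over the fibre. -/

set_option autoImplicit false

open scoped Manifold ContDiff Topology ENNReal
open MeasureTheory Set Filter

namespace Pool.Agent.Abd

variable {E : Type} [NormedAddCommGroup E] [NormedSpace ℂ E] [FiniteDimensional ℂ E] {n : ℕ}
  {F : Type} [TopologicalSpace F] [ChartedSpace E F] [IsManifold 𝓘(ℂ, E) ω F] [CompactSpace F]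
  [T2Space F]
  {A : TorusAction E n F} {B : LineBundle E F} (Λ : Linearization A B)

omit [FiniteDimensional ℂ E] [IsManifold 𝓘(ℂ, E) ω F] [CompactSpace F] [T2Space F] in
/-- A section of a power of `B`, as an element of `secMod B l 0`. -/
theorem PFiberNorm_toMod {l : ℕ} (s : PowSec B l) :
    ∃ u : secMod B l 0, ∀ i, ∀ φ ∈ Charts E F, ∀ x, x ∈ B.U i → x ∈ φ.source →
      u.1 i φ x = s.f i x := by
  refine ⟨Sec.toMod ⟨fun i _ x => s.f i x, fun i φ _ x hx _ => s.hol i x hx,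
    fun i j φ _ ψ _ x hi hj _ _ => ?_⟩, fun i φ hφ x hi hx => ?_⟩
  · rw [pow_zero, mul_one]
    exact s.trans i j x hi hj
  · exact Sec.toMod_apply _ hφ hi hx

omit [CompactSpace F] [T2Space F] in
/-- A section of `B ^ l` of weight `w` which does not vanish at the fixed point `y`: the weight of
`B ^ l` at `y` is `w`. -/
theorem PFiberNorm_wt {l : ℕ} {u : secMod B l 0} {w : Fin n → ℤ} (hu : Λ.IsWt w u) {y : F}
    (hy : A.Fixed y) {χ : Fin n → ℤ} (hχ : Λ.HasWeight y χ) {i : B.ι}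
    {φ : OpenPartialHomeomorph F E} (hφ : φ ∈ Charts E F) (hi : y ∈ B.U i) (hx : y ∈ φ.source)
    (h0 : u.1 i φ y ≠ 0) {a : Fin n → ℂ} (ha : InT a) : chr w a = chr χ a ^ l := by
  have h1 := (isAct_iff Λ ha u (chr w a • u)).1 (hu a ha) i i φ hφ y (by rw [hy a ha]; exact hi) hi
    (by rw [hy a ha]; exact hx)
  rw [hy a ha, hχ i hi a ha, u.2.2.2 i i _ (pull_mem A ha hφ) φ hφ y hi hi
    ((mem_pull_source A ha φ y).2 (by rw [hy a ha]; exact hx)) hx, B.one i y hi, one_pow, one_mul,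
    pow_zero, one_mul] at h1
  exact mul_right_cancel₀ h0 h1

omit [FiniteDimensional ℂ E] [IsManifold 𝓘(ℂ, E) ω F] [CompactSpace F] [T2Space F] in
theorem PFiberNorm_norm_chr {n : ℕ} (χ : Fin n → ℤ) {v : Fin n → ℝ} (hv : ∀ c, 0 < v c) :
    ‖chr χ (fun c => ((v c : ℝ) : ℂ)⁻¹)‖ = (∏ c, v c ^ χ c)⁻¹ := by
  unfold chr
  rw [norm_prod, ← Finset.prod_inv_distrib]
  refine Finset.prod_congr rfl fun c _ => ?_
  rw [norm_zpow, norm_inv, Complex.norm_real, Real.norm_of_nonneg (hv c).le, inv_zpow]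

/-- The coordinates of `a t`. -/
theorem PFiberNorm_coord {k m d : ℕ} (b : Module.Basis (Fin d) ℂ (secMod B k m))
    {χs : Fin d → Fin n → ℤ} {a : Fin n → ℂ}
    (hb : ∀ j, rho Λ k m a (b j) = chr (χs j) a • b j) (t : secMod B k m) (σ : Fin d) :
    b.coord σ (rho Λ k m a t) = chr (χs σ) a * b.coord σ t := by
  have h1 : b.coord σ ∘ₗ rho Λ k m a = chr (χs σ) a • b.coord σ := by
    apply b.ext
    intro j
    rw [LinearMap.comp_apply, hb j, map_smul, LinearMap.smul_apply, Module.Basis.coord_apply,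
      Module.Basis.repr_self]
    rcases eq_or_ne j σ with rfl | hne
    · rfl
    · rw [Finsupp.single_eq_of_ne' hne, smul_zero, smul_zero]
  exact LinearMap.congr_fun h1 t

/-- (N) The lower bound for the integral over the fibre.

Proof. `B` semiample: there are `l ≥ 1` and `u₀ : PowSec B l` with `u₀.f i y ≠ 0`; as an element of
`secMod B l 0` (`u i φ x = u₀.f i x` on `U i ∩ φ.source`, zero outside; `jac ^ 0 = 1`), with the spot
`v = (i, chartAt E y, y)`. `exists_weight_component`: `u'` of weight `w`, nonzero at `v`. Since `y` is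
fixed, `isAct_iff` at `y` gives `chr w a = lam i i a y ^ l * u' i (pull φ) y = ...`, so
`chr w a = chr χ a ^ l` for all `a` in the torus.
`act_int_bound` gives `K₀` and `c`; `‖chr w a‖ ^ (-2k/(lm)) = ‖chr χ a‖ ^ (-2k/m)`.
`sec_weight_basis`: `b`, weights `χσ`, coordinates `x σ = b.coord σ t`. Let `D > 0` bound
`∑ σ, ‖b σ (v.i) (v.φ) (v.φ.symm z)‖` on `K₀` (compact; continuity). For `ω > 0`, `A > 0` with
`‖x σ‖ * ∏ ω c ^ (χσ c - k χ c) ≤ A` put `a c = (ω c)⁻¹` and `t' = rho a⁻¹ t`, `t = a t'`;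
`t' = ∑ σ, chr χσ a⁻¹ * x σ • b σ` with `|chr χσ a⁻¹| = ∏ ω c ^ χσ c`, so on `K₀`
`‖t'‖ ≤ D * A * ∏ ω c ^ (k χ c)`. So `C.int m t ≥ c * ‖chr χ a‖ ^ (-2k/m) * vol K₀ *
(D A ∏ ω c ^ (k χ c)) ^ (-2/m) = c vol(K₀) D ^ (-2/m) A ^ (-2/m)` (`‖chr χ a‖ = ∏ ω c ^ (- χ c)`). The volume of `K₀`
is positive (nonempty interior) and finite (compact). Apply `monomial_bound`. The linear forms are
`l j r = b.coord (g j r)`: `IsEval` by `isEval_all`, and `b.coord σ (a t) = chr χσ a * b.coord σ t`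
(`isAct_iff_rho`, expand `t` in the basis). -/
theorem fiber_norm [MeasureSpace E] [BorelSpace E] [(volume : Measure E).IsAddHaarMeasure]
    {k m : ℕ} (_hk : 1 ≤ k) (hm : 1 ≤ m) (hB : B.Semiample) {y : F} (hy : A.Fixed y)
    {χ : Fin n → ℤ} (hχ : Λ.HasWeight y χ) (C : FinCover B) :
    ∃ (q : ℕ) (J : Type) (_ : Fintype J) (l : J → Fin q → (secMod B k m →ₗ[ℂ] ℂ))
      (w : J → Fin q → Fin n → ℤ) (K : ℝ≥0∞), 2 ≤ q ∧ K ≠ ⊤ ∧ K ≠ 0 ∧
      (∀ j c, ∑ r, w j r c = q * k * χ c) ∧ (∀ j r, IsEval (l j r)) ∧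
      (∀ j r a t t', InT a → Λ.IsAct a t t' → l j r t' = chr (w j r) a * l j r t) ∧
      ∀ t : secMod B k m,
        (∑ j, ‖∏ r, l j r t‖ₑ) ^ (-(2 : ℝ) / (m * q)) ≤ K * C.int m t.1 := by
  have hF : Nonempty F := ⟨y⟩
  -- a section of weight `w`
  obtain ⟨l, hl, hs⟩ := hB
  obtain ⟨s, i, hi, hsi⟩ := hs y
  obtain ⟨u₀, hu₀⟩ := PFiberNorm_toMod s
  have hφ := IsManifold.chart_mem_maximalAtlas (I := 𝓘(ℂ, E)) (n := ω) y
  set v : Spot B := ⟨i, chartAt E y, y, hφ, hi, mem_chart_source E y⟩ with hv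
  have hv0 : u₀.1 v.i v.φ v.x ≠ 0 := by
    rw [hu₀ v.i v.φ v.hφ v.x v.hi v.hx]
    exact hsi
  obtain ⟨w, u, hu, huv⟩ := exists_weight_component Λ u₀ v hv0
  have hw : ∀ {a : Fin n → ℂ}, InT a → chr w a = chr χ a ^ l := fun ha =>
    PFiberNorm_wt Λ hu hy hχ v.hφ v.hi v.hx huv ha
  obtain ⟨K₀, hK₀c, hK₀t, hK₀U, hK₀i, c, hc, hact⟩ := act_int_bound Λ (k := k) (m := m) hm hl hu v
    huv C
  obtain ⟨d, b, χs, hb⟩ := sec_weight_basis (B := B) Λ k m
  -- the bound for the basis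
  have hbd : ∀ σ, ∃ D : ℝ, ∀ z ∈ K₀, ‖(b σ).1 v.i v.φ (v.φ.symm z)‖ ≤ D := fun σ =>
    hK₀c.exists_bound_of_continuousOn fun z hz => by
      have h1 : ContinuousAt ((b σ).1 v.i v.φ) (v.φ.symm z) :=
        ((b σ).2.2.1 v.i v.φ v.hφ _ (hK₀U z hz) (v.φ.map_target (hK₀t hz))).continuousAt
      exact (ContinuousAt.comp (f := v.φ.symm) h1
        (v.φ.symm.continuousAt (hK₀t hz))).continuousWithinAt
  choose D0 hD0 using hbd
  set D : ℝ := 1 + ∑ σ, |D0 σ| with hD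
  have hDpos : 0 < D := by
    have : 0 ≤ ∑ σ, |D0 σ| := Finset.sum_nonneg fun σ _ => abs_nonneg _
    linarith
  have hDb : ∀ z ∈ K₀, ∑ σ, ‖(b σ).1 v.i v.φ (v.φ.symm z)‖ ≤ D := by
    intro z hz
    have h1 : ∑ σ, ‖(b σ).1 v.i v.φ (v.φ.symm z)‖ ≤ ∑ σ, |D0 σ| :=
      Finset.sum_le_sum fun σ _ => (hD0 σ z hz).trans (le_abs_self _)
    linarith
  -- the constant
  have hmR : (0 : ℝ) < m := by exact_mod_cast hm
  have hlR : (0 : ℝ) < l := by exact_mod_cast hl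
  have hvol0 : volume K₀ ≠ 0 := by
    intro h0
    have h1 : volume (interior K₀) = 0 := measure_mono_null interior_subset h0
    exact (isOpen_interior.measure_pos volume ⟨_, hK₀i⟩).ne' h1
  have hvolt : volume K₀ ≠ ⊤ := hK₀c.measure_lt_top.ne
  have hcD : 0 < c * D ^ (-(2 : ℝ) / m) := mul_pos hc (Real.rpow_pos_of_pos hDpos _)
  set K₁ : ℝ≥0∞ := ENNReal.ofReal (c * D ^ (-(2 : ℝ) / m)) * volume K₀ with hK₁
  have hK₁0 : K₁ ≠ 0 := by
    refine mul_ne_zero ?_ hvol0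
    rw [Ne, ENNReal.ofReal_eq_zero]
    exact not_le.2 hcD
  have hK₁t : K₁ ≠ ⊤ := ENNReal.mul_ne_top ENNReal.ofReal_ne_top hvolt
  obtain ⟨q, J, hJ, g, hq, hg, hmon⟩ := monomial_bound χs χ k m hm hK₁0 hK₁t
  refine ⟨q, J, hJ, fun j r => b.coord (g j r), fun j r => χs (g j r), K₁⁻¹, hq,
    ENNReal.inv_ne_top.2 hK₁0, ENNReal.inv_ne_zero.2 hK₁t, hg, fun j r => isEval_all _,
    fun j r a t t' ha h => ?_, fun t => ?_⟩
  · rw [(isAct_iff_rho Λ ha t t').1 h]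
    exact PFiberNorm_coord Λ b (fun j => hb j a ha) t (g j r)
  refine hmon (fun σ => b.coord σ t) (C.int m t.1) fun om A₀ hom hA₀ hle => ?_
  -- the torus element
  set a : Fin n → ℂ := fun c => ((om c : ℝ) : ℂ)⁻¹ with ha'
  have ha : InT a := fun c => inv_ne_zero (Complex.ofReal_ne_zero.2 (hom c).ne')
  set t' : secMod B k m := rho Λ k m a⁻¹ t with ht'
  have hat : Λ.IsAct a t' t := by
    rw [isAct_iff_rho Λ ha, ht', ← LinearMap.comp_apply, ← rho_mul Λ k m a a⁻¹ ha ha.inv,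
      ha.mul_inv, rho_one]
    rfl
  set P : ℝ := ∏ c, om c ^ χ c with hP
  have hP0 : 0 < P := Finset.prod_pos fun c _ => zpow_pos (hom c) _
  -- the bound for `t'`
  have hbound : ∀ z ∈ K₀, ‖t'.1 v.i v.φ (v.φ.symm z)‖ ≤ A₀ * P ^ k * D := by
    intro z hz
    have h1 : t'.1 v.i v.φ (v.φ.symm z) =
        ∑ σ, (chr (χs σ) a⁻¹ * b.coord σ t) * (b σ).1 v.i v.φ (v.φ.symm z) := by
      have h2 : PWt_ev (B := B) k m ⟨v.i, v.φ, v.φ.symm z, v.hφ, hK₀U z hz,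
          v.φ.map_target (hK₀t hz)⟩ t' = _ := congrArg _ (b.sum_repr t').symm
      rw [map_sum] at h2
      have h3 : t'.1 v.i v.φ (v.φ.symm z) = _ := h2
      rw [h3]
      refine Finset.sum_congr rfl fun σ _ => ?_
      rw [map_smul, smul_eq_mul]
      have h4 := PFiberNorm_coord Λ b (fun j => hb j a⁻¹ ha.inv) t σ
      rw [← ht', Module.Basis.coord_apply] at h4
      rw [h4]
      rfl
    rw [h1]
    have h5 : ∀ σ, ‖chr (χs σ) a⁻¹ * b.coord σ t‖ ≤ A₀ * P ^ k := by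
      intro σ
      have h6 : ‖chr (χs σ) a⁻¹‖ = (∏ c, om c ^ (χs σ c - k * χ c)) * P ^ k := by
        have h7 : a⁻¹ = fun c => (((om c)⁻¹ : ℝ) : ℂ)⁻¹ := by
          funext c
          simp only [ha', Pi.inv_apply, Complex.ofReal_inv]
        rw [h7, PFiberNorm_norm_chr (χs σ) (v := fun c => (om c)⁻¹) (fun c => inv_pos.2 (hom c)),
          ← Finset.prod_inv_distrib, hP, ← Finset.prod_pow, ← Finset.prod_mul_distrib]
        refine Finset.prod_congr rfl fun c _ => ?_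
        rw [inv_zpow, inv_inv, ← zpow_natCast, ← zpow_mul, ← zpow_add₀ (hom c).ne']
        congr 1
        ring
      rw [norm_mul, h6, mul_comm, ← mul_assoc]
      exact mul_le_mul_of_nonneg_right (hle σ) (by positivity)
    calc ‖∑ σ, (chr (χs σ) a⁻¹ * b.coord σ t) * (b σ).1 v.i v.φ (v.φ.symm z)‖
        ≤ ∑ σ, ‖(chr (χs σ) a⁻¹ * b.coord σ t) * (b σ).1 v.i v.φ (v.φ.symm z)‖ :=
          norm_sum_le _ _
      _ ≤ ∑ σ, (A₀ * P ^ k) * ‖(b σ).1 v.i v.φ (v.φ.symm z)‖ := by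
          refine Finset.sum_le_sum fun σ _ => ?_
          rw [norm_mul]
          exact mul_le_mul_of_nonneg_right (h5 σ) (norm_nonneg _)
      _ = (A₀ * P ^ k) * ∑ σ, ‖(b σ).1 v.i v.φ (v.φ.symm z)‖ := (Finset.mul_sum _ _ _).symm
      _ ≤ A₀ * P ^ k * D := mul_le_mul_of_nonneg_left (hDb z hz) (by positivity)
  have hbd0 : 0 < A₀ * P ^ k * D := by positivity
  have hint : ENNReal.ofReal ((A₀ * P ^ k * D) ^ (-(2 : ℝ) / m)) * volume K₀ ≤
      ∫⁻ z in K₀, ‖t'.1 v.i v.φ (v.φ.symm z)‖ₑ ^ (-(2 : ℝ) / m) := by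
    rw [← setLIntegral_const]
    refine setLIntegral_mono' hK₀c.measurableSet fun z hz => ?_
    rw [← ENNReal.ofReal_rpow_of_pos hbd0, neg_div, ENNReal.rpow_neg, ENNReal.rpow_neg]
    refine ENNReal.inv_le_inv.2 (ENNReal.rpow_le_rpow ?_ (by positivity))
    rw [← ofReal_norm]
    exact ENNReal.ofReal_le_ofReal (hbound z hz)
  have hchr : ‖chr w a‖ ^ (-(2 * k : ℝ) / (l * m)) = P ^ ((2 * k : ℝ) / m) := by
    rw [hw ha, norm_pow, PFiberNorm_norm_chr χ hom, ← hP, ← Real.rpow_natCast,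
      ← Real.rpow_neg_one, ← Real.rpow_mul hP0.le, ← Real.rpow_mul hP0.le]
    congr 1
    field_simp
  have hmain := hact a t t' ha hat
  rw [hchr] at hmain
  refine le_trans (le_of_eq ?_) ((mul_le_mul_right hint _).trans hmain)
  rw [hK₁, ← mul_assoc, ← ENNReal.ofReal_mul (by positivity), ENNReal.ofReal_rpow_of_pos hA₀,
    mul_right_comm, ← ENNReal.ofReal_mul (by positivity)]
  congr 2
  rw [Real.mul_rpow (by positivity) hDpos.le, Real.mul_rpow hA₀.le (by positivity),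
    ← Real.rpow_natCast P k, ← Real.rpow_mul hP0.le]
  have h1 : P ^ ((2 * k : ℝ) / m) * P ^ ((k : ℝ) * (-(2 : ℝ) / m)) = 1 := by
    rw [← Real.rpow_add hP0]
    have h2 : (2 * k : ℝ) / m + (k : ℝ) * (-(2 : ℝ) / m) = 0 := by ring
    rw [h2, Real.rpow_zero]
  calc c * D ^ (-(2 : ℝ) / m) * A₀ ^ (-(2 : ℝ) / m)
      = c * (P ^ ((2 * k : ℝ) / m) * P ^ ((k : ℝ) * (-(2 : ℝ) / m))) *
        (A₀ ^ (-(2 : ℝ) / m) * D ^ (-(2 : ℝ) / m)) := by rw [h1]; ring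
    _ = _ := by ring

end Pool.Agent.Abd
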