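import Pool.Agent.H.MP_e23cd6_ag.TB.PHull
import Pool.Agent.H.MP_e23cd6_ag.TB.PFiberNorm

/-! Torus bundles: the statements on the fibre `F` (no bundle) used in the proof are
`exists_finCover` (PCov), `isEval_all` (PFin), `exists_act` (PAct2), `exists_weight_component`,
`exists_hasWeight` (PWt), `fiber_norm` (PFiberNorm), `weight_mem_hull` (PHull). -/
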