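import Pool.Agent.H.MP_e23cd6_ag.TB.Incl

/-! Torus bundles: `twist M Λ` is semiample if `B` and its restrictions to the sections given by the
fixed points are semiample. -/

set_option autoImplicit false

open scoped Manifold ContDiff Topology ENNReal
open MeasureTheory Set Filter

namespace Pool.Agent.Abd

section general

variable {E : Type} [NormedAddCommGroup E] [NormedSpace ℂ E] {M : Type} [TopologicalSpace M]
  [ChartedSpace E M]

/-- The power of a section. -/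
noncomputable def PowSec.pow {B : LineBundle E M} {k : ℕ} (s : PowSec B k) (e : ℕ) {K : ℕ}
    (hK : K = k * e) : PowSec B K where
  f := fun i x => s.f i x ^ e
  hol := fun i x hx => (s.hol i x hx).pow e
  trans := by
    intro i j x hi hj
    rw [s.trans i j x hi hj, mul_pow, ← pow_mul, hK]

/-- It suffices to find the sections with a power depending on the point. -/
theorem semiample_of_local [CompactSpace M] (B : LineBundle E M)
    (h : ∀ x, ∃ k, 1 ≤ k ∧ ∃ s : PowSec B k, ∃ i, x ∈ B.U i ∧ s.f i x ≠ 0) : B.Semiample := by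
  choose k hk s i hi hs using h
  obtain ⟨T, hT⟩ := CompactSpace.elim_nhds_subcover
    (fun x => {x' | x' ∈ B.U (i x) ∧ (s x).f (i x) x' ≠ 0}) (fun x => by
      filter_upwards [(B.isOpen (i x)).mem_nhds (hi x),
        ((s x).hol (i x) x (hi x)).continuousAt.eventually_ne (hs x)] with x' h1 h2
      exact ⟨h1, h2⟩)
  refine ⟨∏ x ∈ T, k x, Finset.one_le_prod' (fun x _ => hk x), fun x => ?_⟩
  have h1 : x ∈ ⋃ t ∈ T, {x' | x' ∈ B.U (i t) ∧ (s t).f (i t) x' ≠ 0} := by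
    rw [hT]
    trivial
  simp only [mem_iUnion, exists_prop] at h1
  obtain ⟨t, htT, h2, h3⟩ := h1
  obtain ⟨e, he⟩ := Finset.dvd_prod_of_mem k htT
  exact ⟨(s t).pow e he, i t, h2, pow_ne_zero e h3⟩

/-- An element of `secMod B l 0` as a section of `B ^ l`. -/
noncomputable def secMod.toPow [IsManifold 𝓘(ℂ, E) ω M] {B : LineBundle E M} {l : ℕ}
    (t : secMod B l 0) : PowSec B l where
  f := fun u y => t.1 u (chartAt E y) y
  hol := by
    intro u y hu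
    have hψ := IsManifold.chart_mem_maximalAtlas (I := 𝓘(ℂ, E)) (n := ω) y
    refine (t.2.2.1 u _ hψ y hu (mem_chart_source E y)).congr_of_eventuallyEq ?_
    filter_upwards [(B.isOpen u).mem_nhds hu,
      (chartAt E y).open_source.mem_nhds (mem_chart_source E y)] with y' h1 h2
    rw [t.2.2.2 u u _ (IsManifold.chart_mem_maximalAtlas (I := 𝓘(ℂ, E)) (n := ω) y') _ hψ y' h1 h1
      (mem_chart_source E y') h2, B.one u y' h1]
    simp
  trans := by
    intro u v y hu hv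
    have hψ := IsManifold.chart_mem_maximalAtlas (I := 𝓘(ℂ, E)) (n := ω) y
    rw [t.2.2.2 u v _ hψ _ hψ y hu hv (mem_chart_source E y) (mem_chart_source E y)]
    simp

/-- A section of `B ^ l` as an element of `secMod B l 0`. -/
noncomputable def PowSec.toMod {B : LineBundle E M} {l : ℕ} (t : PowSec B l) : secMod B l 0 :=
  Sec.toMod (B := B) (k := l) (m := 0)
    { f := fun u _ y => t.f u y
      hol := fun u _ _ y hu _ => t.hol u y hu
      trans := fun u v _ _ _ _ y hu hv _ _ => by rw [t.trans u v y hu hv]; simp }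

theorem PowSec.toMod_apply {B : LineBundle E M} {l : ℕ} (t : PowSec B l) (v : Spot B) :
    t.toMod.1 v.i v.φ v.x = t.f v.i v.x := by
  unfold PowSec.toMod
  rw [Sec.toMod_apply _ v.hφ v.hi v.hx]

theorem prod_chr_finset {n : ℕ} (S : Finset (Fin n → ℤ)) (ν : (Fin n → ℤ) → ℕ) (χ : Fin n → ℤ)
    (N : ℕ) (h : ∀ c, (N : ℤ) * χ c = ∑ w ∈ S, ν w * w c) {a : Fin n → ℂ} (ha : InT a) :
    ∏ w ∈ S, chr w a ^ ν w = chr χ a ^ N := by
  unfold chr
  have h1 : ∀ S : Finset (Fin n → ℤ), ∏ w ∈ S, (∏ c, a c ^ w c) ^ ν w =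
      ∏ c, a c ^ (∑ w ∈ S, (ν w : ℤ) * w c) := by
    intro S
    induction S using Finset.induction_on with
    | empty => simp
    | insert r s hr ih =>
      rw [Finset.prod_insert hr, ih, ← Finset.prod_pow, ← Finset.prod_mul_distrib]
      apply Finset.prod_congr rfl
      intro c _
      rw [Finset.sum_insert hr, zpow_add₀ (ha c), mul_comm (ν r : ℤ), zpow_mul, zpow_natCast]
  rw [h1, ← Finset.prod_pow]
  apply Finset.prod_congr rfl
  intro c _
  rw [← h c, mul_comm, zpow_mul, zpow_natCast]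

end general

namespace TorusBundle

variable {E₁ E₂ : Type} [NormedAddCommGroup E₁] [NormedSpace ℂ E₁]
  [NormedAddCommGroup E₂] [NormedSpace ℂ E₂] {n : ℕ} {F : Type} [TopologicalSpace F]
  [ChartedSpace E₂ F] {A : TorusAction E₂ n F} {X Z : Type} [TopologicalSpace X]
  [TopologicalSpace Z] [ChartedSpace (E₁ × E₂) X] [ChartedSpace E₁ Z] {π : X → Z}
  (h : TorusBundle E₁ A π)
  [IsManifold 𝓘(ℂ, E₁) ω Z] [IsManifold 𝓘(ℂ, E₂) ω F] [IsManifold 𝓘(ℂ, E₁ × E₂) ω X]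
  {M : LineBundle E₁ Z} {B : LineBundle E₂ F} (Λ : Linearization A B)

/-- The product of sections of `(M ⊗ L_w) ^ K`, `w ∈ S`, and of a section of `B` of weight `χ`. -/
noncomputable def prodSec {l N K : ℕ} {χ : Fin n → ℤ} {t : secMod B l 0} (ht : Λ.IsWt χ t)
    (S : Finset (Fin n → ℤ)) (ν : (Fin n → ℤ) → ℕ) (hν : ∑ w ∈ S, ν w = N * l)
    (hχ : ∀ c, (N : ℤ) * χ c = ∑ w ∈ S, ν w * w c) (V : ∀ w, PowSec (h.wt M w) K) :
    PowSec (h.twist M Λ) (K * N * l) where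
  f := fun i x => (∏ w ∈ S, (V w).f (i.1, i.2.1) (π x) ^ ν w) *
    (secMod.toPow t).f i.2.2 (h.τ i.2.1 x) ^ (K * N)
  hol := by
    rintro ⟨i, p, u⟩ x ⟨h1, h2, h3⟩
    have h4 : HolAt (E₁ × E₂) (fun x => (secMod.toPow t).f u (h.τ p x)) x :=
      ContMDiffAt.comp x ((secMod.toPow t).hol u (h.τ p x) h3) (h.tau_contMDiffAt p x h2)
    have h5 : HolAt (E₁ × E₂) (fun x => ∏ w ∈ S, (V w).f (i, p) (π x) ^ ν w) x := by
      apply contMDiffAt_finsetProd
      intro w _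
      have h6 : HolAt (E₁ × E₂) (fun x => (V w).f (i, p) (π x)) x :=
        ContMDiffAt.comp x ((V w).hol (i, p) (π x) ⟨h1, h2⟩) (h.pi_contMDiffAt x)
      exact h6.pow _
    exact h5.mul (h4.pow _)
  trans := by
    rintro ⟨i, p, u⟩ ⟨j, q, v⟩ x ⟨h1, h2, h3⟩ ⟨h4, h5, h6⟩
    show (∏ w ∈ S, (V w).f (i, p) (π x) ^ ν w) * (secMod.toPow t).f u (h.τ p x) ^ (K * N) =
      (M.g i j (π x) * Λ.lam u v (h.γ p q (π x)) (h.τ q x)) ^ (K * N * l) *
      ((∏ w ∈ S, (V w).f (j, q) (π x) ^ ν w) * (secMod.toPow t).f v (h.τ q x) ^ (K * N))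
    have hT := h.γ_inT p q (π x) h2 h5
    have e1 := h.τ_trans p q x h2 h5
    have e2 : chr χ (h.γ p q (π x)) * (secMod.toPow t).f u (h.τ p x) =
        Λ.lam u v (h.γ p q (π x)) (h.τ q x) ^ l * (secMod.toPow t).f v (h.τ q x) := by
      have h7 := ht _ hT u v (chartAt E₂ (h.τ p x))
        (IsManifold.chart_mem_maximalAtlas (I := 𝓘(ℂ, E₂)) (n := ω) _) (chartAt E₂ (h.τ q x))
        (IsManifold.chart_mem_maximalAtlas (I := 𝓘(ℂ, E₂)) (n := ω) _) (h.τ q x)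
        (by rw [← e1]; exact h3) h6 (by rw [← e1]; exact mem_chart_source E₂ _)
        (mem_chart_source E₂ _)
      rw [← e1, pow_zero, mul_one] at h7
      exact h7
    have e3 : ∏ w ∈ S, (V w).f (i, p) (π x) ^ ν w =
        M.g i j (π x) ^ (K * N * l) * chr χ (h.γ p q (π x)) ^ (K * N) *
          ∏ w ∈ S, (V w).f (j, q) (π x) ^ ν w := by
      have h7 : ∀ w ∈ S, (V w).f (i, p) (π x) ^ ν w =
          (M.g i j (π x) ^ K) ^ ν w * (chr w (h.γ p q (π x)) ^ ν w) ^ K *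
            (V w).f (j, q) (π x) ^ ν w := by
        intro w _
        rw [(V w).trans (i, p) (j, q) (π x) ⟨h1, h2⟩ ⟨h4, h5⟩]
        show ((M.g i j (π x) * chr w (h.γ p q (π x))) ^ K * _) ^ ν w = _
        ring
      rw [Finset.prod_congr rfl h7, Finset.prod_mul_distrib, Finset.prod_mul_distrib,
        Finset.prod_pow_eq_pow_sum, hν, Finset.prod_pow, prod_chr_finset S ν χ N hχ hT]
      ring
    rw [e3]
    calc _ = M.g i j (π x) ^ (K * N * l) * (∏ w ∈ S, (V w).f (j, q) (π x) ^ ν w) *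
          (chr χ (h.γ p q (π x)) * (secMod.toPow t).f u (h.τ p x)) ^ (K * N) := by ring
      _ = _ := by rw [e2]; ring

/-- (4): `twist M Λ` is semiample if `B` and the restrictions to the sections are semiample. -/
theorem semiample_of [CompactSpace X] (hB : B.Semiample)
    (hW : ∀ (l : ℕ) (t : secMod B l 0) (v : Spot B), t.1 v.i v.φ v.x ≠ 0 →
      ∃ (χ : Fin n → ℤ) (t' : secMod B l 0), Λ.IsWt χ t' ∧ t'.1 v.i v.φ v.x ≠ 0)
    (hH : ∀ (l : ℕ), 1 ≤ l → ∀ (χ : Fin n → ℤ) (t : secMod B l 0), Λ.IsWt χ t →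
      ∀ v : Spot B, t.1 v.i v.φ v.x ≠ 0 →
      ∃ (N : ℕ) (S : Finset (Fin n → ℤ)) (ν : (Fin n → ℤ) → ℕ), 1 ≤ N ∧
        (∀ w ∈ S, ∃ y, A.Fixed y ∧ Λ.HasWeight y w) ∧ ∑ w ∈ S, ν w = N * l ∧
        ∀ c, (N : ℤ) * χ c = ∑ w ∈ S, ν w * w c)
    (hS : ∀ y χ, A.Fixed y → Λ.HasWeight y χ → (h.wt M χ).Semiample) :
    (h.twist M Λ).Semiample := by
  apply semiample_of_local
  intro x
  obtain ⟨p, hp⟩ := h.cover (π x)
  obtain ⟨l, hl, hB'⟩ := hB
  obtain ⟨s, u, hu, hs⟩ := hB' (h.τ p x)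
  have hψ := IsManifold.chart_mem_maximalAtlas (I := 𝓘(ℂ, E₂)) (n := ω) (h.τ p x)
  let v : Spot B := ⟨u, chartAt E₂ (h.τ p x), h.τ p x, hψ, hu, mem_chart_source E₂ _⟩
  obtain ⟨χ, t, ht, ht0⟩ := hW l s.toMod v (by rw [s.toMod_apply v]; exact hs)
  obtain ⟨N, S, ν, hN, hfix, hν, hχ⟩ := hH l hl χ t ht v ht0
  -- sections of the bundles `wt M w`
  have h1 : ∀ w : Fin n → ℤ, ∃ k : ℕ, 1 ≤ k ∧ ∃ V : PowSec (h.wt M w) k,
      w ∈ S → ∃ i, π x ∈ (h.wt M w).U i ∧ V.f i (π x) ≠ 0 := by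
    intro w
    by_cases hw : w ∈ S
    · obtain ⟨y, hy, hyw⟩ := hfix w hw
      obtain ⟨k, hk, hk'⟩ := hS y w hy hyw
      obtain ⟨V, i, hi, hV⟩ := hk' (π x)
      exact ⟨k, hk, V, fun _ => ⟨i, hi, hV⟩⟩
    · refine ⟨1, le_rfl, ⟨fun _ _ => 0, fun _ _ _ => contMDiffAt_const, fun _ _ _ _ _ => ?_⟩,
        fun h => absurd h hw⟩
      simp
  choose k hk V hV using h1
  obtain ⟨i, hi⟩ := M.cover (π x)
  have h2 : ∀ w : Fin n → ℤ, ∃ V' : PowSec (h.wt M w) (∏ w ∈ S, k w),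
      w ∈ S → V'.f (i, p) (π x) ≠ 0 := by
    intro w
    by_cases hw : w ∈ S
    · obtain ⟨e, he⟩ := Finset.dvd_prod_of_mem k hw
      refine ⟨(V w).pow e he, fun _ => pow_ne_zero e ?_⟩
      obtain ⟨i', hi', hV'⟩ := hV w hw
      rw [(V w).trans (i, p) i' (π x) ⟨hi, hp⟩ hi']
      exact mul_ne_zero (pow_ne_zero _ ((h.wt M w).g_ne_zero ⟨hi, hp⟩ hi')) hV'
    · refine ⟨⟨fun _ _ => 0, fun _ _ _ => contMDiffAt_const, fun _ _ _ _ _ => ?_⟩,
        fun h => absurd h hw⟩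
      simp
  choose V' hV' using h2
  refine ⟨(∏ w ∈ S, k w) * N * l, ?_, h.prodSec Λ ht S ν hν hχ V', (i, p, u), ⟨hi, hp, hu⟩, ?_⟩
  · have h3 : 1 ≤ ∏ w ∈ S, k w := Finset.one_le_prod' (fun w _ => hk w)
    exact Nat.mul_pos (Nat.mul_pos h3 hN) hl
  · show (∏ w ∈ S, (V' w).f (i, p) (π x) ^ ν w) *
      (secMod.toPow t).f u (h.τ p x) ^ ((∏ w ∈ S, k w) * N) ≠ 0
    refine mul_ne_zero (Finset.prod_ne_zero_iff.2 fun w hw => pow_ne_zero _ (hV' w hw)) ?_
    exact pow_ne_zero _ ht0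

end TorusBundle

end Pool.Agent.Abd
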