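import Pool.Agent.H.MP_e23cd6_ag.TB.SecV

/-! Basic facts on torus bundles: the chosen charts `κ p φ ψ`, the points `pt p φ ψ z y`, the
inclusion of the fibre over `z`, the section of `π` given by a fixed point. -/

set_option autoImplicit false

open scoped Manifold ContDiff Topology ENNReal
open MeasureTheory Set Filter

namespace Pool.Agent.Abd

namespace TorusBundle

variable {E₁ E₂ : Type} [NormedAddCommGroup E₁] [NormedSpace ℂ E₁]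
  [NormedAddCommGroup E₂] [NormedSpace ℂ E₂] {n : ℕ} {F : Type} [TopologicalSpace F]
  [ChartedSpace E₂ F] {A : TorusAction E₂ n F} {X Z : Type} [TopologicalSpace X]
  [TopologicalSpace Z] [ChartedSpace (E₁ × E₂) X] [ChartedSpace E₁ Z] {π : X → Z}
  (h : TorusBundle E₁ A π)

/-- The chosen chart of `X` over `W p ∩ φ.source` and `ψ.source`. -/
noncomputable def κ (p : h.P) (φ : OpenPartialHomeomorph Z E₁) (hφ : φ ∈ Charts E₁ Z)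
    (ψ : OpenPartialHomeomorph F E₂) (hψ : ψ ∈ Charts E₂ F) :
    OpenPartialHomeomorph X (E₁ × E₂) :=
  (h.chart p φ hφ ψ hψ).choose

variable {φ : OpenPartialHomeomorph Z E₁} (hφ : φ ∈ Charts E₁ Z)
  {ψ : OpenPartialHomeomorph F E₂} (hψ : ψ ∈ Charts E₂ F)

theorem κ_mem (p : h.P) : h.κ p φ hφ ψ hψ ∈ Charts (E₁ × E₂) X :=
  (h.chart p φ hφ ψ hψ).choose_spec.1

theorem mem_κ_source (p : h.P) (x : X) :
    x ∈ (h.κ p φ hφ ψ hψ).source ↔ π x ∈ h.W p ∧ π x ∈ φ.source ∧ h.τ p x ∈ ψ.source := by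
  have h1 := (h.chart p φ hφ ψ hψ).choose_spec.2.1
  unfold κ
  rw [h1]
  rfl

theorem κ_target (p : h.P) :
    (h.κ p φ hφ ψ hψ).target = (φ '' (h.W p ∩ φ.source)) ×ˢ ψ.target :=
  (h.chart p φ hφ ψ hψ).choose_spec.2.2.1

theorem κ_apply (p : h.P) {x : X} (hx : x ∈ (h.κ p φ hφ ψ hψ).source) :
    h.κ p φ hφ ψ hψ x = (φ (π x), ψ (h.τ p x)) :=
  (h.chart p φ hφ ψ hψ).choose_spec.2.2.2 x hx

theorem mem_κ_target (p : h.P) {z : Z} (hz : z ∈ h.W p) (hz' : z ∈ φ.source) {w : E₂}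
    (hw : w ∈ ψ.target) : (φ z, w) ∈ (h.κ p φ hφ ψ hψ).target := by
  rw [κ_target]
  exact ⟨⟨z, ⟨hz, hz'⟩, rfl⟩, hw⟩

/-- The point of `X` over `z` with the fibre coordinate `y`. -/
noncomputable def pt (p : h.P) (φ : OpenPartialHomeomorph Z E₁) (hφ : φ ∈ Charts E₁ Z)
    (ψ : OpenPartialHomeomorph F E₂) (hψ : ψ ∈ Charts E₂ F) (z : Z) (y : F) : X :=
  (h.κ p φ hφ ψ hψ).symm (φ z, ψ y)

section pt

variable (p : h.P) {z : Z} (hz : z ∈ h.W p) (hz' : z ∈ φ.source) {y : F} (hy : y ∈ ψ.source)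

include hz hz' hy

theorem pt_mem : h.pt p φ hφ ψ hψ z y ∈ (h.κ p φ hφ ψ hψ).source :=
  (h.κ p φ hφ ψ hψ).map_target (h.mem_κ_target hφ hψ p hz hz' (ψ.map_source hy))

theorem κ_pt : h.κ p φ hφ ψ hψ (h.pt p φ hφ ψ hψ z y) = (φ z, ψ y) :=
  (h.κ p φ hφ ψ hψ).right_inv (h.mem_κ_target hφ hψ p hz hz' (ψ.map_source hy))

theorem pi_pt : π (h.pt p φ hφ ψ hψ z y) = z := by
  have h1 := h.pt_mem hφ hψ p hz hz' hy
  have h2 := h.κ_apply hφ hψ p h1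
  rw [h.κ_pt hφ hψ p hz hz' hy] at h2
  have h3 : φ z = φ (π (h.pt p φ hφ ψ hψ z y)) := congrArg Prod.fst h2
  exact (φ.injOn hz' ((h.mem_κ_source hφ hψ p _).1 h1).2.1 h3).symm

theorem tau_pt : h.τ p (h.pt p φ hφ ψ hψ z y) = y := by
  have h1 := h.pt_mem hφ hψ p hz hz' hy
  have h2 := h.κ_apply hφ hψ p h1
  rw [h.κ_pt hφ hψ p hz hz' hy] at h2
  have h3 : ψ y = ψ (h.τ p (h.pt p φ hφ ψ hψ z y)) := congrArg Prod.snd h2
  exact (ψ.injOn hy ((h.mem_κ_source hφ hψ p _).1 h1).2.2 h3).symm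

end pt

/-- A point is determined by its image in `Z` and its fibre coordinate. -/
theorem eq_of_tau_eq [IsManifold 𝓘(ℂ, E₁) ω Z] [IsManifold 𝓘(ℂ, E₂) ω F] (p : h.P) {x x' : X}
    (hx : π x ∈ h.W p) (h1 : π x' = π x) (h2 : h.τ p x' = h.τ p x) : x' = x := by
  have hφ := IsManifold.chart_mem_maximalAtlas (I := 𝓘(ℂ, E₁)) (n := ω) (π x)
  have hψ := IsManifold.chart_mem_maximalAtlas (I := 𝓘(ℂ, E₂)) (n := ω) (h.τ p x)
  have hs : x ∈ (h.κ p _ hφ _ hψ).source := by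
    rw [h.mem_κ_source hφ hψ]
    exact ⟨hx, mem_chart_source E₁ (π x), mem_chart_source E₂ (h.τ p x)⟩
  have hs' : x' ∈ (h.κ p _ hφ _ hψ).source := by
    rw [h.mem_κ_source hφ hψ, h1, h2]
    exact ⟨hx, mem_chart_source E₁ (π x), mem_chart_source E₂ (h.τ p x)⟩
  apply (h.κ p _ hφ _ hψ).injOn hs' hs
  rw [h.κ_apply hφ hψ p hs, h.κ_apply hφ hψ p hs', h1, h2]

/-- The point `pt` is determined by its image in `Z` and its fibre coordinate. -/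
theorem eq_pt [IsManifold 𝓘(ℂ, E₁) ω Z] [IsManifold 𝓘(ℂ, E₂) ω F] (p : h.P) {x : X} {z : Z}
    {y : F} (hz : z ∈ h.W p) (hz' : z ∈ φ.source) (hy : y ∈ ψ.source) (h1 : π x = z)
    (h2 : h.τ p x = y) : x = h.pt p φ hφ ψ hψ z y := by
  symm
  apply h.eq_of_tau_eq p (by rw [h1]; exact hz)
  · rw [h.pi_pt hφ hψ p hz hz' hy, h1]
  · rw [h.tau_pt hφ hψ p hz hz' hy, h2]

theorem pt_contMDiffAt [IsManifold 𝓘(ℂ, E₁) ω Z] [IsManifold 𝓘(ℂ, E₂) ω F]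
    [IsManifold 𝓘(ℂ, E₁ × E₂) ω X] (p : h.P) {z : Z} (hz : z ∈ h.W p) (hz' : z ∈ φ.source) {y : F}
    (hy : y ∈ ψ.source) : ContMDiffAt (𝓘(ℂ, E₁).prod 𝓘(ℂ, E₂)) 𝓘(ℂ, E₁ × E₂) ω
      (fun v : Z × F => h.pt p φ hφ ψ hψ v.1 v.2) (z, y) := by
  have h1 : ContMDiffAt 𝓘(ℂ, E₁) 𝓘(ℂ, E₁) ω φ z := contMDiffAt_of_mem_maximalAtlas hφ hz'
  have h2 : ContMDiffAt 𝓘(ℂ, E₂) 𝓘(ℂ, E₂) ω ψ y := contMDiffAt_of_mem_maximalAtlas hψ hy
  have h3 : ContMDiffAt (𝓘(ℂ, E₁).prod 𝓘(ℂ, E₂)) 𝓘(ℂ, E₁) ω (fun v : Z × F => φ v.1) (z, y) :=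
    ContMDiffAt.comp (z, y) h1 contMDiffAt_fst
  have h4 : ContMDiffAt (𝓘(ℂ, E₁).prod 𝓘(ℂ, E₂)) 𝓘(ℂ, E₂) ω (fun v : Z × F => ψ v.2) (z, y) :=
    ContMDiffAt.comp (z, y) h2 contMDiffAt_snd
  have h5 : ContMDiffAt (𝓘(ℂ, E₁).prod 𝓘(ℂ, E₂)) 𝓘(ℂ, E₁ × E₂) ω
      (fun v : Z × F => (φ v.1, ψ v.2)) (z, y) := h3.prodMk_space h4
  have h6 : ContMDiffAt 𝓘(ℂ, E₁ × E₂) 𝓘(ℂ, E₁ × E₂) ω (h.κ p φ hφ ψ hψ).symm (φ z, ψ y) :=
    contMDiffAt_symm_of_mem_maximalAtlas (h.κ_mem hφ hψ p)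
      (h.mem_κ_target hφ hψ p hz hz' (ψ.map_source hy))
  exact ContMDiffAt.comp (z, y) h6 h5

end TorusBundle

end Pool.Agent.Abd
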