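import Pool.Agent.H.MP_e23cd6_ag.Defs

/-! MP_e23cd6_ag (abundance conjecture), torus bundles: a fibre bundle `X → Z` with fibre `F` whose
structure group is a torus `(ℂ^*)^n` acting holomorphically on `F`. The elements of the torus are
the vectors `a : Fin n → ℂ` without zero coordinates. -/

set_option autoImplicit false

open scoped Manifold ContDiff Topology ENNReal
open MeasureTheory Set Filter

namespace Pool.Agent.Abd

/-- The vector `a` is an element of the torus `(ℂ^*)^n`. -/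
def InT {n : ℕ} (a : Fin n → ℂ) : Prop := ∀ c, a c ≠ 0

/-- The character `χ` of the torus `(ℂ^*)^n`. -/
noncomputable def chr {n : ℕ} (χ : Fin n → ℤ) (a : Fin n → ℂ) : ℂ := ∏ c, a c ^ χ c

theorem chr_mul {n : ℕ} (χ : Fin n → ℤ) (a b : Fin n → ℂ) : chr χ (a * b) = chr χ a * chr χ b := by
  unfold chr
  rw [← Finset.prod_mul_distrib]
  apply Finset.prod_congr rfl
  intro c _
  rw [Pi.mul_apply, mul_zpow]

theorem chr_contDiffAt {n : ℕ} (χ : Fin n → ℤ) {a : Fin n → ℂ} (ha : InT a) :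
    ContDiffAt ℂ ω (chr χ) a := by
  unfold chr
  apply contDiffAt_prod
  intro c _
  have h1 : AnalyticAt ℂ (fun w : ℂ => w ^ χ c) (a c) := analyticAt_id.zpow (ha c)
  exact ContDiffAt.comp a h1.contDiffAt (contDiff_apply ℂ ℂ c).contDiffAt

/-- A holomorphic action of the torus `(ℂ^*)^n` on the complex manifold `F`. -/
structure TorusAction (E : Type) [NormedAddCommGroup E] [NormedSpace ℂ E] (n : ℕ) (F : Type)
    [TopologicalSpace F] [ChartedSpace E F] where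
  act : (Fin n → ℂ) → F → F
  one : ∀ y, act 1 y = y
  mul : ∀ a b, InT a → InT b → ∀ y, act (a * b) y = act a (act b y)
  hol : ∀ a, InT a → ∀ y, ContMDiffAt (𝓘(ℂ, Fin n → ℂ).prod 𝓘(ℂ, E)) 𝓘(ℂ, E) ω
    (fun v : (Fin n → ℂ) × F => act v.1 v.2) (a, y)

section fibre

variable {E : Type} [NormedAddCommGroup E] [NormedSpace ℂ E] {n : ℕ} {F : Type}
  [TopologicalSpace F] [ChartedSpace E F]

/-- Every one-parameter subgroup `t ↦ (t ^ λ_c)_c` moves every point of `F` to a limit as `t → 0`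
(true for the algebraic actions on projective manifolds). -/
def TorusAction.HasLimits (A : TorusAction E n F) : Prop :=
  ∀ (l : Fin n → ℤ) (y : F), ∃ y₀, Tendsto (fun t : ℂ => A.act (fun c => t ^ l c) y) (𝓝[≠] 0) (𝓝 y₀)

/-- `y` is a fixed point of the torus action. -/
def TorusAction.Fixed (A : TorusAction E n F) (y : F) : Prop := ∀ a, InT a → A.act a y = y

/-- A linearisation of the line bundle `B` on `F`: a lift of the torus action to `B`. The element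
`a` maps the vector with the coordinate `f` at `y ∈ U j` (with respect to the frame over `U j`) to
the vector with the coordinate `lam i j a y * f` at `a y ∈ U i`. -/
structure Linearization (A : TorusAction E n F) (B : LineBundle E F) where
  lam : B.ι → B.ι → (Fin n → ℂ) → F → ℂ
  hol : ∀ i j a y, InT a → y ∈ B.U j → A.act a y ∈ B.U i →
    ContMDiffAt (𝓘(ℂ, Fin n → ℂ).prod 𝓘(ℂ, E)) 𝓘(ℂ) ω
      (fun v : (Fin n → ℂ) × F => lam i j v.1 v.2) (a, y)
  one : ∀ i j y, y ∈ B.U i → y ∈ B.U j → lam i j 1 y = B.g i j y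
  mul : ∀ i j l a b y, InT a → InT b → y ∈ B.U l → A.act b y ∈ B.U j → A.act (a * b) y ∈ B.U i →
    lam i j a (A.act b y) * lam j l b y = lam i l (a * b) y

/-- The torus acts with the weight `χ` on the fibre of `B` at the fixed point `y`. -/
def Linearization.HasWeight {A : TorusAction E n F} {B : LineBundle E F} (Λ : Linearization A B)
    (y : F) (χ : Fin n → ℤ) : Prop :=
  ∀ i, y ∈ B.U i → ∀ a, InT a → Λ.lam i i a y = chr χ a

end fibre

/-- `π : X → Z` is a holomorphic fibre bundle with fibre `F` and structure group `(ℂ^*)^n`: over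
the open sets `W p` of `Z` there are the fibre coordinates `τ p x ∈ F` of the points `x` of `X`
(so that `(φ ∘ π, ψ ∘ τ p)` is a holomorphic chart of `X` for each chart `φ` of `Z` and each chart
`ψ` of `F`); the fibre coordinates over `W p` and `W q` are related by the action of the torus
element `γ p q z`, which depends holomorphically on `z`. -/
structure TorusBundle (E₁ : Type) [NormedAddCommGroup E₁] [NormedSpace ℂ E₁] {E₂ : Type}
    [NormedAddCommGroup E₂] [NormedSpace ℂ E₂] {n : ℕ} {F : Type} [TopologicalSpace F]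
    [ChartedSpace E₂ F] (A : TorusAction E₂ n F) {X Z : Type} [TopologicalSpace X]
    [TopologicalSpace Z] [ChartedSpace (E₁ × E₂) X] [ChartedSpace E₁ Z] (π : X → Z) where
  cont : Continuous π
  P : Type
  W : P → Set Z
  isOpen : ∀ p, IsOpen (W p)
  cover : ∀ z, ∃ p, z ∈ W p
  τ : P → X → F
  γ : P → P → Z → Fin n → ℂ
  chart : ∀ p, ∀ φ ∈ Charts E₁ Z, ∀ ψ ∈ Charts E₂ F, ∃ κ ∈ Charts (E₁ × E₂) X,
    κ.source = {x | π x ∈ W p ∧ π x ∈ φ.source ∧ τ p x ∈ ψ.source} ∧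
    κ.target = (φ '' (W p ∩ φ.source)) ×ˢ ψ.target ∧
    ∀ x ∈ κ.source, κ x = (φ (π x), ψ (τ p x))
  τ_trans : ∀ p q x, π x ∈ W p → π x ∈ W q → τ p x = A.act (γ p q (π x)) (τ q x)
  γ_inT : ∀ p q z, z ∈ W p → z ∈ W q → InT (γ p q z)
  γ_hol : ∀ p q c z, z ∈ W p → z ∈ W q → HolAt E₁ (fun z => γ p q z c) z
  γ_one : ∀ p z, z ∈ W p → γ p p z = 1
  γ_mul : ∀ p q l z, z ∈ W p → z ∈ W q → z ∈ W l → γ p q z * γ q l z = γ p l z

namespace TorusBundle

variable {E₁ E₂ : Type} [NormedAddCommGroup E₁] [NormedSpace ℂ E₁]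
  [NormedAddCommGroup E₂] [NormedSpace ℂ E₂] {n : ℕ} {F : Type} [TopologicalSpace F]
  [ChartedSpace E₂ F] {A : TorusAction E₂ n F} {X Z : Type} [TopologicalSpace X]
  [TopologicalSpace Z] [ChartedSpace (E₁ × E₂) X] [ChartedSpace E₁ Z] {π : X → Z}
  (h : TorusBundle E₁ A π)

include h in
theorem pi_contMDiffAt [IsManifold 𝓘(ℂ, E₁) ω Z] [IsManifold 𝓘(ℂ, E₂) ω F]
    [IsManifold 𝓘(ℂ, E₁ × E₂) ω X] (x : X) :
    ContMDiffAt 𝓘(ℂ, E₁ × E₂) 𝓘(ℂ, E₁) ω π x := by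
  obtain ⟨p, hp⟩ := h.cover (π x)
  have hφ := IsManifold.chart_mem_maximalAtlas (I := 𝓘(ℂ, E₁)) (n := ω) (π x)
  have hψ := IsManifold.chart_mem_maximalAtlas (I := 𝓘(ℂ, E₂)) (n := ω) (h.τ p x)
  obtain ⟨κ, hκ, hs, ht, ha⟩ := h.chart p _ hφ _ hψ
  have hx : x ∈ κ.source := by
    rw [hs]
    exact ⟨hp, mem_chart_source E₁ (π x), mem_chart_source E₂ (h.τ p x)⟩
  have h1 := contMDiffAt_of_mem_maximalAtlas hκ hx
  have h2 : ContMDiffAt 𝓘(ℂ, E₁ × E₂) 𝓘(ℂ, E₁) ω (fun v : E₁ × E₂ => v.1) (κ x) :=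
    contDiff_fst.contMDiff.contMDiffAt
  have h3 : ContMDiffAt 𝓘(ℂ, E₁ × E₂) 𝓘(ℂ, E₁) ω (fun x' => (κ x').1) x := h2.comp x h1
  have e1 : (κ x).1 = chartAt E₁ (π x) (π x) := by rw [ha x hx]
  have h4 : ContMDiffAt 𝓘(ℂ, E₁) 𝓘(ℂ, E₁) ω (chartAt E₁ (π x)).symm (κ x).1 := by
    apply contMDiffAt_symm_of_mem_maximalAtlas hφ
    rw [e1]
    exact mem_chart_target E₁ (π x)
  have h5 := ContMDiffAt.comp x h4 h3
  refine h5.congr_of_eventuallyEq ?_
  filter_upwards [κ.open_source.mem_nhds hx] with x' hx'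
  have hx2 := hx'
  rw [hs] at hx2
  simp only [Function.comp]
  rw [ha x' hx', (chartAt E₁ (π x)).left_inv hx2.2.1]

theorem tau_contMDiffAt [IsManifold 𝓘(ℂ, E₁) ω Z] [IsManifold 𝓘(ℂ, E₂) ω F]
    [IsManifold 𝓘(ℂ, E₁ × E₂) ω X] (p : h.P) (x : X) (hp : π x ∈ h.W p) :
    ContMDiffAt 𝓘(ℂ, E₁ × E₂) 𝓘(ℂ, E₂) ω (h.τ p) x := by
  have hφ := IsManifold.chart_mem_maximalAtlas (I := 𝓘(ℂ, E₁)) (n := ω) (π x)
  have hψ := IsManifold.chart_mem_maximalAtlas (I := 𝓘(ℂ, E₂)) (n := ω) (h.τ p x)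
  obtain ⟨κ, hκ, hs, ht, ha⟩ := h.chart p _ hφ _ hψ
  have hx : x ∈ κ.source := by
    rw [hs]
    exact ⟨hp, mem_chart_source E₁ (π x), mem_chart_source E₂ (h.τ p x)⟩
  have h1 := contMDiffAt_of_mem_maximalAtlas hκ hx
  have h2 : ContMDiffAt 𝓘(ℂ, E₁ × E₂) 𝓘(ℂ, E₂) ω (fun v : E₁ × E₂ => v.2) (κ x) :=
    contDiff_snd.contMDiff.contMDiffAt
  have h3 : ContMDiffAt 𝓘(ℂ, E₁ × E₂) 𝓘(ℂ, E₂) ω (fun x' => (κ x').2) x := h2.comp x h1
  have e1 : (κ x).2 = chartAt E₂ (h.τ p x) (h.τ p x) := by rw [ha x hx]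
  have h4 : ContMDiffAt 𝓘(ℂ, E₂) 𝓘(ℂ, E₂) ω (chartAt E₂ (h.τ p x)).symm (κ x).2 := by
    apply contMDiffAt_symm_of_mem_maximalAtlas hψ
    rw [e1]
    exact mem_chart_target E₂ (h.τ p x)
  have h5 := ContMDiffAt.comp x h4 h3
  refine h5.congr_of_eventuallyEq ?_
  filter_upwards [κ.open_source.mem_nhds hx] with x' hx'
  have hx2 := hx'
  rw [hs] at hx2
  simp only [Function.comp]
  rw [ha x' hx', (chartAt E₂ (h.τ p x)).left_inv hx2.2.2]

theorem gam_contMDiffAt [IsManifold 𝓘(ℂ, E₁) ω Z] (p q : h.P) (z : Z) (hp : z ∈ h.W p)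
    (hq : z ∈ h.W q) : ContMDiffAt 𝓘(ℂ, E₁) 𝓘(ℂ, Fin n → ℂ) ω (h.γ p q) z := by
  rw [contMDiffAt_pi_space]
  intro c
  exact h.γ_hol p q c z hp hq

variable [IsManifold 𝓘(ℂ, E₁) ω Z] [IsManifold 𝓘(ℂ, E₂) ω F] [IsManifold 𝓘(ℂ, E₁ × E₂) ω X]

/-- The line bundle `π^* M ⊗ B'` on `X`, where `B'` is the bundle associated with the linearised
line bundle `B` on the fibre `F`. -/
noncomputable def twist (M : LineBundle E₁ Z) {B : LineBundle E₂ F} (Λ : Linearization A B) :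
    LineBundle (E₁ × E₂) X where
  ι := M.ι × h.P × B.ι
  U := fun i => {x | π x ∈ M.U i.1 ∧ π x ∈ h.W i.2.1 ∧ h.τ i.2.1 x ∈ B.U i.2.2}
  g := fun i j x => M.g i.1 j.1 (π x) *
    Λ.lam i.2.2 j.2.2 (h.γ i.2.1 j.2.1 (π x)) (h.τ j.2.1 x)
  isOpen := by
    rintro ⟨i, p, u⟩
    rw [isOpen_iff_mem_nhds]
    rintro x ⟨h1, h2, h3⟩
    filter_upwards [((M.isOpen i).preimage h.cont).mem_nhds h1,
      ((h.isOpen p).preimage h.cont).mem_nhds h2,
      (h.tau_contMDiffAt p x h2).continuousAt.preimage_mem_nhds ((B.isOpen u).mem_nhds h3)]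
      with x' h1' h2' h3'
    exact ⟨h1', h2', h3'⟩
  cover := by
    intro x
    obtain ⟨i, hi⟩ := M.cover (π x)
    obtain ⟨p, hp⟩ := h.cover (π x)
    obtain ⟨u, hu⟩ := B.cover (h.τ p x)
    exact ⟨(i, p, u), hi, hp, hu⟩
  hol := by
    rintro ⟨i, p, u⟩ ⟨j, q, v⟩ x hx hx'
    have h1 : HolAt (E₁ × E₂) (fun x => M.g i j (π x)) x :=
      (M.hol i j (π x) hx.1 hx'.1).comp x (h.pi_contMDiffAt x)
    have h2 : ContMDiffAt 𝓘(ℂ, E₁ × E₂) 𝓘(ℂ, Fin n → ℂ) ω (fun x => h.γ p q (π x)) x :=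
      (h.gam_contMDiffAt p q (π x) hx.2.1 hx'.2.1).comp x (h.pi_contMDiffAt x)
    have h3 := h.tau_contMDiffAt q x hx'.2.1
    have h4 := Λ.hol u v (h.γ p q (π x)) (h.τ q x) (h.γ_inT p q (π x) hx.2.1 hx'.2.1) hx'.2.2
      (by rw [← h.τ_trans p q x hx.2.1 hx'.2.1]; exact hx.2.2)
    have h5 : HolAt (E₁ × E₂) (fun x => Λ.lam u v (h.γ p q (π x)) (h.τ q x)) x :=
      ContMDiffAt.comp (g := fun v' : (Fin n → ℂ) × F => Λ.lam u v v'.1 v'.2)
        (f := fun x => (h.γ p q (π x), h.τ q x)) x h4 (h2.prodMk h3)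
    exact h1.mul h5
  one := by
    rintro ⟨i, p, u⟩ x hx
    simp only [M.one i _ hx.1, h.γ_one p _ hx.2.1, Λ.one u u _ hx.2.2 hx.2.2,
      B.one u _ hx.2.2, mul_one]
  mul := by
    rintro ⟨i, p, u⟩ ⟨j, q, v⟩ ⟨l, t, w⟩ x hx hx' hx''
    simp only
    have h1 := h.τ_trans q t x hx'.2.1 hx''.2.1
    have h2 := h.γ_mul p q t (π x) hx.2.1 hx'.2.1 hx''.2.1
    have h3 := Λ.mul u v w (h.γ p q (π x)) (h.γ q t (π x)) (h.τ t x)
      (h.γ_inT p q _ hx.2.1 hx'.2.1) (h.γ_inT q t _ hx'.2.1 hx''.2.1) hx''.2.2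
      (by rw [← h1]; exact hx'.2.2)
      (by rw [h2, ← h.τ_trans p t x hx.2.1 hx''.2.1]; exact hx.2.2)
    rw [h2] at h3
    rw [← M.mul i j l (π x) hx.1 hx'.1 hx''.1, ← h3, h1]
    ring

/-- The line bundle `M ⊗ L_χ` on `Z`, where `L_χ` is the line bundle with the transition functions
`χ (γ p q)`: the restriction of `twist M Λ` to the section of `X → Z` given by a fixed point of the
action on `F` at which `B` has the weight `χ`. -/
noncomputable def wt (M : LineBundle E₁ Z) (χ : Fin n → ℤ) : LineBundle E₁ Z where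
  ι := M.ι × h.P
  U := fun i => M.U i.1 ∩ h.W i.2
  g := fun i j z => M.g i.1 j.1 z * chr χ (h.γ i.2 j.2 z)
  isOpen := fun i => (M.isOpen i.1).inter (h.isOpen i.2)
  cover := by
    intro z
    obtain ⟨i, hi⟩ := M.cover z
    obtain ⟨p, hp⟩ := h.cover z
    exact ⟨(i, p), hi, hp⟩
  hol := by
    rintro ⟨i, p⟩ ⟨j, q⟩ z hz hz'
    have h1 : HolAt E₁ (M.g i j) z := M.hol i j z hz.1 hz'.1
    have h2 : HolAt E₁ (fun z => chr χ (h.γ p q z)) z :=
      ContMDiffAt.comp (g := chr χ) (f := h.γ p q) z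
        (chr_contDiffAt χ (h.γ_inT p q z hz.2 hz'.2)).contMDiffAt
        (h.gam_contMDiffAt p q z hz.2 hz'.2)
    exact h1.mul h2
  one := by
    rintro ⟨i, p⟩ z hz
    simp only [M.one i _ hz.1, h.γ_one p _ hz.2, chr, Pi.one_apply, one_zpow,
      Finset.prod_const_one, mul_one]
  mul := by
    rintro ⟨i, p⟩ ⟨j, q⟩ ⟨l, t⟩ z hz hz' hz''
    simp only
    rw [← M.mul i j l z hz.1 hz'.1 hz''.1, ← h.γ_mul p q t z hz.2 hz'.2 hz''.2]
    rw [chr_mul]
    ring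

end TorusBundle

end Pool.Agent.Abd
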