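import Pool.Agent.H.MP_e23cd6_ag.TB.Restr

/-! Torus bundles: the inclusion of the fibre over `z`, and the section of `π` given by a fixed
point. -/

set_option autoImplicit false

open scoped Manifold ContDiff Topology ENNReal
open MeasureTheory Set Filter

namespace Pool.Agent.Abd

theorem inT_one {n : ℕ} : InT (1 : Fin n → ℂ) := fun _ => one_ne_zero

theorem inT_mul {n : ℕ} {a b : Fin n → ℂ} (ha : InT a) (hb : InT b) : InT (a * b) :=
  fun c => mul_ne_zero (ha c) (hb c)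

theorem inT_inv {n : ℕ} {a : Fin n → ℂ} (ha : InT a) : InT a⁻¹ := fun c => inv_ne_zero (ha c)

theorem inT_mul_inv {n : ℕ} {a : Fin n → ℂ} (ha : InT a) : a * a⁻¹ = 1 := by
  funext c
  exact mul_inv_cancel₀ (ha c)

theorem chr_ne_zero {n : ℕ} (χ : Fin n → ℤ) {a : Fin n → ℂ} (ha : InT a) : chr χ a ≠ 0 :=
  Finset.prod_ne_zero_iff.2 (fun c _ => zpow_ne_zero _ (ha c))

namespace TorusBundle

variable {E₁ E₂ : Type} [NormedAddCommGroup E₁] [NormedSpace ℂ E₁]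
  [NormedAddCommGroup E₂] [NormedSpace ℂ E₂] {n : ℕ} {F : Type} [TopologicalSpace F]
  [ChartedSpace E₂ F] {A : TorusAction E₂ n F} {X Z : Type} [TopologicalSpace X]
  [TopologicalSpace Z] [ChartedSpace (E₁ × E₂) X] [ChartedSpace E₁ Z] {π : X → Z}
  (h : TorusBundle E₁ A π)
  [IsManifold 𝓘(ℂ, E₁) ω Z] [IsManifold 𝓘(ℂ, E₂) ω F] [IsManifold 𝓘(ℂ, E₁ × E₂) ω X]

omit [IsManifold 𝓘(ℂ, E₁ × E₂) ω X] in
theorem exists_incl (p : h.P) {z : Z} (hz : z ∈ h.W p) (y : F) : ∃ x, π x = z ∧ h.τ p x = y := by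
  have hφ := IsManifold.chart_mem_maximalAtlas (I := 𝓘(ℂ, E₁)) (n := ω) z
  have hψ := IsManifold.chart_mem_maximalAtlas (I := 𝓘(ℂ, E₂)) (n := ω) y
  exact ⟨h.pt p _ hφ _ hψ z y,
    h.pi_pt hφ hψ p hz (mem_chart_source E₁ z) (mem_chart_source E₂ y),
    h.tau_pt hφ hψ p hz (mem_chart_source E₁ z) (mem_chart_source E₂ y)⟩

/-- The inclusion of the fibre over `z`. -/
noncomputable def incl (p : h.P) {z : Z} (hz : z ∈ h.W p) (y : F) : X :=
  (h.exists_incl p hz y).choose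

omit [IsManifold 𝓘(ℂ, E₁ × E₂) ω X] in
theorem pi_incl (p : h.P) {z : Z} (hz : z ∈ h.W p) (y : F) : π (h.incl p hz y) = z :=
  (h.exists_incl p hz y).choose_spec.1

omit [IsManifold 𝓘(ℂ, E₁ × E₂) ω X] in
theorem tau_incl (p : h.P) {z : Z} (hz : z ∈ h.W p) (y : F) : h.τ p (h.incl p hz y) = y :=
  (h.exists_incl p hz y).choose_spec.2

theorem incl_contMDiff (p : h.P) {z : Z} (hz : z ∈ h.W p) :
    ContMDiff 𝓘(ℂ, E₂) 𝓘(ℂ, E₁ × E₂) ω (h.incl p hz) := by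
  intro y
  have hφ := IsManifold.chart_mem_maximalAtlas (I := 𝓘(ℂ, E₁)) (n := ω) z
  have hψ := IsManifold.chart_mem_maximalAtlas (I := 𝓘(ℂ, E₂)) (n := ω) y
  have h1 := h.pt_contMDiffAt hφ hψ p hz (mem_chart_source E₁ z) (mem_chart_source E₂ y)
  have h2 : ContMDiffAt 𝓘(ℂ, E₂) (𝓘(ℂ, E₁).prod 𝓘(ℂ, E₂)) ω (fun y' : F => (z, y')) y :=
    contMDiffAt_const.prodMk contMDiffAt_id
  have h3 := ContMDiffAt.comp y h1 h2
  refine h3.congr_of_eventuallyEq ?_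
  filter_upwards [(chartAt E₂ y).open_source.mem_nhds (mem_chart_source E₂ y)] with y' hy'
  exact h.eq_pt hφ hψ p hz (mem_chart_source E₁ z) hy' (h.pi_incl p hz y') (h.tau_incl p hz y')

variable {M : LineBundle E₁ Z} {B : LineBundle E₂ F} (Λ : Linearization A B)

/-- The restriction of `twist M Λ` to the fibres is `B`. -/
noncomputable def inclRestr (p : h.P) {z : Z} (hz : z ∈ h.W p) {i : M.ι} (hi : z ∈ M.U i) :
    Restr (h.incl p hz) B (h.twist M Λ) where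
  r := fun u => (i, p, u)
  mem := by
    intro u y hy
    refine ⟨?_, ?_, ?_⟩
    · show π (h.incl p hz y) ∈ M.U i
      rw [h.pi_incl]
      exact hi
    · show π (h.incl p hz y) ∈ h.W p
      rw [h.pi_incl]
      exact hz
    · show h.τ p (h.incl p hz y) ∈ B.U u
      rw [h.tau_incl]
      exact hy
  g := by
    intro u v y hu hv
    show B.g u v y = M.g i i (π (h.incl p hz y)) *
      Λ.lam u v (h.γ p p (π (h.incl p hz y))) (h.τ p (h.incl p hz y))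
    rw [h.pi_incl, h.tau_incl, M.one i z hi, h.γ_one p z hz, Λ.one u v y hu hv, one_mul]

omit [IsManifold 𝓘(ℂ, E₁ × E₂) ω X] in
theorem exists_sect {y : F} (hy : A.Fixed y) (z : Z) :
    ∃ x, π x = z ∧ ∀ p, z ∈ h.W p → h.τ p x = y := by
  obtain ⟨p, hp⟩ := h.cover z
  obtain ⟨x, h1, h2⟩ := h.exists_incl p hp y
  refine ⟨x, h1, fun q hq => ?_⟩
  rw [h.τ_trans q p x (by rw [h1]; exact hq) (by rw [h1]; exact hp), h2, h1]
  exact hy _ (h.γ_inT q p z hq hp)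

/-- The section of `π` given by the fixed point `y`. -/
noncomputable def sect {y : F} (hy : A.Fixed y) (z : Z) : X := (h.exists_sect hy z).choose

omit [IsManifold 𝓘(ℂ, E₁ × E₂) ω X] in
theorem pi_sect {y : F} (hy : A.Fixed y) (z : Z) : π (h.sect hy z) = z :=
  (h.exists_sect hy z).choose_spec.1

omit [IsManifold 𝓘(ℂ, E₁ × E₂) ω X] in
theorem tau_sect {y : F} (hy : A.Fixed y) {z : Z} {p : h.P} (hz : z ∈ h.W p) :
    h.τ p (h.sect hy z) = y :=
  (h.exists_sect hy z).choose_spec.2 p hz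

theorem sect_contMDiff {y : F} (hy : A.Fixed y) :
    ContMDiff 𝓘(ℂ, E₁) 𝓘(ℂ, E₁ × E₂) ω (h.sect hy) := by
  intro z
  obtain ⟨p, hp⟩ := h.cover z
  have hφ := IsManifold.chart_mem_maximalAtlas (I := 𝓘(ℂ, E₁)) (n := ω) z
  have hψ := IsManifold.chart_mem_maximalAtlas (I := 𝓘(ℂ, E₂)) (n := ω) y
  have h1 := h.pt_contMDiffAt hφ hψ p hp (mem_chart_source E₁ z) (mem_chart_source E₂ y)
  have h2 : ContMDiffAt 𝓘(ℂ, E₁) (𝓘(ℂ, E₁).prod 𝓘(ℂ, E₂)) ω (fun z' : Z => (z', y)) z :=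
    contMDiffAt_id.prodMk contMDiffAt_const
  have h3 := ContMDiffAt.comp z h1 h2
  refine h3.congr_of_eventuallyEq ?_
  filter_upwards [(chartAt E₁ z).open_source.mem_nhds (mem_chart_source E₁ z),
    (h.isOpen p).mem_nhds hp] with z' hz' hp'
  exact h.eq_pt hφ hψ p hp' hz' (mem_chart_source E₂ y) (h.pi_sect hy z') (h.tau_sect hy hp')

/-- The restriction of `twist M Λ` to the section given by a fixed point of weight `χ`. -/
theorem sectRestr {y : F} (hy : A.Fixed y) {χ : Fin n → ℤ} (hχ : Λ.HasWeight y χ) :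
    Nonempty (Restr (h.sect hy) (h.wt M χ) (h.twist M Λ)) := by
  obtain ⟨u, hu⟩ := B.cover y
  refine ⟨⟨fun i => (i.1, i.2, u), ?_, ?_⟩⟩
  · rintro ⟨i, p⟩ z ⟨hz, hz'⟩
    refine ⟨?_, ?_, ?_⟩
    · show π (h.sect hy z) ∈ M.U i
      rw [h.pi_sect]
      exact hz
    · show π (h.sect hy z) ∈ h.W p
      rw [h.pi_sect]
      exact hz'
    · show h.τ p (h.sect hy z) ∈ B.U u
      rw [h.tau_sect hy hz']
      exact hu
  · rintro ⟨i, p⟩ ⟨j, q⟩ z ⟨hz1, hz2⟩ ⟨hz3, hz4⟩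
    show M.g i j z * chr χ (h.γ p q z) = M.g i j (π (h.sect hy z)) *
      Λ.lam u u (h.γ p q (π (h.sect hy z))) (h.τ q (h.sect hy z))
    rw [h.pi_sect, h.tau_sect hy hz4, hχ u hu _ (h.γ_inT p q z hz2 hz4)]

/-- Nefness of `twist M Λ` gives nefness on the fibre. -/
theorem nef_fibre [Nonempty Z] (hN : (h.twist M Λ).Nef) : B.Nef := by
  obtain ⟨z⟩ := ‹Nonempty Z›
  obtain ⟨p, hp⟩ := h.cover z
  obtain ⟨i, hi⟩ := M.cover z
  exact (h.inclRestr Λ p hp hi).nef (h.incl_contMDiff p hp) hN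

theorem semiample_fibre [Nonempty Z] (hN : (h.twist M Λ).Semiample) : B.Semiample := by
  obtain ⟨z⟩ := ‹Nonempty Z›
  obtain ⟨p, hp⟩ := h.cover z
  obtain ⟨i, hi⟩ := M.cover z
  exact (h.inclRestr Λ p hp hi).semiample (h.incl_contMDiff p hp) hN

theorem nef_sect {y : F} (hy : A.Fixed y) {χ : Fin n → ℤ} (hχ : Λ.HasWeight y χ)
    (hN : (h.twist M Λ).Nef) : (h.wt M χ).Nef := by
  obtain ⟨r⟩ := h.sectRestr (M := M) Λ hy hχ
  exact r.nef (h.sect_contMDiff hy) hN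

theorem semiample_sect {y : F} (hy : A.Fixed y) {χ : Fin n → ℤ} (hχ : Λ.HasWeight y χ)
    (hN : (h.twist M Λ).Semiample) : (h.wt M χ).Semiample := by
  obtain ⟨r⟩ := h.sectRestr (M := M) Λ hy hχ
  exact r.semiample (h.sect_contMDiff hy) hN

end TorusBundle

end Pool.Agent.Abd
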