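import Pool.Agent.H.MP_e23cd6_ag.TB.Incl
import Pool.Agent.H.MP_e23cd6_ag.KltChart

/-! The Jacobian of the charts `κ p φ ψ` and `κ q φ' ψ'`. -/

set_option autoImplicit false

open scoped Manifold ContDiff Topology ENNReal
open MeasureTheory Set Filter

namespace Pool.Agent.Abd

/-- The determinant of a block triangular map of `E₁ × E₂`. -/
theorem jac3_det {E₁ E₂ : Type} [AddCommGroup E₁] [Module ℂ E₁] [FiniteDimensional ℂ E₁]
    [AddCommGroup E₂] [Module ℂ E₂] [FiniteDimensional ℂ E₂]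
    (A : E₁ →ₗ[ℂ] E₁) (K : E₁ →ₗ[ℂ] E₂) (B : E₂ →ₗ[ℂ] E₂) (T : E₁ × E₂ →ₗ[ℂ] E₁ × E₂)
    (hT : ∀ v w, T (v, w) = (A v, K v + B w)) :
    LinearMap.det T = LinearMap.det A * LinearMap.det B := by
  classical
  let b1 := Module.finBasis ℂ E₁
  let b2 := Module.finBasis ℂ E₂
  have hM : LinearMap.toMatrix (b1.prod b2) (b1.prod b2) T =
      Matrix.fromBlocks (LinearMap.toMatrix b1 b1 A) 0 (LinearMap.toMatrix b1 b2 K)
        (LinearMap.toMatrix b2 b2 B) := by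
    ext i j
    rcases i with i | i <;> rcases j with j | j
    · simp [LinearMap.toMatrix_apply, hT]
    · simp [LinearMap.toMatrix_apply, hT]
    · simp [LinearMap.toMatrix_apply, hT]
    · simp [LinearMap.toMatrix_apply, hT]
  rw [← LinearMap.det_toMatrix (b1.prod b2), hM, Matrix.det_fromBlocks_zero₁₂,
    LinearMap.det_toMatrix, LinearMap.det_toMatrix]

/-- The determinant of the derivative of a block triangular map. -/
theorem jac3_fderiv {E₁ E₂ : Type} [NormedAddCommGroup E₁] [NormedSpace ℂ E₁]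
    [FiniteDimensional ℂ E₁] [NormedAddCommGroup E₂] [NormedSpace ℂ E₂] [FiniteDimensional ℂ E₂]
    {G : E₁ × E₂ → E₁ × E₂} {f : E₁ → E₁} {g : E₂ → E₂} {v : E₁} {w : E₂}
    (hG : DifferentiableAt ℂ G (v, w)) (h1 : ∀ᶠ u in 𝓝 (v, w), (G u).1 = f u.1)
    (hf : DifferentiableAt ℂ f v)
    (h2 : ∀ᶠ w' in 𝓝 w, (G (v, w')).2 = g w') :
    (fderiv ℂ G (v, w)).det = (fderiv ℂ f v).det * (fderiv ℂ g w).det := by
  have e1 : ∀ u : E₁ × E₂, (fderiv ℂ G (v, w) u).1 = fderiv ℂ f v u.1 := by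
    have h3 : HasFDerivAt (fun u : E₁ × E₂ => (G u).1)
        ((ContinuousLinearMap.fst ℂ E₁ E₂).comp (fderiv ℂ G (v, w))) (v, w) :=
      HasFDerivAt.comp (v, w) hasFDerivAt_fst hG.hasFDerivAt
    have h4 : HasFDerivAt (fun u : E₁ × E₂ => f u.1)
        ((fderiv ℂ f v).comp (ContinuousLinearMap.fst ℂ E₁ E₂)) (v, w) :=
      HasFDerivAt.comp (f := fun u : E₁ × E₂ => u.1) (v, w) hf.hasFDerivAt hasFDerivAt_fst
    have h5 := h3.unique (h4.congr_of_eventuallyEq h1)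
    intro u
    exact DFunLike.congr_fun h5 u
  have e2 : ∀ w' : E₂, (fderiv ℂ G (v, w) (0, w')).2 = fderiv ℂ g w w' := by
    have h3 : HasFDerivAt (fun w' : E₂ => G (v, w'))
        ((fderiv ℂ G (v, w)).comp (ContinuousLinearMap.inr ℂ E₁ E₂)) w :=
      HasFDerivAt.comp (f := fun w' : E₂ => (v, w')) w hG.hasFDerivAt (hasFDerivAt_prodMk_right v w)
    have h4 : HasFDerivAt (fun w' : E₂ => (G (v, w')).2)
        ((ContinuousLinearMap.snd ℂ E₁ E₂).comp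
          ((fderiv ℂ G (v, w)).comp (ContinuousLinearMap.inr ℂ E₁ E₂))) w :=
      HasFDerivAt.comp w hasFDerivAt_snd h3
    have h5 := (h4.congr_of_eventuallyEq (h2.mono fun _ h => h.symm)).fderiv
    intro w'
    rw [h5]
    rfl
  have key := jac3_det (fderiv ℂ f v : E₁ →ₗ[ℂ] E₁)
    (((ContinuousLinearMap.snd ℂ E₁ E₂).comp ((fderiv ℂ G (v, w)).comp
      (ContinuousLinearMap.inl ℂ E₁ E₂)) : E₁ →L[ℂ] E₂) : E₁ →ₗ[ℂ] E₂)
    (fderiv ℂ g w : E₂ →ₗ[ℂ] E₂) (fderiv ℂ G (v, w) : E₁ × E₂ →ₗ[ℂ] E₁ × E₂) ?_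
  · exact key
  · intro v' w'
    refine Prod.ext ?_ ?_
    · exact e1 (v', w')
    · have h6 : ((v', w') : E₁ × E₂) = (v', 0) + (0, w') := by simp
      show (fderiv ℂ G (v, w) (v', w')).2 = (fderiv ℂ G (v, w) (v', 0)).2 + fderiv ℂ g w w'
      rw [h6, map_add, Prod.snd_add, e2 w']

namespace TorusBundle

variable {E₁ E₂ : Type} [NormedAddCommGroup E₁] [NormedSpace ℂ E₁] [FiniteDimensional ℂ E₁]
  [NormedAddCommGroup E₂] [NormedSpace ℂ E₂] [FiniteDimensional ℂ E₂] {n : ℕ} {F : Type}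
  [TopologicalSpace F] [ChartedSpace E₂ F] {A : TorusAction E₂ n F} {X Z : Type}
  [TopologicalSpace X] [TopologicalSpace Z] [ChartedSpace (E₁ × E₂) X] [ChartedSpace E₁ Z]
  {π : X → Z} (h : TorusBundle E₁ A π)
  [IsManifold 𝓘(ℂ, E₁) ω Z] [IsManifold 𝓘(ℂ, E₂) ω F] [IsManifold 𝓘(ℂ, E₁ × E₂) ω X]

theorem jac_κ (p q : h.P) {φ φ' : OpenPartialHomeomorph Z E₁} (hφ : φ ∈ Charts E₁ Z)
    (hφ' : φ' ∈ Charts E₁ Z) {ψ ψ' : OpenPartialHomeomorph F E₂} (hψ : ψ ∈ Charts E₂ F)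
    (hψ' : ψ' ∈ Charts E₂ F) {x : X} (hp : π x ∈ h.W p) (hq : π x ∈ h.W q)
    (hx : π x ∈ φ.source) (hx' : π x ∈ φ'.source) (hy : h.τ p x ∈ ψ.source)
    (hy' : h.τ q x ∈ ψ'.source) :
    jac (h.κ p φ hφ ψ hψ) (h.κ q φ' hφ' ψ' hψ') x =
      jac φ φ' (π x) * A.jac ψ ψ' (h.γ p q (π x)) (h.τ q x) := by
  have hs : x ∈ (h.κ p φ hφ ψ hψ).source := (h.mem_κ_source hφ hψ p x).2 ⟨hp, hx, hy⟩
  have hs' : x ∈ (h.κ q φ' hφ' ψ' hψ').source := (h.mem_κ_source hφ' hψ' q x).2 ⟨hq, hx', hy'⟩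
  have hκ := h.κ_apply hφ' hψ' q hs'
  have hG := (kltchart_contDiffAt (h.κ_mem hφ hψ p) (h.κ_mem hφ' hψ' q) hs hs').differentiableAt
    (by simp)
  have hf := (kltchart_contDiffAt hφ hφ' hx hx').differentiableAt (by simp)
  unfold jac TorusAction.jac
  rw [hκ] at hG ⊢
  have hsx : (h.κ q φ' hφ' ψ' hψ').symm (φ' (π x), ψ' (h.τ q x)) = x := by
    rw [← hκ]
    exact (h.κ q φ' hφ' ψ' hψ').left_inv hs'
  have hct : ContinuousAt (h.κ q φ' hφ' ψ' hψ').symm (φ' (π x), ψ' (h.τ q x)) := by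
    rw [← hκ]
    exact (h.κ q φ' hφ' ψ' hψ').continuousAt_symm ((h.κ q φ' hφ' ψ' hψ').map_source hs')
  have ht : ∀ᶠ u in 𝓝 (φ' (π x), ψ' (h.τ q x)), (h.κ q φ' hφ' ψ' hψ').symm u ∈
      (h.κ p φ hφ ψ hψ).source := by
    apply hct.eventually
    rw [hsx]
    exact (h.κ p φ hφ ψ hψ).open_source.mem_nhds hs
  have ht' : ∀ᶠ u in 𝓝 (φ' (π x), ψ' (h.τ q x)), u ∈ (h.κ q φ' hφ' ψ' hψ').target := by
    apply (h.κ q φ' hφ' ψ' hψ').open_target.mem_nhds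
    rw [← hκ]
    exact (h.κ q φ' hφ' ψ' hψ').map_source hs'
  refine jac3_fderiv hG ?_ hf ?_
  · filter_upwards [ht, ht'] with u h1 h2
    have h3 := (h.κ q φ' hφ' ψ' hψ').right_inv h2
    have h4 := (h.κ q φ' hφ' ψ' hψ').map_target h2
    have h5 := h.κ_apply hφ' hψ' q h4
    have h6 : u.1 = φ' (π ((h.κ q φ' hφ' ψ' hψ').symm u)) := by
      rw [h3] at h5
      exact congrArg Prod.fst h5
    simp only [Function.comp]
    rw [h.κ_apply hφ hψ p h1, h6, φ'.left_inv ((h.mem_κ_source hφ' hψ' q _).1 h4).2.1]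
  · have hc : Filter.Tendsto (fun w' : E₂ => (φ' (π x), w')) (𝓝 (ψ' (h.τ q x)))
        (𝓝 (φ' (π x), ψ' (h.τ q x))) := by
      apply Continuous.tendsto
      fun_prop
    filter_upwards [hc.eventually ht, hc.eventually ht'] with w' h1 h2
    have h3 := (h.κ q φ' hφ' ψ' hψ').right_inv h2
    have h4 := (h.κ q φ' hφ' ψ' hψ').map_target h2
    have h5 := h.κ_apply hφ' hψ' q h4
    rw [h3] at h5
    have h7 := (h.mem_κ_source hφ' hψ' q _).1 h4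
    have h8 := (h.mem_κ_source hφ hψ p _).1 h1
    have h6 : π ((h.κ q φ' hφ' ψ' hψ').symm (φ' (π x), w')) = π x :=
      (φ'.injOn hx' h7.2.1 (congrArg Prod.fst h5)).symm
    have h9 : w' = ψ' (h.τ q ((h.κ q φ' hφ' ψ' hψ').symm (φ' (π x), w'))) := congrArg Prod.snd h5
    have h10 : ψ'.symm w' = h.τ q ((h.κ q φ' hφ' ψ' hψ').symm (φ' (π x), w')) := by
      rw [h9, ψ'.left_inv, ← h9]
      exact h7.2.2
    simp only [Function.comp]
    rw [h.κ_apply hφ hψ p h1, h10, h.τ_trans p q _ h8.1 h7.1, h6]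

end TorusBundle

end Pool.Agent.Abd
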