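import Pool.Agent.H.MP_e23cd6_ag.TB.Slice
import Pool.Agent.H.MP_e23cd6_ag.KltLoc

/-! Torus bundles: the fibre integrals of a klt section are locally integrable on the base. -/

set_option autoImplicit false

open scoped Manifold ContDiff Topology ENNReal
open MeasureTheory Set Filter

namespace Pool.Agent.Abd

namespace TorusBundle

variable {E₁ E₂ : Type} [NormedAddCommGroup E₁] [NormedSpace ℂ E₁] [FiniteDimensional ℂ E₁]
  [MeasureSpace E₁] [BorelSpace E₁] [(volume : Measure E₁).IsAddHaarMeasure]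
  [NormedAddCommGroup E₂] [NormedSpace ℂ E₂] [FiniteDimensional ℂ E₂]
  [MeasureSpace E₂] [BorelSpace E₂] [(volume : Measure E₂).IsAddHaarMeasure]
  {n : ℕ} {F : Type}
  [TopologicalSpace F] [ChartedSpace E₂ F] {A : TorusAction E₂ n F} {X Z : Type}
  [TopologicalSpace X] [TopologicalSpace Z] [ChartedSpace (E₁ × E₂) X] [ChartedSpace E₁ Z]
  {π : X → Z} (h : TorusBundle E₁ A π)
  [IsManifold 𝓘(ℂ, E₁) ω Z] [IsManifold 𝓘(ℂ, E₂) ω F] [IsManifold 𝓘(ℂ, E₁ × E₂) ω X]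
  {M : LineBundle E₁ Z} {B : LineBundle E₂ F} {Λ : Linearization A B} {k m : ℕ}

/-- The local function of a section in the chart `κ p φ ψ`. -/
noncomputable def loc (s : Sec (h.twist M Λ) k m) (i : M.ι) (p : h.P) (u : B.ι)
    (φ : OpenPartialHomeomorph Z E₁) (hφ : φ ∈ Charts E₁ Z) (ψ : OpenPartialHomeomorph F E₂)
    (hψ : ψ ∈ Charts E₂ F) (v : E₁ × E₂) : ℂ :=
  s.f (i, p, u) (h.κ p φ hφ ψ hψ) ((h.κ p φ hφ ψ hψ).symm v)

omit [FiniteDimensional ℂ E₁] [MeasureSpace E₁] [BorelSpace E₁]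
  [(volume : Measure E₁).IsAddHaarMeasure] [FiniteDimensional ℂ E₂]
  [MeasureSpace E₂] [BorelSpace E₂] [(volume : Measure E₂).IsAddHaarMeasure] in
theorem loc_analyticAt (s : Sec (h.twist M Λ) k m) {i : M.ι} {p : h.P} {u : B.ι}
    {φ : OpenPartialHomeomorph Z E₁} (hφ : φ ∈ Charts E₁ Z) {ψ : OpenPartialHomeomorph F E₂}
    (hψ : ψ ∈ Charts E₂ F) {z : Z} (hi : z ∈ M.U i) (hp : z ∈ h.W p) (hz : z ∈ φ.source)
    {w : E₂} (hw : w ∈ ψ.target) (hu : ψ.symm w ∈ B.U u) :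
    ContDiffAt ℂ ω (h.loc s i p u φ hφ ψ hψ) (φ z, w) := by
  have hy : ψ.symm w ∈ ψ.source := ψ.map_target hw
  have e1 : (h.κ p φ hφ ψ hψ).symm (φ z, w) = h.pt p φ hφ ψ hψ z (ψ.symm w) := by
    unfold pt
    rw [ψ.right_inv hw]
  have h1 : HolAt (E₁ × E₂) (s.f (i, p, u) (h.κ p φ hφ ψ hψ))
      ((h.κ p φ hφ ψ hψ).symm (φ z, w)) := by
    rw [e1]
    exact s.hol (i, p, u) _ (h.κ_mem hφ hψ p) _ (h.pt_mem_twist hφ hψ hi hp hz hu hy)
      (h.pt_mem hφ hψ p hp hz hy)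
  have h2 : ContMDiffAt 𝓘(ℂ, E₁ × E₂) 𝓘(ℂ, E₁ × E₂) ω (h.κ p φ hφ ψ hψ).symm (φ z, w) :=
    contMDiffAt_symm_of_mem_maximalAtlas (h.κ_mem hφ hψ p) (h.mem_κ_target hφ hψ p hp hz hw)
  exact (ContMDiffAt.comp (φ z, w) h1 h2).contDiffAt

/-- The fibre integrals are locally integrable on the base. -/
theorem klt_slice (s : Sec (h.twist M Λ) k m) (hs : s.Klt) (C : FinCover B) {i : M.ι} {p : h.P}
    {φ : OpenPartialHomeomorph Z E₁} (hφ : φ ∈ Charts E₁ Z) {z : Z} (hi : z ∈ M.U i)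
    (hp : z ∈ h.W p) (hz : z ∈ φ.source) :
    ∃ N : Set E₁, IsOpen N ∧ φ z ∈ N ∧ N ⊆ φ '' (M.U i ∩ h.W p ∩ φ.source) ∧
      ∫⁻ v in N, C.int m (h.slice s i p φ (φ.symm v)).1 < ⊤ := by
  have : ProperSpace E₁ := FiniteDimensional.proper ℂ E₁
  have : ProperSpace E₂ := FiniteDimensional.proper ℂ E₂
  have hO : IsOpen (φ '' (M.U i ∩ h.W p ∩ φ.source)) :=
    φ.isOpen_image_of_subset_source (((M.isOpen i).inter (h.isOpen p)).inter φ.open_source)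
      inter_subset_right
  have hyO : φ z ∈ φ '' (M.U i ∩ h.W p ∩ φ.source) := ⟨z, ⟨⟨hi, hp⟩, hz⟩, rfl⟩
  have h1 : ∀ a : C.α, ∃ N : Set E₁, IsOpen N ∧ φ z ∈ N ∧
      ∫⁻ u in N ×ˢ C.K a,
        ‖h.loc s i p (C.i a) φ hφ (C.φ a) (C.mem a) u‖ₑ ^ (-(2 : ℝ) / m) < ⊤ := by
    intro a
    refine exists_tube volume (fun u => ‖h.loc s i p (C.i a) φ hφ (C.φ a) (C.mem a) u‖ₑ ^
      (-(2 : ℝ) / m)) (φ z) (C.compact a) ?_
    intro w hw
    have hwt := C.sub a hw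
    have hy : (C.φ a).symm w ∈ (C.φ a).source := (C.φ a).map_target hwt
    have h2 := hs (i, p, C.i a) _ (h.κ_mem hφ (C.mem a) p)
      (h.pt p φ hφ (C.φ a) (C.mem a) z ((C.φ a).symm w))
      (h.pt_mem_twist hφ (C.mem a) hi hp hz (C.subU a w hw) hy)
      (h.pt_mem hφ (C.mem a) p hp hz hy)
    rw [h.κ_pt hφ (C.mem a) p hp hz hy, (C.φ a).right_inv hwt] at h2
    exact h2
  choose N hN hyN hf using h1
  have h3 : ∀ a : C.α, AEMeasurable
      (fun u : E₁ × E₂ => ‖h.loc s i p (C.i a) φ hφ (C.φ a) (C.mem a) u‖ₑ ^ (-(2 : ℝ) / m))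
      ((volume.restrict (φ '' (M.U i ∩ h.W p ∩ φ.source))).prod
        (volume.restrict (C.K a))) := by
    intro a
    rw [Measure.prod_restrict]
    have hc : ContinuousOn (h.loc s i p (C.i a) φ hφ (C.φ a) (C.mem a))
        ((φ '' (M.U i ∩ h.W p ∩ φ.source)) ×ˢ C.K a) := by
      rintro ⟨v, w⟩ ⟨⟨z', hz', hv⟩, hw⟩
      have hv' : φ z' = v := hv
      subst hv'
      exact (h.loc_analyticAt s hφ (C.mem a) hz'.1.1 hz'.1.2 hz'.2 (C.sub a hw)
        (C.subU a w hw)).continuousAt.continuousWithinAt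
    exact (hc.aemeasurable (hO.measurableSet.prod
      (C.compact a).isClosed.measurableSet)).enorm.pow_const _
  have h4 : ∀ a : C.α, AEMeasurable
      (fun u : E₁ × E₂ => ‖h.loc s i p (C.i a) φ hφ (C.φ a) (C.mem a) u‖ₑ ^ (-(2 : ℝ) / m))
      ((volume.restrict (φ '' (M.U i ∩ h.W p ∩ φ.source) ∩ ⋂ a, N a)).prod
        (volume.restrict (C.K a))) := by
    intro a
    have h5 := h3 a
    rw [Measure.prod_restrict] at h5 ⊢
    exact h5.mono_measure (Measure.restrict_mono (prod_mono_left inter_subset_left) le_rfl)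
  have hNo : IsOpen (φ '' (M.U i ∩ h.W p ∩ φ.source) ∩ ⋂ a, N a) :=
    hO.inter (isOpen_iInter_of_finite hN)
  refine ⟨φ '' (M.U i ∩ h.W p ∩ φ.source) ∩ ⋂ a, N a, hNo,
    ⟨hyO, mem_iInter.2 hyN⟩, inter_subset_left, ?_⟩
  have h6 : ∀ v ∈ φ '' (M.U i ∩ h.W p ∩ φ.source) ∩ ⋂ a, N a,
      C.int m (h.slice s i p φ (φ.symm v)).1 = ∑ a, ∫⁻ w in C.K a,
        ‖h.loc s i p (C.i a) φ hφ (C.φ a) (C.mem a) (v, w)‖ₑ ^ (-(2 : ℝ) / m) := by
    rintro v ⟨⟨z', hz', hv⟩, _⟩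
    have hv' : φ z' = v := hv
    subst hv'
    unfold FinCover.int
    apply Finset.sum_congr rfl
    intro a _
    apply setLIntegral_congr_fun (C.compact a).isClosed.measurableSet
    intro w hw
    have hy : (C.φ a).symm w ∈ (C.φ a).source := (C.φ a).map_target (C.sub a hw)
    show ‖_‖ₑ ^ (-(2 : ℝ) / m) = ‖_‖ₑ ^ (-(2 : ℝ) / m)
    rw [φ.left_inv hz'.2, h.slice_apply s hφ hz'.1.1 hz'.1.2 hz'.2 (C.mem a) (C.subU a w hw) hy]
    unfold pt loc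
    rw [(C.φ a).right_inv (C.sub a hw)]
  rw [setLIntegral_congr_fun hNo.measurableSet h6,
    lintegral_finsetSum' _ (fun a _ => (h4 a).lintegral_prod_right')]
  refine ENNReal.sum_lt_top.2 (fun a _ => ?_)
  rw [← lintegral_prod _ (h4 a), Measure.prod_restrict]
  refine (lintegral_mono_set (prod_mono_left ?_)).trans_lt (hf a)
  exact inter_subset_right.trans (iInter_subset _ a)

/-- (1): the general fibre is klt. -/
theorem exists_fibre_klt [Nonempty Z] (C : FinCover B) (s : Sec (h.twist M Λ) k m) (hs : s.Klt) :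
    ∃ t : Sec B k m, t.Klt := by
  obtain ⟨z⟩ := ‹Nonempty Z›
  obtain ⟨p, hp⟩ := h.cover z
  obtain ⟨i, hi⟩ := M.cover z
  have hφ := IsManifold.chart_mem_maximalAtlas (I := 𝓘(ℂ, E₁)) (n := ω) z
  obtain ⟨N, hN, hzN, hNs, hf⟩ := h.klt_slice s hs C hφ hi hp (mem_chart_source E₁ z)
  have h1 : ∃ v ∈ N, C.int m (h.slice s i p (chartAt E₁ z) ((chartAt E₁ z).symm v)).1 < ⊤ := by
    by_contra hcon
    push Not at hcon
    have h2 : ∫⁻ v in N, (⊤ : ℝ≥0∞) ≤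
        ∫⁻ v in N, C.int m (h.slice s i p (chartAt E₁ z) ((chartAt E₁ z).symm v)).1 :=
      setLIntegral_mono' hN.measurableSet hcon
    have h3 : (volume N) ≠ 0 := (hN.measure_pos volume ⟨_, hzN⟩).ne'
    rw [setLIntegral_const, ENNReal.top_mul h3] at h2
    exact hf.ne (top_le_iff.1 h2)
  obtain ⟨v, hv, h2⟩ := h1
  obtain ⟨z', hz', hv'⟩ := hNs hv
  refine ⟨secMod.toSec (h.slice s i p (chartAt E₁ z) ((chartAt E₁ z).symm v)), ?_⟩
  apply klt_of_local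
  intro y
  obtain ⟨a, ha, ha'⟩ := C.cover y
  refine ⟨C.i a, C.φ a, C.mem a, ?_, ha, C.K a, mem_interior_iff_mem_nhds.1 ha', ?_⟩
  · have h3 := C.subU a _ (interior_subset ha')
    rwa [(C.φ a).left_inv ha] at h3
  · refine lt_of_le_of_lt ?_ h2
    unfold FinCover.int
    exact Finset.single_le_sum (f := fun a => ∫⁻ w in C.K a,
      ‖(h.slice s i p (chartAt E₁ z) ((chartAt E₁ z).symm v)).1 (C.i a) (C.φ a)
        ((C.φ a).symm w)‖ₑ ^ (-(2 : ℝ) / m)) (fun _ _ => bot_le) (Finset.mem_univ a)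

end TorusBundle

end Pool.Agent.Abd
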