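import Pool.Agent.H.MP_e23cd6_ag.TB.Defs2

/-! Torus bundles: the vector space of sections of `B ^ k ⊗ K ^ (-m)`, the torus action on it,
integrals over a compact manifold. -/

set_option autoImplicit false

open scoped Manifold ContDiff Topology ENNReal
open MeasureTheory Set Filter

namespace Pool.Agent.Abd

section secMod

variable {E : Type} [NormedAddCommGroup E] [NormedSpace ℂ E]
variable {M : Type} [TopologicalSpace M] [ChartedSpace E M]

/-- The vector space `H⁰(M, B ^ k ⊗ K ^ (-m))`: the families `f i φ` of `Sec B k m`, with the value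
`0` outside of `U i ∩ φ.source`. -/
def secMod (B : LineBundle E M) (k m : ℕ) :
    Submodule ℂ (B.ι → OpenPartialHomeomorph M E → M → ℂ) where
  carrier := {f | (∀ i φ x, f i φ x ≠ 0 → φ ∈ Charts E M ∧ x ∈ B.U i ∧ x ∈ φ.source) ∧
    (∀ i, ∀ φ ∈ Charts E M, ∀ x, x ∈ B.U i → x ∈ φ.source → HolAt E (f i φ) x) ∧
    (∀ i j, ∀ φ ∈ Charts E M, ∀ ψ ∈ Charts E M, ∀ x, x ∈ B.U i → x ∈ B.U j → x ∈ φ.source →
      x ∈ ψ.source → f i φ x = B.g i j x ^ k * jac φ ψ x ^ m * f j ψ x)}
  zero_mem' := by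
    refine ⟨fun i φ x h => absurd rfl h, fun i φ _ x _ _ => ?_, fun i j φ _ ψ _ x _ _ _ _ => ?_⟩
    · exact contMDiffAt_const
    · simp
  add_mem' := by
    rintro f f' ⟨h1, h2, h3⟩ ⟨h1', h2', h3'⟩
    refine ⟨fun i φ x h => ?_, fun i φ hφ x hx hx' => ?_, fun i j φ hφ ψ hψ x hi hj h4 h5 => ?_⟩
    · by_contra hcon
      apply h
      have e1 : f i φ x = 0 := by
        by_contra h0
        exact hcon (h1 i φ x h0)
      have e2 : f' i φ x = 0 := by
        by_contra h0
        exact hcon (h1' i φ x h0)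
      simp [e1, e2]
    · exact (h2 i φ hφ x hx hx').add (h2' i φ hφ x hx hx')
    · simp only [Pi.add_apply]
      rw [h3 i j φ hφ ψ hψ x hi hj h4 h5, h3' i j φ hφ ψ hψ x hi hj h4 h5]
      ring
  smul_mem' := by
    rintro c f ⟨h1, h2, h3⟩
    refine ⟨fun i φ x h => ?_, fun i φ hφ x hx hx' => ?_, fun i j φ hφ ψ hψ x hi hj h4 h5 => ?_⟩
    · apply h1 i φ x
      intro h0
      apply h
      simp [h0]
    · have h4 : HolAt E (fun _ : M => c) x := contMDiffAt_const
      exact h4.mul (h2 i φ hφ x hx hx')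
    · simp only [Pi.smul_apply, smul_eq_mul]
      rw [h3 i j φ hφ ψ hψ x hi hj h4 h5]
      ring

/-- The section given by an element of `secMod`. -/
def secMod.toSec {B : LineBundle E M} {k m : ℕ} (t : secMod B k m) : Sec B k m where
  f := t.1
  hol := t.2.2.1
  trans := t.2.2.2

open Classical in
/-- The element of `secMod` given by a section. -/
noncomputable def Sec.toMod {B : LineBundle E M} {k m : ℕ} (s : Sec B k m) : secMod B k m :=
  ⟨fun i φ x => if φ ∈ Charts E M ∧ x ∈ B.U i ∧ x ∈ φ.source then s.f i φ x else 0, by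
    refine ⟨fun i φ x h => ?_, fun i φ hφ x hx hx' => ?_, fun i j φ hφ ψ hψ x hi hj h4 h5 => ?_⟩
    · by_contra hcon
      exact h (if_neg hcon)
    · refine (s.hol i φ hφ x hx hx').congr_of_eventuallyEq ?_
      filter_upwards [(B.isOpen i).mem_nhds hx, φ.open_source.mem_nhds hx'] with x' h1 h2
      exact if_pos ⟨hφ, h1, h2⟩
    · simp only
      rw [if_pos ⟨hφ, hi, h4⟩, if_pos ⟨hψ, hj, h5⟩]
      exact s.trans i j φ hφ ψ hψ x hi hj h4 h5⟩

theorem Sec.toMod_apply {B : LineBundle E M} {k m : ℕ} (s : Sec B k m) {i : B.ι}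
    {φ : OpenPartialHomeomorph M E} (hφ : φ ∈ Charts E M) {x : M} (hi : x ∈ B.U i)
    (hx : x ∈ φ.source) : s.toMod.1 i φ x = s.f i φ x := if_pos ⟨hφ, hi, hx⟩

/-- A point with a frame of `B` and a chart. -/
structure Spot (B : LineBundle E M) where
  i : B.ι
  φ : OpenPartialHomeomorph M E
  x : M
  hφ : φ ∈ Charts E M
  hi : x ∈ B.U i
  hx : x ∈ φ.source

/-- The linear form `l` on `secMod B k m` is a linear combination of values at points. -/
def IsEval {B : LineBundle E M} {k m : ℕ} (l : secMod B k m →ₗ[ℂ] ℂ) : Prop :=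
  ∃ (S : Finset ℕ) (c : ℕ → ℂ) (v : ℕ → Spot B), ∀ t : secMod B k m,
    l t = ∑ a ∈ S, c a * t.1 (v a).i (v a).φ (v a).x

/-- A finite covering of the compact manifold `M` by the interiors of compact sets `K a` in
coordinate domains over which `B` has a frame. -/
structure FinCover (B : LineBundle E M) where
  α : Type
  fin : Fintype α
  i : α → B.ι
  φ : α → OpenPartialHomeomorph M E
  mem : ∀ a, φ a ∈ Charts E M
  K : α → Set E
  compact : ∀ a, IsCompact (K a)
  sub : ∀ a, K a ⊆ (φ a).target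
  subU : ∀ a, ∀ w ∈ K a, (φ a).symm w ∈ B.U (i a)
  cover : ∀ x : M, ∃ a, x ∈ (φ a).source ∧ φ a x ∈ interior (K a)

attribute [instance] FinCover.fin

/-- The integral of `|t| ^ (-2/m)` over `M`, for the family of functions `t`. -/
noncomputable def FinCover.int [MeasureSpace E] {B : LineBundle E M} (C : FinCover B) (m : ℕ)
    (t : B.ι → OpenPartialHomeomorph M E → M → ℂ) : ℝ≥0∞ :=
  ∑ a, ∫⁻ w in C.K a, ‖t (C.i a) (C.φ a) ((C.φ a).symm w)‖ₑ ^ (-(2 : ℝ) / m)

end secMod

section act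

variable {E : Type} [NormedAddCommGroup E] [NormedSpace ℂ E] {n : ℕ} {F : Type}
  [TopologicalSpace F] [ChartedSpace E F]

/-- The Jacobian determinant of the action of `a` in the charts `ψ` (near `y`) and `φ` (near `a y`). -/
noncomputable def TorusAction.jac (A : TorusAction E n F) (φ ψ : OpenPartialHomeomorph F E)
    (a : Fin n → ℂ) (y : F) : ℂ := (fderiv ℂ (φ ∘ A.act a ∘ ψ.symm) (ψ y)).det

variable {A : TorusAction E n F} {B : LineBundle E F}

/-- `t'` is the image of the section `t` under the torus element `a`. -/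
def Linearization.IsAct (Λ : Linearization A B) {k m : ℕ} (a : Fin n → ℂ)
    (t t' : secMod B k m) : Prop :=
  ∀ i j, ∀ φ ∈ Charts E F, ∀ ψ ∈ Charts E F, ∀ y, A.act a y ∈ B.U i → y ∈ B.U j →
    A.act a y ∈ φ.source → y ∈ ψ.source →
    t'.1 i φ (A.act a y) = Λ.lam i j a y ^ k * A.jac φ ψ a y ^ m * t.1 j ψ y

/-- `t` is a section of weight `χ`. -/
def Linearization.IsWt (Λ : Linearization A B) {k m : ℕ} (χ : Fin n → ℤ)
    (t : secMod B k m) : Prop := ∀ a, InT a → Λ.IsAct a t (chr χ a • t)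

end act

end Pool.Agent.Abd
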