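import Pool.Agent.H.MP_e23cd6_ag.KltChart
import Pool.Agent.H.MP_e23cd6_ag.TB.SecV

/-! Finite coverings of a compact manifold by balls. -/

set_option autoImplicit false

open scoped Manifold ContDiff Topology ENNReal
open MeasureTheory Set Filter

namespace Pool.Agent.Abd

variable {E : Type} [NormedAddCommGroup E] [NormedSpace ℂ E] [FiniteDimensional ℂ E]
  {F : Type} [TopologicalSpace F] [ChartedSpace E F] [IsManifold 𝓘(ℂ, E) ω F] [CompactSpace F]

/-- Finite coverings exist, also with a given spot (a frame, a chart and a point) as one of the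
members, and with a number `R a > 0` such that the closed ball with twice the radius is still in
the chart and over `U (i a)`.

Proof. For `x : F` choose `i` with `x ∈ B.U i` and `φ = chartAt E x`. The set
`O = φ.target ∩ φ.symm ⁻¹' (B.U i)` is open (`OpenPartialHomeomorph.isOpen_inter_preimage_symm`) and
contains `φ x`; take `R > 0` with `closedBall (φ x) (4 * R) ⊆ O`. The sets
`V x = φ.source ∩ φ ⁻¹' (ball (φ x) R)` are open and cover `F`; by compactness finitely many suffice
(`isCompact_univ.elim_nhds_subcover`). Balls in the finite dimensional space `E` are compact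
(`FiniteDimensional.proper ℂ E` gives `ProperSpace E`). -/
theorem exists_ballCover (B : LineBundle E F) :
    ∃ (α : Type) (_ : Fintype α) (i : α → B.ι) (φ : α → OpenPartialHomeomorph F E) (e : α → E)
      (R : α → ℝ), (∀ a, φ a ∈ Charts E F) ∧ (∀ a, 0 < R a) ∧
      (∀ a, Metric.closedBall (e a) (4 * R a) ⊆ (φ a).target ∩ (φ a).symm ⁻¹' (B.U (i a))) ∧
      ∀ x : F, ∃ a, x ∈ (φ a).source ∧ φ a x ∈ Metric.ball (e a) (R a) := by
  classical
  choose i hi using B.cover
  have h1 : ∀ x : F, ∃ R : ℝ, 0 < R ∧ Metric.closedBall (chartAt E x x) (4 * R) ⊆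
      (chartAt E x).target ∩ (chartAt E x).symm ⁻¹' (B.U (i x)) := by
    intro x
    have ho : IsOpen ((chartAt E x).target ∩ (chartAt E x).symm ⁻¹' (B.U (i x))) :=
      (chartAt E x).isOpen_inter_preimage_symm (B.isOpen (i x))
    have hx : chartAt E x x ∈ (chartAt E x).target ∩ (chartAt E x).symm ⁻¹' (B.U (i x)) := by
      refine ⟨mem_chart_target E x, ?_⟩
      rw [mem_preimage, (chartAt E x).left_inv (mem_chart_source E x)]
      exact hi x
    obtain ⟨ε, hε, h⟩ := Metric.nhds_basis_closedBall.mem_iff.1 (ho.mem_nhds hx)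
    refine ⟨ε / 4, by positivity, ?_⟩
    have h4 : 4 * (ε / 4) = ε := by ring
    rw [h4]
    exact h
  choose R hR hsub using h1
  obtain ⟨t, ht⟩ := (isCompact_univ (X := F)).elim_nhds_subcover
    (fun x => (chartAt E x).source ∩ (chartAt E x) ⁻¹' (Metric.ball (chartAt E x x) (R x)))
    (fun x _ => ((chartAt E x).isOpen_inter_preimage Metric.isOpen_ball).mem_nhds
      ⟨mem_chart_source E x, Metric.mem_ball_self (hR x)⟩)
  refine ⟨{x // x ∈ t}, inferInstance, fun a => i a.1, fun a => chartAt E a.1,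
    fun a => chartAt E a.1 a.1, fun a => R a.1, fun a => ?_, fun a => hR a.1,
    fun a => hsub a.1, fun x => ?_⟩
  · exact IsManifold.chart_mem_maximalAtlas (I := 𝓘(ℂ, E)) (n := ω) a.1
  · have hx := ht.2 (mem_univ x)
    rw [mem_iUnion₂] at hx
    obtain ⟨a, ha, h2⟩ := hx
    exact ⟨⟨a, ha⟩, h2.1, h2.2⟩

/-- Proof. `K a = closedBall (e a) (R a)` in `exists_ballCover`. -/
theorem exists_finCover (B : LineBundle E F) : Nonempty (FinCover B) := by
  haveI : ProperSpace E := FiniteDimensional.proper ℂ E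
  obtain ⟨α, hα, i, φ, e, R, h1, h2, h3, h4⟩ := exists_ballCover B
  have h5 : ∀ a, Metric.closedBall (e a) (R a) ⊆ (φ a).target ∩ (φ a).symm ⁻¹' (B.U (i a)) :=
    fun a => (Metric.closedBall_subset_closedBall (by linarith [h2 a])).trans (h3 a)
  exact ⟨{
    α := α
    fin := hα
    i := i
    φ := φ
    mem := h1
    K := fun a => Metric.closedBall (e a) (R a)
    compact := fun a => isCompact_closedBall _ _
    sub := fun a w hw => (h5 a hw).1
    subU := fun a w hw => (h5 a hw).2
    cover := fun x => by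
      obtain ⟨a, ha, ha'⟩ := h4 x
      exact ⟨a, ha, Metric.ball_subset_interior_closedBall ha'⟩ }⟩

/-- If a section has absolute value `≤ S` on the balls `ball (e a) (R a)` of the covering then it
has absolute value `≤ C * S` on the balls of radius `2 * R a`, with `C` independent of the section.

Proof. Let `y = (φ a).symm w`, `w ∈ closedBall (e a) (2 * R a)`. There is `b` with
`φ b y ∈ ball (e b) (R b)`, and `t (i a) (φ a) y = g ^ k * jac ^ m * t (i b) (φ b) y` with
`g = B.g (i a) (i b) y`, `jac = jac (φ a) (φ b) y`. The number `‖g ^ k * jac ^ m‖` is bounded for all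
such `w`: for fixed `a, b` the set
`Q = {w ∈ closedBall (e a) (2 * R a) | y ∈ (φ b).source ∧ φ b y ∈ closedBall (e b) (R b)}` is compact:
it is the intersection of the compact ball with the preimage of the set
`(φ b).symm '' closedBall (e b) (R b)` (compact, so closed as `F` is Hausdorff) under the map
`(φ a).symm`, continuous on the ball (`ContinuousOn.preimage_isClosed_of_isClosed`); and
`w ↦ g ^ k * jac ^ m` is continuous on `Q` (`B.hol`, `kltchart_jac_continuousAt`), so bounded there
(`IsCompact.exists_bound_of_continuousOn`). -/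
theorem sec_bound_double [T2Space F] (B : LineBundle E F) (k m : ℕ) {α : Type} [Fintype α]
    {i : α → B.ι} {φ : α → OpenPartialHomeomorph F E} {e : α → E} {R : α → ℝ}
    (hφ : ∀ a, φ a ∈ Charts E F) (hR : ∀ a, 0 < R a)
    (hsub : ∀ a, Metric.closedBall (e a) (4 * R a) ⊆ (φ a).target ∩ (φ a).symm ⁻¹' (B.U (i a)))
    (hcov : ∀ x : F, ∃ a, x ∈ (φ a).source ∧ φ a x ∈ Metric.ball (e a) (R a)) :
    ∃ C : ℝ, 0 < C ∧ ∀ (t : secMod B k m) (S : ℝ), 0 ≤ S →
      (∀ a, ∀ w ∈ Metric.ball (e a) (R a), ‖t.1 (i a) (φ a) ((φ a).symm w)‖ ≤ S) →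
      ∀ a, ∀ w ∈ Metric.closedBall (e a) (2 * R a), ‖t.1 (i a) (φ a) ((φ a).symm w)‖ ≤ C * S := by
  haveI : ProperSpace E := FiniteDimensional.proper ℂ E
  have h2 : ∀ a, Metric.closedBall (e a) (2 * R a) ⊆ (φ a).target ∩ (φ a).symm ⁻¹' (B.U (i a)) :=
    fun a => (Metric.closedBall_subset_closedBall (by linarith [hR a])).trans (hsub a)
  have h1 : ∀ a, Metric.closedBall (e a) (R a) ⊆ (φ a).target ∩ (φ a).symm ⁻¹' (B.U (i a)) :=
    fun a => (Metric.closedBall_subset_closedBall (by linarith [hR a])).trans (hsub a)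
  -- the transition factors are bounded
  have h3 : ∀ a b, ∃ C : ℝ, ∀ w ∈ Metric.closedBall (e a) (2 * R a),
      (φ a).symm w ∈ (φ b).symm '' Metric.closedBall (e b) (R b) →
      ‖B.g (i a) (i b) ((φ a).symm w) ^ k * jac (φ a) (φ b) ((φ a).symm w) ^ m‖ ≤ C := by
    intro a b
    have hc : IsCompact ((φ b).symm '' Metric.closedBall (e b) (R b)) :=
      (isCompact_closedBall _ _).image_of_continuousOn
        ((φ b).continuousOn_symm.mono fun w hw => (h1 b hw).1)
    have hQ : IsCompact (Metric.closedBall (e a) (2 * R a) ∩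
        (φ a).symm ⁻¹' ((φ b).symm '' Metric.closedBall (e b) (R b))) :=
      (isCompact_closedBall _ _).of_isClosed_subset
        (((φ a).continuousOn_symm.mono fun w hw => (h2 a hw).1).preimage_isClosed_of_isClosed
          Metric.isClosed_closedBall hc.isClosed) inter_subset_left
    have hf : ContinuousOn (fun w => B.g (i a) (i b) ((φ a).symm w) ^ k *
        jac (φ a) (φ b) ((φ a).symm w) ^ m) (Metric.closedBall (e a) (2 * R a) ∩
        (φ a).symm ⁻¹' ((φ b).symm '' Metric.closedBall (e b) (R b))) := by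
      rintro w ⟨hw, w', hw', hww⟩
      apply ContinuousAt.continuousWithinAt
      have hya : (φ a).symm w ∈ (φ a).source := (φ a).map_target (h2 a hw).1
      have hyb : (φ a).symm w ∈ (φ b).source := by
        rw [← hww]
        exact (φ b).map_target (h1 b hw').1
      have hUa : (φ a).symm w ∈ B.U (i a) := (h2 a hw).2
      have hUb : (φ a).symm w ∈ B.U (i b) := by
        rw [← hww]
        exact (h1 b hw').2
      have hs : ContinuousAt (φ a).symm w :=
        (φ a).continuousAt_symm (h2 a hw).1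
      have hg : ContinuousAt (B.g (i a) (i b)) ((φ a).symm w) :=
        (B.hol (i a) (i b) _ hUa hUb).continuousAt
      have hj : ContinuousAt (jac (φ a) (φ b)) ((φ a).symm w) :=
        kltchart_jac_continuousAt (hφ a) (hφ b) hya hyb
      exact ((ContinuousAt.comp (f := (φ a).symm) hg hs).pow k).mul
        ((ContinuousAt.comp (f := (φ a).symm) hj hs).pow m)
    obtain ⟨C, hC⟩ := hQ.exists_bound_of_continuousOn hf
    exact ⟨C, fun w hw hw' => hC w ⟨hw, hw'⟩⟩
  choose C hC using h3
  refine ⟨1 + ∑ a, ∑ b, |C a b|, by positivity, fun t S hS ht a w hw => ?_⟩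
  obtain ⟨b, hb, hb'⟩ := hcov ((φ a).symm w)
  have hbc : φ b ((φ a).symm w) ∈ Metric.closedBall (e b) (R b) := Metric.ball_subset_closedBall hb'
  have hbi : (φ b).symm (φ b ((φ a).symm w)) = (φ a).symm w := (φ b).left_inv hb
  have h4 := hC a b w hw ⟨_, hbc, hbi⟩
  have h5 := ht b _ hb'
  rw [hbi] at h5
  have hUb : (φ a).symm w ∈ B.U (i b) := by
    have h6 := (h1 b hbc).2
    rw [mem_preimage, hbi] at h6
    exact h6
  have h6 := t.2.2.2 (i a) (i b) (φ a) (hφ a) (φ b) (hφ b) ((φ a).symm w) (h2 a hw).2 hUb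
    ((φ a).map_target (h2 a hw).1) hb
  rw [h6, norm_mul]
  have h7 : |C a b| ≤ ∑ a, ∑ b, |C a b| :=
    (Finset.single_le_sum (f := fun b => |C a b|) (fun _ _ => abs_nonneg _)
      (Finset.mem_univ b)).trans
      (Finset.single_le_sum (f := fun a => ∑ b, |C a b|)
        (fun _ _ => Finset.sum_nonneg fun _ _ => abs_nonneg _) (Finset.mem_univ a))
  refine mul_le_mul (h4.trans ?_) h5 (norm_nonneg _) (by positivity)
  linarith [le_abs_self (C a b)]

end Pool.Agent.Abd
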