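import Pool.Agent.H.MP_e23cd6_ag.TB.PLim
import Pool.Agent.H.MP_e23cd6_ag.TB.PWt

/-! Weights at fixed points bound the weights of sections. -/

set_option autoImplicit false

open scoped Manifold ContDiff Topology ENNReal
open MeasureTheory Set Filter

namespace Pool.Agent.Abd

variable {E : Type} [NormedAddCommGroup E] [NormedSpace ℂ E] {n : ℕ}
  {F : Type} [TopologicalSpace F] [ChartedSpace E F] [IsManifold 𝓘(ℂ, E) ω F] [T2Space F]
  {A : TorusAction E n F} {B : LineBundle E F} (Λ : Linearization A B)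

theorem PFix_ops_single {n : ℕ} (c : Fin n) (z : ℂ) :
    ops (Pi.single c 1 : Fin n → ℤ) z = Function.update (1 : Fin n → ℂ) c z := by
  funext c'
  unfold ops
  rcases eq_or_ne c' c with rfl | h
  · rw [Pi.single_eq_same, Function.update_self, zpow_one]
  · rw [Pi.single_eq_of_ne h, Function.update_of_ne h, zpow_zero]
    rfl

omit [IsManifold 𝓘(ℂ, E) ω F] in
/-- Limits of points fixed by a torus element are fixed by it. -/
theorem PFix_lim {a : Fin n → ℂ} (ha : InT a) {y y' : F} (hy : A.act a y = y) {l : Fin n → ℤ}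
    (h : Tendsto (fun t : ℂ => A.act (ops l t) y) (𝓝[≠] 0) (𝓝 y')) : A.act a y' = y' := by
  have h1 : Tendsto (fun t : ℂ => A.act a (A.act (ops l t) y)) (𝓝[≠] 0) (𝓝 (A.act a y')) :=
    ((act_continuous A ha).tendsto y').comp h
  have h2 : Tendsto (fun t : ℂ => A.act a (A.act (ops l t) y)) (𝓝[≠] 0) (𝓝 y') := by
    refine h.congr' ?_
    filter_upwards [self_mem_nhdsWithin] with t ht
    have ht' : InT (ops l t) := ops_inT l ht
    rw [← A.mul _ _ ha ht', mul_comm, A.mul _ _ ht' ha, hy]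
  exact tendsto_nhds_unique h1 h2

omit [IsManifold 𝓘(ℂ, E) ω F] [T2Space F] in
/-- A point fixed by all coordinate subgroups is fixed by the torus. -/
theorem PFix_all {y : F} (h : ∀ c : Fin n, ∀ z : ℂ, z ≠ 0 → A.act (Function.update (1 : Fin n → ℂ) c z) y = y) :
    A.Fixed y := by
  intro a ha
  have key : ∀ s : Finset (Fin n), A.act (fun c => if c ∈ s then a c else 1) y = y := by
    intro s
    induction s using Finset.induction_on with
    | empty =>
      simp only [Finset.notMem_empty, if_false]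
      exact A.one y
    | insert c s hc ih =>
      have e : (fun c' => if c' ∈ insert c s then a c' else 1) =
          Function.update (1 : Fin n → ℂ) c (a c) * (fun c' => if c' ∈ s then a c' else 1) := by
        funext c'
        rcases eq_or_ne c' c with rfl | hne
        · simp [hc]
        · simp [hne]
      have h1 : InT (Function.update (1 : Fin n → ℂ) c (a c) : Fin n → ℂ) := by
        rw [← PFix_ops_single]
        exact ops_inT _ (ha c)
      have h2 : InT (fun c' => if c' ∈ s then a c' else 1) := by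
        intro c'
        show (if c' ∈ s then a c' else 1) ≠ 0
        split_ifs
        · exact ha c'
        · exact one_ne_zero
      rw [e, A.mul _ _ h1 h2, ih, h c (a c) (ha c)]
  have := key Finset.univ
  simpa using this

/-- The exponent is kept under limits. -/
theorem PFix_exp {l l' : Fin n → ℤ} {y y' : F} (h1 : ∀ s : ℂ, s ≠ 0 → A.act (ops l s) y = y) {e : ℤ}
    (he : ∀ j, y ∈ B.U j → ∀ s : ℂ, s ≠ 0 → Λ.lam j j (ops l s) y = s ^ e)
    (h : Tendsto (fun t : ℂ => A.act (ops l' t) y) (𝓝[≠] 0) (𝓝 y')) {j : B.ι} (hj : y' ∈ B.U j)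
    {s : ℂ} (hs : s ≠ 0) : Λ.lam j j (ops l s) y' = s ^ e := by
  have hT : InT (ops l s) := ops_inT l hs
  have hy' : A.act (ops l s) y' = y' := PFix_lim hT (h1 s hs) h
  have c1 : Tendsto (fun z : ℂ => Λ.lam j j (ops l s) (A.act (ops l' z) y)) (𝓝[≠] 0)
      (𝓝 (Λ.lam j j (ops l s) y')) :=
    (lam_continuousAt Λ hT hj (by rw [hy']; exact hj)).tendsto.comp h
  have c2 : Tendsto (fun z : ℂ => Λ.lam j j (ops l s) (A.act (ops l' z) y)) (𝓝[≠] 0)
      (𝓝 (s ^ e)) := by
    refine tendsto_const_nhds.congr' ?_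
    obtain ⟨i, hi⟩ := B.cover y
    filter_upwards [self_mem_nhdsWithin, h ((B.isOpen j).mem_nhds hj)] with z hz hzj
    have hT' : InT (ops l' z) := ops_inT l' hz
    have hx : A.act (ops l s) (A.act (ops l' z) y) = A.act (ops l' z) y := by
      rw [← A.mul _ _ hT hT', mul_comm, A.mul _ _ hT' hT, h1 s hs]
    have m1 := Λ.mul j j i (ops l s) (ops l' z) y hT hT' hi hzj
      (by rw [A.mul _ _ hT hT', hx]; exact hzj)
    have m2 := Λ.mul j i i (ops l' z) (ops l s) y hT' hT hi (by rw [h1 s hs]; exact hi)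
      (by rw [A.mul _ _ hT' hT, h1 s hs]; exact hzj)
    rw [h1 s hs, he i hi s hs, mul_comm (ops l' z), ← m1, mul_comm] at m2
    exact mul_right_cancel₀ (lam_ne_zero Λ hT' hi hzj) m2
  exact tendsto_nhds_unique c1 c2

/-- Degeneration to a fixed point of the whole torus, keeping the exponent of the subgroup `l`.

Proof. Claim for all finsets `S` of coordinates: there is `y` with (a) `λ(s) y = y` for all `s ≠ 0`, (b) `lam j j (λ s) y = s ^ e`
for all `j` with `y ∈ B.U j`, `s ≠ 0`, (c) `A.act (Function.update (1 : Fin n → ℂ) c z) y = y` for `c ∈ S`, `z ≠ 0`. Induction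
(`Finset.induction_on`), `S = ∅`: `y = y₁`. Step `insert c S`: `A.HasLimits` for `Pi.single c 1` gives
`y' = lim_{z → 0} A.act (Function.update (1 : Fin n → ℂ) c z) y` (`fun c' => z ^ (Pi.single c 1 : Fin n → ℤ) c' = Function.update (1 : Fin n → ℂ) c z`).
(a), (c): limits of points fixed by `a'` are fixed by `a'` (torus elements commute, continuity, Hausdorff), and `y'` is fixed by
the subgroup itself (`lim_fixed`). (b): for `z` near `0`, `x_z = A.act (update 1 c z) y ∈ B.U j`, and with `i` such that `y ∈ B.U i`: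
`lam j j (λ s) x_z * lam j i (update 1 c z) y = lam j i (λ s * update 1 c z) y = lam j i (update 1 c z) y * lam i i (λ s) y`
(`Λ.mul` twice; `λ(s)` fixes `x_z` and `y`), cancel (`lam_ne_zero`): `lam j j (λ s) x_z = s ^ e`; let `z → 0`
(`lam_continuousAt`). For `S = univ` the point is fixed by all `a` in the torus: `a` is the product of
`Function.update (1 : Fin n → ℂ) c (a c)` (induction over finsets as in `wt_monomial`). -/
theorem exists_fixed_exp (hA : A.HasLimits) {l : Fin n → ℤ} {y₁ : F}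
    (h1 : ∀ s : ℂ, s ≠ 0 → A.act (ops l s) y₁ = y₁) {e : ℤ}
    (he : ∀ j, y₁ ∈ B.U j → ∀ s : ℂ, s ≠ 0 → Λ.lam j j (ops l s) y₁ = s ^ e) :
    ∃ y, A.Fixed y ∧ ∀ j, y ∈ B.U j → ∀ s : ℂ, s ≠ 0 → Λ.lam j j (ops l s) y = s ^ e := by
  have key : ∀ S : Finset (Fin n), ∃ y, (∀ s : ℂ, s ≠ 0 → A.act (ops l s) y = y) ∧
      (∀ j, y ∈ B.U j → ∀ s : ℂ, s ≠ 0 → Λ.lam j j (ops l s) y = s ^ e) ∧
      ∀ c ∈ S, ∀ z : ℂ, z ≠ 0 → A.act (Function.update (1 : Fin n → ℂ) c z) y = y := by
    intro S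
    induction S using Finset.induction_on with
    | empty => exact ⟨y₁, h1, he, fun c hc => absurd hc (by simp)⟩
    | insert c S hc ih =>
      obtain ⟨y, ha, hb, hd⟩ := ih
      obtain ⟨y', hy'⟩ := hA (Pi.single c 1) y
      have hy2 : Tendsto (fun t : ℂ => A.act (ops (Pi.single c 1) t) y) (𝓝[≠] 0) (𝓝 y') := hy'
      refine ⟨y', fun s hs => PFix_lim (ops_inT l hs) (ha s hs) hy2,
        fun j hj s hs => PFix_exp Λ ha hb hy2 hj hs, ?_⟩
      intro c' hc' z hz
      rw [Finset.mem_insert] at hc'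
      rcases hc' with rfl | hc'
      · rw [← PFix_ops_single]
        exact (lim_fixed Λ hy2).1 z hz
      · refine PFix_lim ?_ (hd c' hc' z hz) hy2
        rw [← PFix_ops_single]
        exact ops_inT _ hz
  obtain ⟨y, ha, hb, hd⟩ := key Finset.univ
  exact ⟨y, PFix_all fun c z hz => hd c (Finset.mem_univ c) z hz, hb⟩

/-- Proof. `HasLimits` for `l` at `v.x`, `lim_fixed`, `weight_le_exp`, `exists_fixed_exp`,
`exists_hasWeight`: `chr w (λ s) = s ^ (∑ w c * l c) = s ^ e` for `s = 2` gives `∑ w c * l c = e`. -/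
theorem exists_fixed_weight (hA : A.HasLimits) {p : ℕ} {χ : Fin n → ℤ} {t : secMod B p 0}
    (ht : Λ.IsWt χ t) {v : Spot B} (hv : t.1 v.i v.φ v.x ≠ 0) (l : Fin n → ℤ) :
    ∃ y w, A.Fixed y ∧ Λ.HasWeight y w ∧ ∑ c, χ c * l c ≤ p * ∑ c, w c * l c := by
  obtain ⟨y₁, hy₁⟩ := hA l v.x
  have hy2 : Tendsto (fun t : ℂ => A.act (ops l t) v.x) (𝓝[≠] 0) (𝓝 y₁) := hy₁
  obtain ⟨h1, e, he⟩ := lim_fixed Λ hy2
  have hle := weight_le_exp Λ ht hv hy2 he
  obtain ⟨y, hfix, hy⟩ := exists_fixed_exp Λ hA h1 he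
  obtain ⟨w, hw⟩ := exists_hasWeight Λ hfix
  refine ⟨y, w, hfix, hw, ?_⟩
  obtain ⟨i, hi⟩ := B.cover y
  have h2 : (2 : ℂ) ≠ 0 := two_ne_zero
  have e1 := hw i hi (ops l 2) (ops_inT l h2)
  rw [hy i hi 2 h2] at e1
  have e2 : chr w (ops l 2) = (2 : ℂ) ^ (∑ c, w c * l c) := by
    unfold chr ops
    have e3 : ∀ S : Finset (Fin n), ∏ c ∈ S, ((2 : ℂ) ^ l c) ^ w c = 2 ^ (∑ c ∈ S, w c * l c) := by
      intro S
      induction S using Finset.induction_on with
      | empty => simp
      | insert c S hc ih =>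
        rw [Finset.prod_insert hc, Finset.sum_insert hc, ih, zpow_add₀ h2, ← zpow_mul,
          mul_comm (l c)]
    exact e3 Finset.univ
  rw [e2] at e1
  have e4 : (2 : ℝ) ^ e = 2 ^ (∑ c, w c * l c) := by
    have := congrArg norm e1
    rwa [norm_zpow, norm_zpow, Complex.norm_ofNat] at this
  have e5 : e = ∑ c, w c * l c :=
    zpow_right_injective₀ (by norm_num) (by norm_num) e4
  rw [← e5]
  exact hle

end Pool.Agent.Abd
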