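import Pool.Agent.H.MP_e23cd6_ag.TB.PFark
import Pool.Agent.H.MP_e23cd6_ag.TB.PFix

/-! The weights of sections are in the convex hull of the weights at the fixed points. -/

set_option autoImplicit false

open scoped Manifold ContDiff Topology ENNReal
open MeasureTheory Set Filter

namespace Pool.Agent.Abd

variable {E : Type} [NormedAddCommGroup E] [NormedSpace ℂ E] [FiniteDimensional ℂ E] {n : ℕ}
  {F : Type} [TopologicalSpace F] [ChartedSpace E F] [IsManifold 𝓘(ℂ, E) ω F] [CompactSpace F]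
  [T2Space F]
  {A : TorusAction E n F} {B : LineBundle E F} (Λ : Linearization A B)

theorem PHull_chr {n : ℕ} (w : Fin n → ℤ) (c : Fin n) (z : ℂ) :
    chr w (Function.update (1 : Fin n → ℂ) c z) = z ^ w c := by
  unfold chr
  rw [Finset.prod_eq_single c]
  · rw [Function.update_self]
  · intro c' _ h
    rw [Function.update_of_ne h, Pi.one_apply, one_zpow]
  · intro h
    exact absurd (Finset.mem_univ c) h

theorem PHull_inT {n : ℕ} (c : Fin n) {z : ℂ} (hz : z ≠ 0) :
    InT (Function.update (1 : Fin n → ℂ) c z) := by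
  intro c'
  rcases eq_or_ne c' c with rfl | h
  · rwa [Function.update_self]
  · rw [Function.update_of_ne h]
    exact one_ne_zero

theorem PHull_lt {w : ℤ} {K : ℕ} {R : ℝ} (hR : R ≤ 2 ^ K) (h : ‖(2 : ℂ) ^ w‖ < R) : w ≤ K := by
  rw [norm_zpow, Complex.norm_ofNat] at h
  have h1 : (2 : ℝ) ^ w < 2 ^ (K : ℤ) := by
    rw [zpow_natCast]
    exact lt_of_lt_of_le h hR
  exact ((zpow_lt_zpow_iff_right₀ one_lt_two).1 h1).le

theorem PHull_gt {w : ℤ} {K : ℕ} {R : ℝ} (hR : R ≤ 2 ^ K) (h : ‖((2 : ℂ)⁻¹) ^ w‖ < R) :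
    -(K : ℤ) ≤ w := by
  rw [inv_zpow, ← zpow_neg] at h
  have := PHull_lt hR h
  omega

omit [FiniteDimensional ℂ E] [CompactSpace F] in
/-- Near each point there are finitely many weights. -/
theorem PHull_local (y0 : F) : ∃ V ∈ 𝓝 y0,
    {w : Fin n → ℤ | ∃ y ∈ V, A.Fixed y ∧ Λ.HasWeight y w}.Finite := by
  by_cases hfix : A.Fixed y0
  · obtain ⟨i, hi⟩ := B.cover y0
    have h2 : (2 : ℂ) ≠ 0 := two_ne_zero
    have h2' : (2 : ℂ)⁻¹ ≠ 0 := inv_ne_zero h2
    have hc : ∀ (c : Fin n) {z : ℂ}, z ≠ 0 → ∀ᶠ y in 𝓝 y0,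
        ‖Λ.lam i i (Function.update (1 : Fin n → ℂ) c z) y‖ <
          ‖Λ.lam i i (Function.update (1 : Fin n → ℂ) c z) y0‖ + 1 := by
      intro c z hz
      have h1 := lam_continuousAt Λ (PHull_inT c hz) (i := i) (j := i) hi
        (by rw [hfix _ (PHull_inT c hz)]; exact hi)
      exact h1.norm.eventually_lt continuousAt_const (by linarith)
    choose K hK using fun c : Fin n => pow_unbounded_of_one_lt
      (‖Λ.lam i i (Function.update (1 : Fin n → ℂ) c 2) y0‖ + 1) (one_lt_two (α := ℝ))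
    choose K' hK' using fun c : Fin n => pow_unbounded_of_one_lt
      (‖Λ.lam i i (Function.update (1 : Fin n → ℂ) c (2⁻¹)) y0‖ + 1) (one_lt_two (α := ℝ))
    have hev : ∀ᶠ y in 𝓝 y0, y ∈ B.U i ∧ ∀ c : Fin n,
        ‖Λ.lam i i (Function.update (1 : Fin n → ℂ) c 2) y‖ <
          ‖Λ.lam i i (Function.update (1 : Fin n → ℂ) c 2) y0‖ + 1 ∧
        ‖Λ.lam i i (Function.update (1 : Fin n → ℂ) c (2⁻¹)) y‖ <
          ‖Λ.lam i i (Function.update (1 : Fin n → ℂ) c (2⁻¹)) y0‖ + 1 :=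
      Filter.Eventually.and (IsOpen.mem_nhds (B.isOpen i) hi)
        (eventually_all.2 fun c => (hc c h2).and (hc c h2'))
    refine ⟨_, hev, (Set.finite_Icc (fun c => -(K' c : ℤ)) (fun c => (K c : ℤ))).subset ?_⟩
    rintro w ⟨y, ⟨hyi, hy⟩, -, hw⟩
    constructor
    · intro c
      have h3 := (hy c).2
      rw [hw i hyi _ (PHull_inT c h2'), PHull_chr] at h3
      exact PHull_gt (hK' c).le h3
    · intro c
      have h3 := (hy c).1
      rw [hw i hyi _ (PHull_inT c h2), PHull_chr] at h3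
      exact PHull_lt (hK c).le h3
  · obtain ⟨a, ha, hne⟩ : ∃ a, InT a ∧ A.act a y0 ≠ y0 := by
      by_contra hcon
      push Not at hcon
      exact hfix hcon
    have hop : IsOpen {y : F | A.act a y ≠ y} :=
      isOpen_ne_fun (act_continuous A ha) continuous_id
    refine ⟨_, hop.mem_nhds hne, ?_⟩
    refine (Set.finite_empty (α := Fin n → ℤ)).subset ?_
    rintro w ⟨y, hy, hf, -⟩
    exact absurd (hf a ha) hy

/-- There are only finitely many weights at fixed points.

Proof. `exists_finCover`: finitely many compact sets `Q a = (C.φ a).symm '' C.K a ⊆ B.U (C.i a)` cover `F`. The set of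
fixed points is closed (intersection of the closed sets `{y | A.act a y = y}`, `InT a`). For a coordinate `c` and
`z = 2` or `z = 1/2` let `a' = Function.update 1 c z`; the function `y ↦ ‖lam (C.i a) (C.i a) a' y‖` is continuous on the
compact set `Q a ∩ fixed points` (`lam_continuousAt`), so bounded by `R`. At a fixed point `y ∈ Q a` of weight `w` it equals
`z ^ w c`. So `2 ^ w c ≤ R` and `(1/2) ^ w c ≤ R'`, hence `|w c|` is bounded by a number independent of `y`. A set of integer vectors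
with bounded entries is finite (`Set.Finite.pi` or `Set.finite_Icc`). -/
theorem finite_weights : {w : Fin n → ℤ | ∃ y, A.Fixed y ∧ Λ.HasWeight y w}.Finite := by
  have key : {w : Fin n → ℤ | ∃ y ∈ (univ : Set F), A.Fixed y ∧ Λ.HasWeight y w}.Finite := by
    refine isCompact_univ.induction_on
      (p := fun s => {w : Fin n → ℤ | ∃ y ∈ s, A.Fixed y ∧ Λ.HasWeight y w}.Finite) ?_ ?_ ?_ ?_
    · simp
    · intro s t hst ht
      refine ht.subset ?_
      rintro w ⟨y, hy, h⟩
      exact ⟨y, hst hy, h⟩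
    · intro s t hs ht
      refine (hs.union ht).subset ?_
      rintro w ⟨y, hy | hy, h⟩
      · exact Or.inl ⟨y, hy, h⟩
      · exact Or.inr ⟨y, hy, h⟩
    · intro y _
      obtain ⟨V, hV, hfin⟩ := PHull_local Λ y
      exact ⟨V, mem_nhdsWithin_of_mem_nhds hV, hfin⟩
  refine key.subset ?_
  rintro w ⟨y, h⟩
  exact ⟨y, mem_univ y, h⟩

/-- (H) Proof. `S` = the finite set of `finite_weights`; `exists_fixed_weight` and `farkas_int`. -/
theorem weight_mem_hull (hA : A.HasLimits) {l : ℕ} (_hl : 1 ≤ l) {χ : Fin n → ℤ}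
    {t : secMod B l 0} (ht : Λ.IsWt χ t) {v : Spot B} (hv : t.1 v.i v.φ v.x ≠ 0) :
    ∃ (N : ℕ) (S : Finset (Fin n → ℤ)) (ν : (Fin n → ℤ) → ℕ), 1 ≤ N ∧
      (∀ w ∈ S, ∃ y, A.Fixed y ∧ Λ.HasWeight y w) ∧ ∑ w ∈ S, ν w = N * l ∧
      ∀ c, (N : ℤ) * χ c = ∑ w ∈ S, ν w * w c := by
  have hfin := finite_weights (A := A) Λ
  obtain ⟨N, ν, hN, h1, h2⟩ := farkas_int hfin.toFinset χ l (by
    intro l'
    obtain ⟨y, w, hy, hw, hle⟩ := exists_fixed_weight Λ hA ht hv l'
    exact ⟨w, hfin.mem_toFinset.2 ⟨y, hy, hw⟩, hle⟩)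
  refine ⟨N, hfin.toFinset, ν, hN, ?_, h1, h2⟩
  intro w hw
  exact hfin.mem_toFinset.1 hw

end Pool.Agent.Abd
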