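import Pool.Agent.H.MP_e23cd6_ag.TB.PAct2
import Pool.Agent.H.MP_e23cd6_ag.TB.Weights

/-! Limits of one-parameter subgroups: weights at fixed points bound the weights of sections. -/

set_option autoImplicit false

open scoped Manifold ContDiff Topology ENNReal
open MeasureTheory Set Filter

namespace Pool.Agent.Abd

variable {E : Type} [NormedAddCommGroup E] [NormedSpace ℂ E] {n : ℕ}
  {F : Type} [TopologicalSpace F] [ChartedSpace E F] [IsManifold 𝓘(ℂ, E) ω F] [T2Space F]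
  {A : TorusAction E n F} {B : LineBundle E F} (Λ : Linearization A B)

/-- The point `λ(t)` of the one-parameter subgroup `λ`. -/
noncomputable def ops {n : ℕ} (l : Fin n → ℤ) (t : ℂ) : Fin n → ℂ := fun c => t ^ l c

theorem ops_inT {n : ℕ} (l : Fin n → ℤ) {t : ℂ} (ht : t ≠ 0) : InT (ops l t) :=
  fun _ => zpow_ne_zero _ ht

theorem ops_mul {n : ℕ} (l : Fin n → ℤ) (s t : ℂ) : ops l (s * t) = ops l s * ops l t := by
  funext c
  exact mul_zpow s t (l c)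

theorem ops_one {n : ℕ} (l : Fin n → ℤ) : ops l 1 = 1 := by
  funext c
  exact one_zpow (l c)

/-- `lam` is continuous in the point. Proof: `Λ.hol` composed with `y ↦ (a, y)`. -/
theorem lam_continuousAt {a : Fin n → ℂ} (ha : InT a) {i j : B.ι} {y : F} (hj : y ∈ B.U j)
    (hi : A.act a y ∈ B.U i) : ContinuousAt (fun y => Λ.lam i j a y) y := by
  have h1 := (Λ.hol i j a y ha hj hi).continuousAt
  have h2 : ContinuousAt (fun y : F => (a, y)) y := (Continuous.prodMk_right a).continuousAt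
  exact ContinuousAt.comp (g := fun v : (Fin n → ℂ) × F => Λ.lam i j v.1 v.2)
    (f := fun y : F => (a, y)) h1 h2

/-- A limit point for `t → 0` of a one-parameter subgroup `l` is fixed by it, and the subgroup acts
on the fibre there by a power `t ^ e`.

Proof. `ops l s` maps `y₁ = lim λ(t) y` to `lim λ(s) λ(t) y = lim λ(s t) y = y₁` (continuity of the action,
`t ↦ s t` maps the punctured neighbourhoods of `0` to themselves, Hausdorff). Then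
`s ↦ lam j j (λ s) y₁` is a holomorphic homomorphism `ℂ^* → ℂ^*` for `j` with `y₁ ∈ B.U j`: `wt_onevar` (holomorphy:
`Λ.hol` composed with `s ↦ (λ s, y₁)`); the exponent does not depend on `j` (`lam_change`). -/
theorem lim_fixed {l : Fin n → ℤ} {y y₁ : F}
    (h : Tendsto (fun t : ℂ => A.act (ops l t) y) (𝓝[≠] 0) (𝓝 y₁)) :
    (∀ s : ℂ, s ≠ 0 → A.act (ops l s) y₁ = y₁) ∧
      ∃ e : ℤ, ∀ j, y₁ ∈ B.U j → ∀ s : ℂ, s ≠ 0 → Λ.lam j j (ops l s) y₁ = s ^ e := by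
  have hfix : ∀ s : ℂ, s ≠ 0 → A.act (ops l s) y₁ = y₁ := by
    intro s hs
    have h1 : Tendsto (fun t : ℂ => A.act (ops l s) (A.act (ops l t) y)) (𝓝[≠] 0)
        (𝓝 (A.act (ops l s) y₁)) :=
      ((act_continuous A (ops_inT l hs)).tendsto y₁).comp h
    have h2 : Tendsto (fun t : ℂ => s * t) (𝓝[≠] 0) (𝓝[≠] 0) := by
      refine tendsto_nhdsWithin_iff.2 ⟨?_, ?_⟩
      · have h3 : Tendsto (fun t : ℂ => s * t) (𝓝 0) (𝓝 (s * 0)) :=
          (continuous_const_mul s).tendsto 0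
        rw [mul_zero] at h3
        exact h3.mono_left nhdsWithin_le_nhds
      · filter_upwards [self_mem_nhdsWithin] with t ht
        exact mul_ne_zero hs ht
    have h3 : Tendsto (fun t : ℂ => A.act (ops l (s * t)) y) (𝓝[≠] 0) (𝓝 y₁) := h.comp h2
    refine tendsto_nhds_unique h1 (h3.congr' ?_)
    filter_upwards [self_mem_nhdsWithin] with t ht
    rw [ops_mul, A.mul _ _ (ops_inT l hs) (ops_inT l ht)]
  refine ⟨hfix, ?_⟩
  obtain ⟨j, hj⟩ := B.cover y₁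
  have hU : ∀ s : ℂ, s ≠ 0 → A.act (ops l s) y₁ ∈ B.U j := fun s hs => by rw [hfix s hs]; exact hj
  obtain ⟨e, he⟩ := wt_onevar (fun s => Λ.lam j j (ops l s) y₁) (by
      show Λ.lam j j (ops l 1) y₁ = 1
      rw [ops_one, Λ.one j j y₁ hj hj, B.one j y₁ hj]) (by
      intro z w hz hw
      show Λ.lam j j (ops l (z * w)) y₁ = Λ.lam j j (ops l z) y₁ * Λ.lam j j (ops l w) y₁
      have h1 := Λ.mul j j j (ops l z) (ops l w) y₁ (ops_inT l hz) (ops_inT l hw) hj (hU w hw)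
        (by rw [← ops_mul]; exact hU _ (mul_ne_zero hz hw))
      rw [hfix w hw] at h1
      rw [ops_mul, ← h1]) (by
      intro s hs
      have h1 : ContDiffAt ℂ ω (fun s : ℂ => ops l s) s := by
        rw [contDiffAt_pi]
        intro c
        have h2 : AnalyticAt ℂ (fun w : ℂ => w ^ l c) s := analyticAt_id.zpow hs
        exact h2.contDiffAt
      have h2 : ContMDiffAt 𝓘(ℂ) (𝓘(ℂ, Fin n → ℂ).prod 𝓘(ℂ, E)) ω
          (fun s : ℂ => ((ops l s, y₁) : (Fin n → ℂ) × F)) s :=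
        h1.contMDiffAt.prodMk contMDiffAt_const
      have h3 : ContMDiffAt 𝓘(ℂ) 𝓘(ℂ) ω (fun s => Λ.lam j j (ops l s) y₁) s :=
        ContMDiffAt.comp (g := fun v : (Fin n → ℂ) × F => Λ.lam j j v.1 v.2)
          (f := fun s : ℂ => ((ops l s, y₁) : (Fin n → ℂ) × F)) s
          (Λ.hol j j (ops l s) y₁ (ops_inT l hs) hj (hU s hs)) h2
      exact h3.contDiffAt.differentiableAt (by simp))
  refine ⟨e, fun j' hj' s hs => ?_⟩
  have h1 := lam_change Λ (ops_inT l hs) (i := j') (i' := j) (j := j') (j' := j) hj' hj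
    (by rw [hfix s hs]; exact hj') (hU s hs)
  rw [h1, hfix s hs]
  have h2 : B.g j' j y₁ * B.g j j' y₁ = 1 := by
    rw [B.mul j' j j' y₁ hj' hj hj', B.one j' y₁ hj']
  have h3 : Λ.lam j j (ops l s) y₁ = s ^ e := he s hs
  rw [h3]
  linear_combination (s ^ e) * h2

theorem PLim_chr_ops {n : ℕ} (χ l : Fin n → ℤ) {t : ℂ} (ht : t ≠ 0) :
    chr χ (ops l t) = t ^ (∑ c, χ c * l c) := by
  unfold chr ops
  have key : ∀ S : Finset (Fin n), ∏ c ∈ S, (t ^ l c) ^ χ c = t ^ (∑ c ∈ S, χ c * l c) := by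
    intro S
    induction S using Finset.induction_on with
    | empty => simp
    | insert c S hc ih =>
      rw [Finset.prod_insert hc, Finset.sum_insert hc, ih, zpow_add₀ ht, ← zpow_mul,
        mul_comm (l c)]
  exact key Finset.univ

/-- The growth argument: the weight of a section not vanishing at `y` is bounded by the exponent.

Proof. Choose `j` with `y₁ ∈ B.U j` and a chart `ψ` at `y₁`. For `s ≠ 0` near `0` the point `y_s = λ(s) y` is in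
`B.U j ∩ ψ.source`; `f s = t j ψ y_s` tends to `t j ψ y₁` as `s → 0`. `f s ≠ 0`: `IsWt` and `isAct_iff` for
`a = λ(s)` at `y`: `chr χ (λ s) * t j ψ (λ(s) y) = lam j v.i (λ s) y ^ p * t v.i (pull ψ) y`, and
`t v.i (pull ψ) y = t v.i v.φ y ≠ 0` (`m = 0`), `lam ≠ 0`. `IsWt` for `λ(1/2)` at `y_s`:
`(1/2) ^ (∑ χ c * l c) * f (s/2) = lam j j (λ (1/2)) y_s ^ p * f s`, and `lam j j (λ (1/2)) y_s → (1/2) ^ e`.
So `‖f (s/2)‖ / ‖f s‖ → (1/2) ^ (p * e - ∑ χ c * l c)`. If the exponent were negative, the limit would be `≥ 2`, so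
`‖f (s/2)‖ ≥ (3/2) ‖f s‖` for all small `s ≠ 0`, so `‖f (s / 2 ^ N)‖ ≥ (3/2) ^ N * ‖f s‖ → ∞`, contradiction to
convergence of `f`. -/
theorem weight_le_exp {l : Fin n → ℤ} {p : ℕ} {χ : Fin n → ℤ} {t : secMod B p 0}
    (ht : Λ.IsWt χ t) {v : Spot B} (hv : t.1 v.i v.φ v.x ≠ 0) {y₁ : F}
    (h : Tendsto (fun s : ℂ => A.act (ops l s) v.x) (𝓝[≠] 0) (𝓝 y₁)) {e : ℤ}
    (he : ∀ j, y₁ ∈ B.U j → ∀ s : ℂ, s ≠ 0 → Λ.lam j j (ops l s) y₁ = s ^ e) :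
    ∑ c, χ c * l c ≤ p * e := by
  obtain ⟨hfix, -⟩ := lim_fixed Λ h
  obtain ⟨j, hj⟩ := B.cover y₁
  have hψ : chartAt E y₁ ∈ Charts E F := IsManifold.chart_mem_maximalAtlas (I := 𝓘(ℂ, E)) y₁
  have hy₁ : y₁ ∈ (chartAt E y₁).source := mem_chart_source E y₁
  generalize chartAt E y₁ = ψ at hψ hy₁
  by_contra hcon
  rw [not_le] at hcon
  obtain ⟨N, hN⟩ : ∃ N : ℤ, N = ∑ c, χ c * l c := ⟨_, rfl⟩
  rw [← hN] at hcon
  have hhalf : (1 / 2 : ℂ) ≠ 0 := by norm_num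
  -- the function `f`
  obtain ⟨f, hf⟩ : ∃ f : ℂ → ℂ, ∀ s, f s = t.1 j ψ (A.act (ops l s) v.x) :=
    ⟨fun s => t.1 j ψ (A.act (ops l s) v.x), fun _ => rfl⟩
  have hlim : Tendsto f (𝓝[≠] 0) (𝓝 (t.1 j ψ y₁)) := by
    have h1 : ContinuousAt (t.1 j ψ) y₁ := (t.2.2.1 j ψ hψ y₁ hj hy₁).continuousAt
    have h2 : Tendsto (fun s => t.1 j ψ (A.act (ops l s) v.x)) (𝓝[≠] 0) (𝓝 (t.1 j ψ y₁)) :=
      h1.tendsto.comp h
    exact h2.congr fun s => (hf s).symm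
  have hU : ∀ᶠ s in 𝓝[≠] (0 : ℂ), A.act (ops l s) v.x ∈ B.U j ∧
      A.act (ops l s) v.x ∈ ψ.source := by
    filter_upwards [h ((B.isOpen j).mem_nhds hj), h (ψ.open_source.mem_nhds hy₁)] with s h1 h2
    exact ⟨h1, h2⟩
  have hne : ∀ s : ℂ, s ≠ 0 → A.act (ops l s) v.x ∈ B.U j → A.act (ops l s) v.x ∈ ψ.source →
      f s ≠ 0 := by
    intro s hs h1 h2 h0
    have h3 := ht (ops l s) (ops_inT l hs) j v.i ψ hψ v.φ v.hφ v.x h1 v.hi h2 v.hx
    have h4 : (chr χ (ops l s) • t).1 j ψ (A.act (ops l s) v.x) = chr χ (ops l s) * f s := by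
      rw [hf]
      rfl
    rw [h4, h0, mul_zero, pow_zero, mul_one] at h3
    exact (mul_ne_zero (pow_ne_zero p (lam_ne_zero Λ (ops_inT l hs) v.hi h1)) hv) h3.symm
  -- the recursion
  have hrec : ∀ s : ℂ, s ≠ 0 → A.act (ops l s) v.x ∈ B.U j → A.act (ops l s) v.x ∈ ψ.source →
      A.act (ops l (1 / 2 * s)) v.x ∈ B.U j → A.act (ops l (1 / 2 * s)) v.x ∈ ψ.source →
      (1 / 2 : ℂ) ^ N * f (1 / 2 * s) =
        Λ.lam j j (ops l (1 / 2)) (A.act (ops l s) v.x) ^ p * f s := by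
    intro s hs h1 h2 h3 h4
    have h5 : A.act (ops l (1 / 2 * s)) v.x = A.act (ops l (1 / 2)) (A.act (ops l s) v.x) := by
      rw [ops_mul, A.mul _ _ (ops_inT l hhalf) (ops_inT l hs)]
    rw [h5] at h3 h4
    have h6 := ht (ops l (1 / 2)) (ops_inT l hhalf) j j ψ hψ ψ hψ (A.act (ops l s) v.x) h3 h1 h4 h2
    have h7 : (chr χ (ops l (1 / 2)) • t).1 j ψ (A.act (ops l (1 / 2)) (A.act (ops l s) v.x)) =
        chr χ (ops l (1 / 2)) * f (1 / 2 * s) := by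
      rw [hf, h5]
      rfl
    rw [h7, pow_zero, mul_one, PLim_chr_ops χ l hhalf, ← hN] at h6
    rw [h6, hf]
  have hlam : Tendsto (fun s => Λ.lam j j (ops l (1 / 2)) (A.act (ops l s) v.x)) (𝓝[≠] 0)
      (𝓝 ((1 / 2 : ℂ) ^ e)) := by
    have h1 := lam_continuousAt Λ (ops_inT l hhalf) (i := j) (j := j) (y := y₁) hj
      (by rw [hfix _ hhalf]; exact hj)
    have h2 : Tendsto (fun s => Λ.lam j j (ops l (1 / 2)) (A.act (ops l s) v.x)) (𝓝[≠] 0)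
      (𝓝 (Λ.lam j j (ops l (1 / 2)) y₁)) := h1.tendsto.comp h
    rw [he j hj _ hhalf] at h2
    exact h2
  have hcoef : Tendsto (fun s => ‖(1 / 2 : ℂ) ^ (-N) *
      Λ.lam j j (ops l (1 / 2)) (A.act (ops l s) v.x) ^ p‖) (𝓝[≠] 0)
      (𝓝 ‖(1 / 2 : ℂ) ^ (-N) * ((1 / 2 : ℂ) ^ e) ^ p‖) :=
    ((hlam.pow p).const_mul _).norm
  have hval : (3 / 2 : ℝ) < ‖(1 / 2 : ℂ) ^ (-N) * ((1 / 2 : ℂ) ^ e) ^ p‖ := by
    have h1 : (1 / 2 : ℂ) ^ (-N) * ((1 / 2 : ℂ) ^ e) ^ p = (2 : ℂ) ^ (N - p * e) := by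
      rw [← zpow_natCast, ← zpow_mul, ← zpow_add₀ hhalf, one_div, inv_zpow, ← zpow_neg]
      congr 1
      ring
    rw [h1, norm_zpow]
    have h2 : ‖(2 : ℂ)‖ = 2 := by simp
    rw [h2]
    have h3 : (2 : ℝ) ^ (1 : ℤ) ≤ (2 : ℝ) ^ (N - p * e) :=
      zpow_le_zpow_right₀ (by norm_num) (by omega)
    rw [zpow_one] at h3
    linarith
  have hev : ∀ᶠ s in 𝓝[≠] (0 : ℂ), (3 / 2 : ℝ) < ‖(1 / 2 : ℂ) ^ (-N) *
      Λ.lam j j (ops l (1 / 2)) (A.act (ops l s) v.x) ^ p‖ := hcoef (lt_mem_nhds hval)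
  obtain ⟨r, hr, hball⟩ := Metric.mem_nhdsWithin_iff.1 (hU.and hev)
  have hgood : ∀ s : ℂ, s ≠ 0 → ‖s‖ < r → (A.act (ops l s) v.x ∈ B.U j ∧
      A.act (ops l s) v.x ∈ ψ.source) ∧ (3 / 2 : ℝ) < ‖(1 / 2 : ℂ) ^ (-N) *
      Λ.lam j j (ops l (1 / 2)) (A.act (ops l s) v.x) ^ p‖ := by
    intro s hs hsr
    exact hball ⟨by rw [Metric.mem_ball, dist_zero_right]; exact hsr, hs⟩
  have hstep : ∀ s : ℂ, s ≠ 0 → ‖s‖ < r → 3 / 2 * ‖f s‖ ≤ ‖f (1 / 2 * s)‖ := by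
    intro s hs hsr
    have h1 := hgood s hs hsr
    have hs2 : (1 / 2 : ℂ) * s ≠ 0 := mul_ne_zero hhalf hs
    have h2 := hgood (1 / 2 * s) hs2 (by
      rw [norm_mul]
      have : ‖(1 / 2 : ℂ)‖ = 1 / 2 := by simp
      rw [this]
      linarith [norm_nonneg s])
    have h3 := hrec s hs h1.1.1 h1.1.2 h2.1.1 h2.1.2
    have h4 : f (1 / 2 * s) = ((1 / 2 : ℂ) ^ (-N) *
        Λ.lam j j (ops l (1 / 2)) (A.act (ops l s) v.x) ^ p) * f s := by
      rw [mul_assoc, ← h3, ← mul_assoc, ← zpow_add₀ hhalf, neg_add_cancel, zpow_zero, one_mul]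
    rw [h4, norm_mul]
    exact mul_le_mul_of_nonneg_right h1.2.le (norm_nonneg _)
  -- iteration
  obtain ⟨s₀, hs₀⟩ : ∃ s₀ : ℂ, s₀ = ((r / 2 : ℝ) : ℂ) := ⟨_, rfl⟩
  have hs₀n : ‖s₀‖ = r / 2 := by
    rw [hs₀, Complex.norm_real, Real.norm_of_nonneg (by linarith)]
  have hs₀0 : s₀ ≠ 0 := by
    rw [← norm_pos_iff, hs₀n]
    linarith
  have hsn : ∀ k : ℕ, (1 / 2 : ℂ) ^ k * s₀ ≠ 0 ∧ ‖(1 / 2 : ℂ) ^ k * s₀‖ < r := by
    intro k
    refine ⟨mul_ne_zero (pow_ne_zero k hhalf) hs₀0, ?_⟩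
    rw [norm_mul, norm_pow, hs₀n]
    have h1 : ‖(1 / 2 : ℂ)‖ = 1 / 2 := by simp
    rw [h1]
    have h2 : (1 / 2 : ℝ) ^ k ≤ 1 := pow_le_one₀ (by norm_num) (by norm_num)
    nlinarith
  have hiter : ∀ k : ℕ, (3 / 2 : ℝ) ^ k * ‖f s₀‖ ≤ ‖f ((1 / 2 : ℂ) ^ k * s₀)‖ := by
    intro k
    induction k with
    | zero => simp
    | succ k ih =>
      have h1 := hstep _ (hsn k).1 (hsn k).2
      have h2 : (1 / 2 : ℂ) ^ (k + 1) * s₀ = 1 / 2 * ((1 / 2 : ℂ) ^ k * s₀) := by ring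
      rw [h2]
      refine le_trans ?_ h1
      rw [pow_succ]
      linarith
  have hf0 : 0 < ‖f s₀‖ := by
    rw [norm_pos_iff]
    have h1 := hgood s₀ hs₀0 (by rw [hs₀n]; linarith)
    exact hne s₀ hs₀0 h1.1.1 h1.1.2
  have hseq : Tendsto (fun k : ℕ => (1 / 2 : ℂ) ^ k * s₀) atTop (𝓝[≠] 0) := by
    refine tendsto_nhdsWithin_iff.2 ⟨?_, Eventually.of_forall fun k => (hsn k).1⟩
    have h1 : Tendsto (fun k : ℕ => (1 / 2 : ℂ) ^ k) atTop (𝓝 0) :=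
      tendsto_pow_atTop_nhds_zero_of_norm_lt_one (by norm_num)
    have h2 := h1.mul_const s₀
    rw [zero_mul] at h2
    exact h2
  have hA : Tendsto (fun k : ℕ => ‖f ((1 / 2 : ℂ) ^ k * s₀)‖) atTop (𝓝 ‖t.1 j ψ y₁‖) :=
    (hlim.comp hseq).norm
  have hB : Tendsto (fun k : ℕ => (3 / 2 : ℝ) ^ k * ‖f s₀‖) atTop atTop :=
    (tendsto_pow_atTop_atTop_of_one_lt (by norm_num)).atTop_mul_const hf0
  exact not_tendsto_nhds_of_tendsto_atTop (tendsto_atTop_mono hiter hB) _ hA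

end Pool.Agent.Abd
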