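import Pool.Agent.H.MP_e23cd6_ag.FM

/-! Lower bounds by monomials. -/

set_option autoImplicit false

open scoped ENNReal
open Finset

namespace Pool.Agent.Abd

variable {n : ℕ}

/-- An exponent vector of degree `q` is the vector of multiplicities of a map from `Fin q`.

Proof. `Fintype.card (Σ s, Fin (l s)) = q` (`Fintype.card_sigma`), take `g r = (e r).1` for an equivalence
`e : Fin q ≃ Σ s, Fin (l s)`; `∏ r, f (g r) = ∏ p : Σ s, Fin (l s), f p.1` (`Equiv.prod_comp`), then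
`Fintype.prod_sigma`, `Finset.prod_const`. -/
theorem exists_mult {S : Type} [Fintype S] (l : S → ℕ) {q : ℕ} (h : ∑ s, l s = q) :
    ∃ g : Fin q → S, ∀ {M : Type} [CommMonoid M] (f : S → M), ∏ r, f (g r) = ∏ s, f s ^ l s := by
  have hc : Fintype.card (Σ s, Fin (l s)) = q := by
    rw [Fintype.card_sigma]
    simpa using h
  let e : Fin q ≃ Σ s, Fin (l s) := (Fintype.equivFinOfCardEq hc).symm
  refine ⟨fun r => (e r).1, fun {M} _ f => ?_⟩
  rw [Equiv.prod_comp e (fun p : Σ s, Fin (l s) => f p.1), Fintype.prod_sigma]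
  simp

/-- A function `G` of the coordinates with values in `[0, ∞]`, bounded below by powers of a
maximum over the torus, is bounded below by monomials.

Proof. As in `fiber'` (file Fiber.lean). `fm_deg` with `S = Fin d`, `p σ c = χ σ c - k * χ₀ c` gives `q` and the
finite set `Λ` of exponents; `∑ σ, l σ * (χ σ c - k * χ₀ c) = 0` and `∑ l = q` give
`∑ σ, l σ * χ σ c = q * k * χ₀ c`. Take `J = ↥Λ` and for `j = l` the map `g` of `exists_mult`.
Given `x` (the coordinates), `P = ∑ l ∈ Λ, ∏ σ, ‖x σ‖ ^ l σ`. If `P > 0` put `A = P ^ (1/q)`, `c σ = ‖x σ‖ / A`;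
the products are `≤ 1`, so there is `v > 0` with `‖x σ‖ * ∏ c, v c ^ (χ σ c - k * χ₀ c) ≤ A` for all `σ`.
The hypothesis with this `v` gives `K₁ * ofReal A ^ (-2/m) ≤ G`. If `P = 0` use all `A = ε > 0` and
`ε → 0` to get `G = ⊤` (as in `fiber'`). -/
theorem monomial_bound {d : ℕ} (χ : Fin d → Fin n → ℤ) (χ₀ : Fin n → ℤ) (k m : ℕ) (hm : 1 ≤ m)
    {K₁ : ℝ≥0∞} (hK : K₁ ≠ 0) (hK' : K₁ ≠ ⊤) :
    ∃ (q : ℕ) (J : Type) (_ : Fintype J) (g : J → Fin q → Fin d), 2 ≤ q ∧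
      (∀ j c, ∑ r, χ (g j r) c = q * k * χ₀ c) ∧
      ∀ (x : Fin d → ℂ) (G : ℝ≥0∞),
        (∀ (v : Fin n → ℝ) (A : ℝ), (∀ c, 0 < v c) → 0 < A →
          (∀ σ, ‖x σ‖ * ∏ c, v c ^ (χ σ c - k * χ₀ c) ≤ A) →
          K₁ * ENNReal.ofReal A ^ (-(2 : ℝ) / m) ≤ G) →
        (∑ j, ‖∏ r, x (g j r)‖ₑ) ^ (-(2 : ℝ) / (m * q)) ≤ K₁⁻¹ * G := by
  classical
  obtain ⟨q, hq, Λ, hΛ, hc⟩ := fm_deg (S := Fin d) (n := n) fun σ c => χ σ c - k * χ₀ c
  choose g hg using fun l : Λ => exists_mult (l : Fin d → ℕ) (hΛ l l.2).1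
  refine ⟨q, Λ, inferInstance, g, hq, fun j c => ?_, fun x G hG => ?_⟩
  · have h0 := hg j (fun s => Multiplicative.ofAdd (χ s c))
    have h1 : ∑ r, χ (g j r) c = ∑ s, ((j : Fin d → ℕ) s : ℤ) * χ s c := by
      have h2 := congrArg Multiplicative.toAdd h0
      rw [toAdd_prod, toAdd_prod] at h2
      simpa [toAdd_pow] using h2
    have h3 := (hΛ j j.2).2 c
    simp only [mul_sub, Finset.sum_sub_distrib, ← Finset.sum_mul] at h3
    have h4 : (∑ s, ((j : Fin d → ℕ) s : ℤ)) = q := by exact_mod_cast (hΛ j j.2).1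
    rw [h4] at h3
    rw [h1]
    linarith
  · set P : ℝ := ∑ l ∈ Λ, ∏ σ, ‖x σ‖ ^ l σ with hP
    have hmR : (m : ℝ) ≠ 0 := by exact_mod_cast (by omega : m ≠ 0)
    have hqR : (q : ℝ) ≠ 0 := by exact_mod_cast (by omega : q ≠ 0)
    have hterm : ∀ l ∈ Λ, 0 ≤ ∏ σ, ‖x σ‖ ^ l σ := fun l _ =>
      Finset.prod_nonneg fun σ _ => pow_nonneg (norm_nonneg _) _
    have hP0 : 0 ≤ P := Finset.sum_nonneg hterm
    have hPe : (∑ l : Λ, ‖∏ r, x (g l r)‖ₑ) = ENNReal.ofReal P := by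
      rw [hP, ENNReal.ofReal_sum_of_nonneg hterm,
        ← Finset.sum_coe_sort Λ (fun l => ENNReal.ofReal (∏ σ, ‖x σ‖ ^ l σ))]
      refine Finset.sum_congr rfl fun l _ => ?_
      rw [← ofReal_norm, norm_prod, hg l (fun s => ‖x s‖)]
    have hmain : ∀ A : ℝ, 0 < A → (∀ l ∈ Λ, ∏ σ, ‖x σ‖ ^ l σ ≤ A ^ q) →
        K₁ * ENNReal.ofReal A ^ (-(2 : ℝ) / m) ≤ G := by
      intro A hA hs
      obtain ⟨v, hv0, hv⟩ := hc (fun σ => ‖x σ‖ / A) (fun σ => by positivity) (fun l hl => by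
        simp only [div_pow]
        rw [Finset.prod_div_distrib, Finset.prod_pow_eq_pow_sum, (hΛ l hl).1]
        exact (div_le_one (by positivity)).2 (hs l hl))
      refine hG v A hv0 hA fun σ => ?_
      have h1 := hv σ
      rw [div_mul_eq_mul_div, div_le_one hA] at h1
      exact h1
    rw [hPe]
    rcases hP0.eq_or_lt with h0 | h0
    · have hz : ∀ l ∈ Λ, ∏ σ, ‖x σ‖ ^ l σ = 0 :=
        (Finset.sum_eq_zero_iff_of_nonneg hterm).1 h0.symm
      have hR' : G = ⊤ := by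
        by_contra hne
        have hK2 : G / K₁ ≠ ⊤ := ENNReal.div_ne_top hne hK
        set X : ℝ := (G / K₁).toReal + 1 with hX
        have hX0 : 0 < X := by positivity
        have h1 := hmain (X ^ (-((m : ℝ) / 2))) (Real.rpow_pos_of_pos hX0 _) fun l hl => by
          rw [hz l hl]; positivity
        rw [ENNReal.ofReal_rpow_of_pos (Real.rpow_pos_of_pos hX0 _), ← Real.rpow_mul hX0.le,
          show -((m : ℝ) / 2) * (-(2 : ℝ) / m) = 1 by field_simp, Real.rpow_one, mul_comm,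
          ← ENNReal.le_div_iff_mul_le (Or.inl hK) (Or.inl hK')] at h1
        have h2 := (ENNReal.ofReal_le_iff_le_toReal hK2).1 h1
        rw [hX] at h2
        linarith
      rw [hR', ENNReal.mul_top (ENNReal.inv_ne_zero.2 hK')]
      exact le_top
    · have hA : 0 < P ^ ((1 : ℝ) / q) := Real.rpow_pos_of_pos h0 _
      have h1 := hmain (P ^ ((1 : ℝ) / q)) hA fun l hl => by
        rw [← Real.rpow_natCast, ← Real.rpow_mul h0.le, one_div_mul_cancel hqR, Real.rpow_one]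
        exact Finset.single_le_sum hterm hl
      have h2 : ENNReal.ofReal (P ^ ((1 : ℝ) / q)) ^ (-(2 : ℝ) / m) =
          ENNReal.ofReal P ^ (-(2 : ℝ) / (m * q)) := by
        rw [ENNReal.ofReal_rpow_of_pos h0, ENNReal.ofReal_rpow_of_pos hA, ← Real.rpow_mul h0.le]
        congr 2
        field_simp
      rw [h2] at h1
      calc ENNReal.ofReal P ^ (-(2 : ℝ) / (m * q))
          = K₁⁻¹ * (K₁ * ENNReal.ofReal P ^ (-(2 : ℝ) / (m * q))) := by
            rw [← mul_assoc, ENNReal.inv_mul_cancel hK hK', one_mul]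
        _ ≤ K₁⁻¹ * G := mul_le_mul_right h1 _

end Pool.Agent.Abd
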