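import Pool.Agent.H.MP_e23cd6_ag.TB.KltSlice
import Pool.Agent.H.MP_e23cd6_ag.Bertini

/-! Torus bundles: the klt section over the section of `π` given by a fixed point. -/

set_option autoImplicit false

open scoped Manifold ContDiff Topology ENNReal
open MeasureTheory Set Filter

namespace Pool.Agent.Abd

theorem prod_chr {n q : ℕ} (w : Fin q → Fin n → ℤ) (χ : Fin n → ℤ) (N : ℕ)
    (h : ∀ c, ∑ r, w r c = N * χ c) {a : Fin n → ℂ} (ha : InT a) :
    ∏ r, chr (w r) a = chr χ a ^ N := by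
  unfold chr
  rw [Finset.prod_comm, ← Finset.prod_pow]
  apply Finset.prod_congr rfl
  intro c _
  have h1 : ∀ s : Finset (Fin q), ∏ r ∈ s, a c ^ w r c = a c ^ (∑ r ∈ s, w r c) := by
    intro s
    induction s using Finset.induction_on with
    | empty => simp
    | insert r s hr ih => rw [Finset.prod_insert hr, Finset.sum_insert hr, ih, zpow_add₀ (ha c)]
  rw [h1, h c, mul_comm, zpow_mul, zpow_natCast]

/-- The conclusion of `fiber_norm`. -/
def NormData {E : Type} [NormedAddCommGroup E] [NormedSpace ℂ E] [MeasureSpace E] {n : ℕ}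
    {F : Type} [TopologicalSpace F] [ChartedSpace E F] {A : TorusAction E n F}
    {B : LineBundle E F} (Λ : Linearization A B) (C : FinCover B) (k m : ℕ)
    (χ : Fin n → ℤ) : Prop :=
  ∃ (q : ℕ) (J : Type) (_ : Fintype J) (l : J → Fin q → (secMod B k m →ₗ[ℂ] ℂ))
      (w : J → Fin q → Fin n → ℤ) (K : ℝ≥0∞), 2 ≤ q ∧ K ≠ ⊤ ∧ K ≠ 0 ∧
      (∀ j c, ∑ r, w j r c = q * k * χ c) ∧ (∀ j r, IsEval (l j r)) ∧
      (∀ j r a t t', InT a → Λ.IsAct a t t' → l j r t' = chr (w j r) a * l j r t) ∧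
      ∀ t : secMod B k m,
        (∑ j, ‖∏ r, l j r t‖ₑ) ^ (-(2 : ℝ) / (m * q)) ≤ K * C.int m t.1

namespace TorusBundle

variable {E₁ E₂ : Type} [NormedAddCommGroup E₁] [NormedSpace ℂ E₁] [FiniteDimensional ℂ E₁]
  [MeasureSpace E₁] [BorelSpace E₁] [(volume : Measure E₁).IsAddHaarMeasure]
  [NormedAddCommGroup E₂] [NormedSpace ℂ E₂] [FiniteDimensional ℂ E₂]
  [MeasureSpace E₂] [BorelSpace E₂] [(volume : Measure E₂).IsAddHaarMeasure]
  {n : ℕ} {F : Type}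
  [TopologicalSpace F] [ChartedSpace E₂ F] {A : TorusAction E₂ n F} {X Z : Type}
  [TopologicalSpace X] [TopologicalSpace Z] [ChartedSpace (E₁ × E₂) X] [ChartedSpace E₁ Z]
  {π : X → Z} (h : TorusBundle E₁ A π)
  [IsManifold 𝓘(ℂ, E₁) ω Z] [IsManifold 𝓘(ℂ, E₂) ω F] [IsManifold 𝓘(ℂ, E₁ × E₂) ω X]
  {M : LineBundle E₁ Z} {B : LineBundle E₂ F} {Λ : Linearization A B} {k m : ℕ}

omit [MeasureSpace E₁] [BorelSpace E₁] [(volume : Measure E₁).IsAddHaarMeasure]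
  [MeasureSpace E₂] [BorelSpace E₂] [(volume : Measure E₂).IsAddHaarMeasure] in
/-- Products of values of the restrictions. -/
theorem prod_slice_hol (s : Sec (h.twist M Λ) k m) {q : ℕ} {l : Fin q → (secMod B k m →ₗ[ℂ] ℂ)}
    (hl : ∀ r, IsEval (l r)) {i : M.ι} {p : h.P} {φ : OpenPartialHomeomorph Z E₁}
    (hφ : φ ∈ Charts E₁ Z) {z : Z} (hi : z ∈ M.U i) (hp : z ∈ h.W p) (hz : z ∈ φ.source) :
    HolAt E₁ (fun z => ∏ r, l r (h.slice s i p φ z)) z :=
  contMDiffAt_finsetProd (fun r _ => h.slice_hol s (hl r) hφ hi hp hz)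

omit [MeasureSpace E₁] [BorelSpace E₁] [(volume : Measure E₁).IsAddHaarMeasure]
  [MeasureSpace E₂] [BorelSpace E₂] [(volume : Measure E₂).IsAddHaarMeasure] in
theorem prod_slice_trans (s : Sec (h.twist M Λ) k m) {q : ℕ}
    {l : Fin q → (secMod B k m →ₗ[ℂ] ℂ)} {w : Fin q → Fin n → ℤ} {χ : Fin n → ℤ}
    (hw : ∀ c, ∑ r, w r c = q * k * χ c)
    (hl : ∀ r a t t', InT a → Λ.IsAct a t t' → l r t' = chr (w r) a * l r t)
    {i j : M.ι} {p p' : h.P} {φ φ' : OpenPartialHomeomorph Z E₁} (hφ : φ ∈ Charts E₁ Z)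
    (hφ' : φ' ∈ Charts E₁ Z) {z : Z} (hi : z ∈ M.U i) (hj : z ∈ M.U j) (hp : z ∈ h.W p)
    (hp' : z ∈ h.W p') (hz : z ∈ φ.source) (hz' : z ∈ φ'.source) :
    ∏ r, l r (h.slice s i p φ z) = (h.wt M χ).g (i, p) (j, p') z ^ (q * k) *
      jac φ φ' z ^ (q * m) * ∏ r, l r (h.slice s j p' φ' z) := by
  have h1 := h.slice_isAct s hφ hφ' hi hj hp hp' hz hz'
  have hT := h.γ_inT p p' z hp hp'
  have h2 : ∀ r, l r (h.slice s i p φ z) = chr (w r) (h.γ p p' z) *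
      ((M.g i j z ^ k * jac φ φ' z ^ m) * l r (h.slice s j p' φ' z)) := by
    intro r
    rw [hl r _ _ _ hT h1, map_smul, smul_eq_mul]
  have h3 := prod_chr w χ (q * k) (by
    intro c
    rw [hw c]
    push_cast
    ring) hT
  calc ∏ r, l r (h.slice s i p φ z)
      = ∏ r, (chr (w r) (h.γ p p' z) *
        ((M.g i j z ^ k * jac φ φ' z ^ m) * l r (h.slice s j p' φ' z))) :=
        Finset.prod_congr rfl (fun r _ => h2 r)
    _ = (∏ r, chr (w r) (h.γ p p' z)) * ((M.g i j z ^ k * jac φ φ' z ^ m) ^ q *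
        ∏ r, l r (h.slice s j p' φ' z)) := by
        rw [Finset.prod_mul_distrib, Finset.prod_mul_distrib, Finset.prod_const,
          Finset.card_univ, Fintype.card_fin]
    _ = _ := by
        rw [h3]
        show _ = (M.g i j z * chr χ (h.γ p p' z)) ^ (q * k) * _ * _
        rw [mul_pow, mul_pow, ← pow_mul, ← pow_mul, mul_comm k q, mul_comm m q]
        ring

/-- The section `∑ c_j ∏_r l_j,r` of `(M ⊗ L_χ) ^ (qk) ⊗ K ^ (-qm)`. -/
noncomputable def monoSec (s : Sec (h.twist M Λ) k m) {q : ℕ} {J : Type} [Fintype J]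
    {l : J → Fin q → (secMod B k m →ₗ[ℂ] ℂ)} {w : J → Fin q → Fin n → ℤ} {χ : Fin n → ℤ}
    (hw : ∀ j c, ∑ r, w j r c = q * k * χ c) (hE : ∀ j r, IsEval (l j r))
    (hl : ∀ j r a t t', InT a → Λ.IsAct a t t' → l j r t' = chr (w j r) a * l j r t)
    (c : J → ℂ) : Sec (h.wt M χ) (q * k) (q * m) where
  f := fun i φ z => ∑ j, c j * ∏ r, l j r (h.slice s i.1 i.2 φ z)
  hol := by
    rintro ⟨i, p⟩ φ hφ z ⟨hi, hp⟩ hz
    apply contMDiffAt_finsetSum
    intro j _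
    have h1 : HolAt E₁ (fun _ : Z => c j) z := contMDiffAt_const
    exact h1.mul (h.prod_slice_hol s (hE j) hφ hi hp hz)
  trans := by
    rintro ⟨i, p⟩ ⟨j, p'⟩ φ hφ φ' hφ' z ⟨hi, hp⟩ ⟨hj, hp'⟩ hz hz'
    show ∑ j', c j' * ∏ r, l j' r (h.slice s i p φ z) = _ * ∑ j', c j' * ∏ r, l j' r
      (h.slice s j p' φ' z)
    rw [Finset.mul_sum]
    apply Finset.sum_congr rfl
    intro j' _
    rw [h.prod_slice_trans s (hw j') (hl j') hφ hφ' hi hj hp hp' hz hz']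
    ring

/-- (2): the klt section over the section of `π` given by a fixed point. -/
theorem exists_point_klt [CompactSpace Z] (s : Sec (h.twist M Λ) k m) (hs : s.Klt) (hm : 1 ≤ m)
    (C : FinCover B) {χ : Fin n → ℤ} (hN : NormData Λ C k m χ) :
    ∃ q : ℕ, 1 ≤ q ∧ ∃ g : Sec (h.wt M χ) (q * k) (q * m), g.Klt := by
  obtain ⟨q, J, _, l, w, K, hq, hK, hK0, hw, hE, hl, hn⟩ := hN
  -- local data
  have hloc : ∀ z : Z, ∃ (i : M.ι) (p : h.P) (φ : OpenPartialHomeomorph Z E₁) (N : Set E₁),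
      φ ∈ Charts E₁ Z ∧ z ∈ φ.source ∧ IsOpen N ∧ φ z ∈ N ∧
      N ⊆ φ '' (M.U i ∩ h.W p ∩ φ.source) ∧
      ∫⁻ v in N, C.int m (h.slice s i p φ (φ.symm v)).1 < ⊤ := by
    intro z
    obtain ⟨p, hp⟩ := h.cover z
    obtain ⟨i, hi⟩ := M.cover z
    have hφ := IsManifold.chart_mem_maximalAtlas (I := 𝓘(ℂ, E₁)) (n := ω) z
    obtain ⟨N, h1, h2, h3, h4⟩ := h.klt_slice s hs C hφ hi hp (mem_chart_source E₁ z)
    exact ⟨i, p, chartAt E₁ z, N, hφ, mem_chart_source E₁ z, h1, h2, h3, h4⟩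
  choose i p φ N hφ hzφ hNo hzN hNs hNf using hloc
  obtain ⟨T, hT⟩ := CompactSpace.elim_nhds_subcover
    (fun z => (φ z).source ∩ (φ z) ⁻¹' (N z)) (fun z =>
      ((φ z).continuousOn.isOpen_inter_preimage (φ z).open_source (hNo z)).mem_nhds
        ⟨hzφ z, hzN z⟩)
  have hm0 : (0 : ℝ) < m := by exact_mod_cast hm
  have hq0 : (2 : ℝ) ≤ q := by exact_mod_cast hq
  have hm1 : (1 : ℝ) ≤ m := by exact_mod_cast hm
  have hmq : (0 : ℝ) < (m : ℝ) * q := by positivity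
  have hτ : (0 : ℝ) < 2 / ((m : ℝ) * q) := by positivity
  have hτ2 : (2 : ℝ) / ((m : ℝ) * q) < 2 := by
    rw [div_lt_iff₀ hmq]
    nlinarith
  have hcont : ∀ (z : Z) (j : J), ContinuousOn
      (fun v => ∏ r, l j r (h.slice s (i z) (p z) (φ z) ((φ z).symm v))) (N z) := by
    intro z j v hv
    obtain ⟨z', ⟨⟨h1, h2⟩, h3⟩, h4⟩ := hNs z hv
    have h5 := (h.prod_slice_hol s (hE j) (hφ z) h1 h2 h3).continuousAt
    have h6 : ContinuousAt (φ z).symm v := by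
      rw [← h4]
      exact (φ z).continuousAt_symm ((φ z).map_source h3)
    have h7 : (φ z).symm v = z' := by rw [← h4, (φ z).left_inv h3]
    rw [← h7] at h5
    exact (ContinuousAt.comp h5 h6).continuousWithinAt
  obtain ⟨c, hc⟩ := bertini (J := T) (Λ := J) (fun z => volume.restrict (N z))
    (fun z j v => ∏ r, l j r (h.slice s (i z) (p z) (φ z) ((φ z).symm v)))
    (fun z j => (hcont z j).aemeasurable (hNo z).measurableSet) hτ hτ2 (by
      intro z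
      refine lt_of_le_of_lt (lintegral_mono (fun v => ?_)) (?_ : ∫⁻ v in N z,
        K * C.int m (h.slice s (i z) (p z) (φ z) ((φ z).symm v)).1 < ⊤)
      · have h1 := hn (h.slice s (i z) (p z) (φ z) ((φ z).symm v))
        rwa [neg_div] at h1
      · rw [lintegral_const_mul' _ _ hK]
        exact ENNReal.mul_lt_top hK.lt_top (hNf z))
  refine ⟨q, by omega, h.monoSec s hw hE hl c, ?_⟩
  apply klt_of_local
  intro z
  have h1 : z ∈ ⋃ x ∈ T, (φ x).source ∩ (φ x) ⁻¹' (N x) := by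
    rw [hT]
    trivial
  simp only [mem_iUnion, exists_prop] at h1
  obtain ⟨t, htT, hz1, hz2⟩ := h1
  obtain ⟨z', ⟨⟨h2, h3⟩, h4⟩, h5⟩ := hNs t hz2
  have h6 : z' = z := (φ t).injOn h4 hz1 h5
  rw [h6] at h2 h3
  refine ⟨(i t, p t), φ t, hφ t, ⟨h2, h3⟩, hz1, N t, (hNo t).mem_nhds hz2, ?_⟩
  have h7 := hc ⟨t, htT⟩
  have h8 : -(2 : ℝ) / ((q * m : ℕ) : ℝ) = -(2 / ((m : ℝ) * q)) := by
    push_cast
    rw [neg_div, mul_comm]
  rw [h8]
  exact h7

end TorusBundle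

end Pool.Agent.Abd
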