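import Pool.Agent.H.MP_e23cd6_ag.TB.Basic2
import Pool.Agent.H.MP_e23cd6_ag.Nef2

/-! Pull-back of nef and semiample line bundles. -/

set_option autoImplicit false

open scoped Manifold ContDiff Topology ENNReal
open MeasureTheory Set Filter

namespace Pool.Agent.Abd

/-- The line bundle `B'` is the pull-back of `B` under `f` (for the frames of `B` with the indices
`r i`). -/
structure Restr {E E' : Type} [NormedAddCommGroup E] [NormedSpace ℂ E] [NormedAddCommGroup E']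
    [NormedSpace ℂ E'] {M N : Type} [TopologicalSpace M] [ChartedSpace E M] [TopologicalSpace N]
    [ChartedSpace E' N] (f : N → M) (B' : LineBundle E' N) (B : LineBundle E M) where
  r : B'.ι → B.ι
  mem : ∀ i y, y ∈ B'.U i → f y ∈ B.U (r i)
  g : ∀ i j y, y ∈ B'.U i → y ∈ B'.U j → B'.g i j y = B.g (r i) (r j) (f y)

variable {E E' : Type} [NormedAddCommGroup E] [NormedSpace ℂ E] [NormedAddCommGroup E']
  [NormedSpace ℂ E'] {M N : Type} [TopologicalSpace M] [ChartedSpace E M] [TopologicalSpace N]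
  [ChartedSpace E' N]

theorem LineBundle.g_mul_inv (B : LineBundle E M) {i j : B.ι} {x : M} (hi : x ∈ B.U i)
    (hj : x ∈ B.U j) : B.g i j x * B.g j i x = 1 := by
  rw [B.mul i j i x hi hj hi, B.one i x hi]

theorem LineBundle.g_ne_zero (B : LineBundle E M) {i j : B.ι} {x : M} (hi : x ∈ B.U i)
    (hj : x ∈ B.U j) : B.g i j x ≠ 0 := by
  intro h0
  have h1 := B.g_mul_inv hi hj
  rw [h0, zero_mul] at h1
  exact zero_ne_one h1

/-- Proof. Let `k ≥ 1` be as in the hypothesis. Pull back a section `s` of `B ^ k` with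
`s.f i (f y) ≠ 0`: `s'.f i' y := s.f (r i') (f y)`; holomorphic by composition. -/
theorem Restr.semiample {f : N → M} {B' : LineBundle E' N} {B : LineBundle E M}
    (hr : Restr f B' B) (hf : ContMDiff 𝓘(ℂ, E') 𝓘(ℂ, E) ω f) (hB : B.Semiample) :
    B'.Semiample := by
  obtain ⟨k, hk, hB⟩ := hB
  refine ⟨k, hk, fun y => ?_⟩
  obtain ⟨s, i, hi, hs⟩ := hB (f y)
  obtain ⟨i', hi'⟩ := B'.cover y
  refine ⟨⟨fun j y => s.f (hr.r j) (f y), fun j y hj => ?_, fun j l y hj hl => ?_⟩, i', hi', ?_⟩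
  · exact (s.hol (hr.r j) (f y) (hr.mem j y hj)).comp y (hf y)
  · rw [hr.g j l y hj hl]
    exact s.trans _ _ (f y) (hr.mem j y hj) (hr.mem l y hl)
  · show s.f (hr.r i') (f y) ≠ 0
    rw [s.trans (hr.r i') i (f y) (hr.mem i' y hi') hi]
    exact mul_ne_zero (pow_ne_zero _ (B.g_ne_zero (hr.mem i' y hi') hi)) hs

/-- Proof. For the curve `ν : C → N` and the meromorphic section `σ'` of `ν^* B'` with orders `o` take
the curve `f ∘ ν` and the meromorphic section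
`σ j c := B.g j (r i') (f (ν c)) * σ' i' c`, `i' := (B'.cover (ν c)).choose`; it does not depend on the
choice of `i'` if `f (ν c) ∈ B.U j`. -/
theorem Restr.nef {f : N → M} {B' : LineBundle E' N} {B : LineBundle E M}
    (hr : Restr f B' B) (hf : ContMDiff 𝓘(ℂ, E') 𝓘(ℂ, E) ω f) (hB : B.Nef) : B'.Nef := by
  intro C _ _ _ _ _ _ ν hν σ' o hσ
  have key : ∀ (j : B.ι) (c : C) (i₀ i₁ : B'.ι), f (ν c) ∈ B.U j → ν c ∈ B'.U i₀ → ν c ∈ B'.U i₁ →
      B.g j (hr.r i₁) (f (ν c)) * σ' i₁ c = B.g j (hr.r i₀) (f (ν c)) * σ' i₀ c := by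
    intro j c i₀ i₁ hj h0 h1
    rw [hσ.1 i₁ i₀ c h1 h0, hr.g i₁ i₀ _ h1 h0, ← mul_assoc,
      B.mul j (hr.r i₁) (hr.r i₀) _ hj (hr.mem _ _ h1) (hr.mem _ _ h0)]
  refine hB C (f ∘ ν) (hf.comp hν)
    (fun j c => B.g j (hr.r (B'.cover (ν c)).choose) (f (ν c)) * σ' (B'.cover (ν c)).choose c) o ?_
  refine nef2_meroSec B (hf.comp hν) _ o (fun i j c hi hj => ?_) (fun c => ?_)
  · have h1 := (B'.cover (ν c)).choose_spec
    simp only [Function.comp] at hi hj ⊢
    rw [← mul_assoc, B.mul i j _ _ hi hj (hr.mem _ _ h1)]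
  · obtain ⟨i₀, h0⟩ := B'.cover (ν c)
    have hχ := IsManifold.chart_mem_maximalAtlas (I := 𝓘(ℂ)) (n := ω) c
    have hc := mem_chart_source ℂ c
    refine ⟨hr.r i₀, chartAt ℂ c, hχ, hr.mem _ _ h0, hc, ?_⟩
    have hev : ∀ᶠ z in 𝓝 (chartAt ℂ c c), ν ((chartAt ℂ c).symm z) ∈ B'.U i₀ :=
      (nef2_ev_symm hc).eventually ((hν c).continuousAt.eventually ((B'.isOpen i₀).mem_nhds h0))
    have heq : (fun c => B.g (hr.r i₀) (hr.r (B'.cover (ν c)).choose) (f (ν c)) *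
        σ' (B'.cover (ν c)).choose c) ∘ (chartAt ℂ c).symm =ᶠ[𝓝 (chartAt ℂ c c)]
        σ' i₀ ∘ (chartAt ℂ c).symm := by
      filter_upwards [hev] with z hz
      simp only [Function.comp]
      rw [key (hr.r i₀) ((chartAt ℂ c).symm z) i₀ _ (hr.mem _ _ hz) hz
        (B'.cover (ν ((chartAt ℂ c).symm z))).choose_spec, B.one _ _ (hr.mem _ _ hz), one_mul]
    have heq' := heq.filter_mono (nhdsWithin_le_nhds (s := {chartAt ℂ c c}ᶜ))
    obtain ⟨h2, h3⟩ := hσ.2 i₀ c _ hχ h0 hc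
    exact ⟨h2.congr heq'.symm, by rw [meromorphicOrderAt_congr heq']; exact h3⟩

end Pool.Agent.Abd
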