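import Pool.Agent.H.MP_e23cd6_ag.TB.Jac3

/-! Torus bundles: the restriction of a section of `(twist M Λ) ^ k ⊗ K ^ (-m)` to the fibres. -/

set_option autoImplicit false

open scoped Manifold ContDiff Topology ENNReal
open MeasureTheory Set Filter

namespace Pool.Agent.Abd

theorem jac_self {E : Type} [NormedAddCommGroup E] [NormedSpace ℂ E] [FiniteDimensional ℂ E]
    {M : Type} [TopologicalSpace M] {φ : OpenPartialHomeomorph M E} {x : M} (hx : x ∈ φ.source) :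
    jac φ φ x = 1 := by
  unfold jac
  have h1 : φ ∘ φ.symm =ᶠ[𝓝 (φ x)] id := by
    filter_upwards [φ.open_target.mem_nhds (φ.map_source hx)] with v hv
    exact φ.right_inv hv
  rw [h1.fderiv_eq, fderiv_id]
  exact LinearMap.det_id

theorem TorusAction.jac_one {E : Type} [NormedAddCommGroup E] [NormedSpace ℂ E] {n : ℕ}
    {F : Type} [TopologicalSpace F] [ChartedSpace E F] (A : TorusAction E n F)
    (φ ψ : OpenPartialHomeomorph F E) (y : F) : A.jac φ ψ 1 y = Abd.jac φ ψ y := by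
  unfold TorusAction.jac Abd.jac
  have h1 : A.act 1 = id := funext A.one
  rw [h1]
  rfl

namespace TorusBundle

variable {E₁ E₂ : Type} [NormedAddCommGroup E₁] [NormedSpace ℂ E₁] [FiniteDimensional ℂ E₁]
  [NormedAddCommGroup E₂] [NormedSpace ℂ E₂] [FiniteDimensional ℂ E₂] {n : ℕ} {F : Type}
  [TopologicalSpace F] [ChartedSpace E₂ F] {A : TorusAction E₂ n F} {X Z : Type}
  [TopologicalSpace X] [TopologicalSpace Z] [ChartedSpace (E₁ × E₂) X] [ChartedSpace E₁ Z]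
  {π : X → Z} (h : TorusBundle E₁ A π)
  [IsManifold 𝓘(ℂ, E₁) ω Z] [IsManifold 𝓘(ℂ, E₂) ω F] [IsManifold 𝓘(ℂ, E₁ × E₂) ω X]
  {M : LineBundle E₁ Z} {B : LineBundle E₂ F} {Λ : Linearization A B} {k m : ℕ}

omit [FiniteDimensional ℂ E₁] [FiniteDimensional ℂ E₂] in
theorem pt_mem_twist {φ : OpenPartialHomeomorph Z E₁} (hφ : φ ∈ Charts E₁ Z)
    {ψ : OpenPartialHomeomorph F E₂} (hψ : ψ ∈ Charts E₂ F) {i : M.ι} {p : h.P} {z : Z}
    (hi : z ∈ M.U i) (hp : z ∈ h.W p) (hz : z ∈ φ.source) {u : B.ι} {y : F} (hu : y ∈ B.U u)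
    (hy : y ∈ ψ.source) : h.pt p φ hφ ψ hψ z y ∈ (h.twist M Λ).U (i, p, u) := by
  refine ⟨?_, ?_, ?_⟩
  · show π _ ∈ M.U i
    rw [h.pi_pt hφ hψ p hp hz hy]
    exact hi
  · show π _ ∈ h.W p
    rw [h.pi_pt hφ hψ p hp hz hy]
    exact hp
  · show h.τ p _ ∈ B.U u
    rw [h.tau_pt hφ hψ p hp hz hy]
    exact hu

open Classical in
/-- The restriction of the section `s` to the fibre over `z` (for the frame `i` of `M`, the
trivialisation `p` and the chart `φ` of `Z`). -/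
noncomputable def sliceFun (s : Sec (h.twist M Λ) k m) (i : M.ι) (p : h.P)
    (φ : OpenPartialHomeomorph Z E₁) (hφ : φ ∈ Charts E₁ Z) (z : Z) :
    B.ι → OpenPartialHomeomorph F E₂ → F → ℂ := fun u ψ y =>
  if hψ : ψ ∈ Charts E₂ F then
    if y ∈ B.U u ∧ y ∈ ψ.source then s.f (i, p, u) (h.κ p φ hφ ψ hψ) (h.pt p φ hφ ψ hψ z y)
    else 0
  else 0

omit [FiniteDimensional ℂ E₁] [FiniteDimensional ℂ E₂] in
theorem sliceFun_apply (s : Sec (h.twist M Λ) k m) (i : M.ι) (p : h.P)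
    {φ : OpenPartialHomeomorph Z E₁} (hφ : φ ∈ Charts E₁ Z) (z : Z) {u : B.ι}
    {ψ : OpenPartialHomeomorph F E₂} (hψ : ψ ∈ Charts E₂ F) {y : F} (hu : y ∈ B.U u)
    (hy : y ∈ ψ.source) : h.sliceFun s i p φ hφ z u ψ y =
      s.f (i, p, u) (h.κ p φ hφ ψ hψ) (h.pt p φ hφ ψ hψ z y) := by
  unfold sliceFun
  rw [dif_pos hψ, if_pos ⟨hu, hy⟩]

/-- The values of the section are holomorphic in `(z, y)`. -/
theorem pt_holAt (s : Sec (h.twist M Λ) k m) {φ : OpenPartialHomeomorph Z E₁}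
    (hφ : φ ∈ Charts E₁ Z) {ψ : OpenPartialHomeomorph F E₂} (hψ : ψ ∈ Charts E₂ F) {i : M.ι}
    {p : h.P} {z : Z} (hi : z ∈ M.U i) (hp : z ∈ h.W p) (hz : z ∈ φ.source) {u : B.ι} {y : F}
    (hu : y ∈ B.U u) (hy : y ∈ ψ.source) :
    ContMDiffAt (𝓘(ℂ, E₁).prod 𝓘(ℂ, E₂)) 𝓘(ℂ) ω
      (fun v : Z × F => s.f (i, p, u) (h.κ p φ hφ ψ hψ) (h.pt p φ hφ ψ hψ v.1 v.2)) (z, y) := by
  have h1 := s.hol (i, p, u) _ (h.κ_mem hφ hψ p) _ (h.pt_mem_twist hφ hψ hi hp hz hu hy)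
    (h.pt_mem hφ hψ p hp hz hy)
  exact ContMDiffAt.comp (z, y) h1 (h.pt_contMDiffAt hφ hψ p hp hz hy)

theorem sliceFun_mem (s : Sec (h.twist M Λ) k m) {i : M.ι} {p : h.P}
    {φ : OpenPartialHomeomorph Z E₁} (hφ : φ ∈ Charts E₁ Z) {z : Z} (hi : z ∈ M.U i)
    (hp : z ∈ h.W p) (hz : z ∈ φ.source) : h.sliceFun s i p φ hφ z ∈ secMod B k m := by
  refine ⟨fun u ψ y h0 => ?_, fun u ψ hψ y hu hy => ?_, fun u v ψ hψ ψ' hψ' y hu hv hy hy' => ?_⟩
  · unfold sliceFun at h0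
    by_cases hψ : ψ ∈ Charts E₂ F
    · rw [dif_pos hψ] at h0
      by_cases h1 : y ∈ B.U u ∧ y ∈ ψ.source
      · exact ⟨hψ, h1⟩
      · rw [if_neg h1] at h0
        exact absurd rfl h0
    · rw [dif_neg hψ] at h0
      exact absurd rfl h0
  · have h1 := h.pt_holAt s hφ hψ hi hp hz hu hy
    have h2 : ContMDiffAt 𝓘(ℂ, E₂) (𝓘(ℂ, E₁).prod 𝓘(ℂ, E₂)) ω (fun y' : F => (z, y')) y :=
      contMDiffAt_const.prodMk contMDiffAt_id
    have h3 := ContMDiffAt.comp y h1 h2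
    refine h3.congr_of_eventuallyEq ?_
    filter_upwards [ψ.open_source.mem_nhds hy, (B.isOpen u).mem_nhds hu] with y' h4 h5
    exact h.sliceFun_apply s i p hφ z hψ h5 h4
  · rw [h.sliceFun_apply s i p hφ z hψ hu hy, h.sliceFun_apply s i p hφ z hψ' hv hy']
    have e1 : h.pt p φ hφ ψ' hψ' z y = h.pt p φ hφ ψ hψ z y :=
      h.eq_pt hφ hψ p hp hz hy (h.pi_pt hφ hψ' p hp hz hy') (h.tau_pt hφ hψ' p hp hz hy')
    have h1 := h.pi_pt hφ hψ p hp hz hy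
    have h2 := h.tau_pt hφ hψ p hp hz hy
    rw [e1, s.trans (i, p, u) (i, p, v) _ (h.κ_mem hφ hψ p) _ (h.κ_mem hφ hψ' p) _
      (h.pt_mem_twist hφ hψ hi hp hz hu hy)
      (by rw [← e1]; exact h.pt_mem_twist hφ hψ' hi hp hz hv hy')
      (h.pt_mem hφ hψ p hp hz hy) (by rw [← e1]; exact h.pt_mem hφ hψ' p hp hz hy'),
      h.jac_κ p p hφ hφ hψ hψ' (by rw [h1]; exact hp) (by rw [h1]; exact hp)
        (by rw [h1]; exact hz) (by rw [h1]; exact hz) (by rw [h2]; exact hy)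
        (by rw [h2]; exact hy'), h1, h2, h.γ_one p z hp, A.jac_one, jac_self hz, one_mul]
    have h3 : (h.twist M Λ).g (i, p, u) (i, p, v) (h.pt p φ hφ ψ hψ z y) = B.g u v y := by
      show M.g i i (π _) * Λ.lam u v (h.γ p p (π _)) (h.τ p _) = _
      rw [h1, h2, M.one i z hi, h.γ_one p z hp, Λ.one u v y hu hv, one_mul]
    rw [h3]

open Classical in
/-- The restriction of the section `s` to the fibre over `z` (for the frame `i` of `M`, the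
trivialisation `p` and the chart `φ` of `Z`). -/
noncomputable def slice (s : Sec (h.twist M Λ) k m) (i : M.ι) (p : h.P)
    (φ : OpenPartialHomeomorph Z E₁) (z : Z) : secMod B k m :=
  if hz : φ ∈ Charts E₁ Z ∧ z ∈ M.U i ∧ z ∈ h.W p ∧ z ∈ φ.source then
    ⟨h.sliceFun s i p φ hz.1 z, h.sliceFun_mem s hz.1 hz.2.1 hz.2.2.1 hz.2.2.2⟩
  else 0

theorem slice_apply (s : Sec (h.twist M Λ) k m) {i : M.ι} {p : h.P}
    {φ : OpenPartialHomeomorph Z E₁} (hφ : φ ∈ Charts E₁ Z) {z : Z} (hi : z ∈ M.U i)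
    (hp : z ∈ h.W p) (hz : z ∈ φ.source) {u : B.ι} {ψ : OpenPartialHomeomorph F E₂}
    (hψ : ψ ∈ Charts E₂ F) {y : F} (hu : y ∈ B.U u) (hy : y ∈ ψ.source) :
    (h.slice s i p φ z).1 u ψ y =
      s.f (i, p, u) (h.κ p φ hφ ψ hψ) (h.pt p φ hφ ψ hψ z y) := by
  unfold slice
  rw [dif_pos ⟨hφ, hi, hp, hz⟩]
  exact h.sliceFun_apply s i p hφ z hψ hu hy

/-- The relation of the restrictions for different frames. -/
theorem slice_isAct (s : Sec (h.twist M Λ) k m) {i j : M.ι} {p q : h.P}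
    {φ φ' : OpenPartialHomeomorph Z E₁} (hφ : φ ∈ Charts E₁ Z) (hφ' : φ' ∈ Charts E₁ Z) {z : Z}
    (hi : z ∈ M.U i) (hj : z ∈ M.U j) (hp : z ∈ h.W p) (hq : z ∈ h.W q) (hz : z ∈ φ.source)
    (hz' : z ∈ φ'.source) :
    Λ.IsAct (h.γ p q z) ((M.g i j z ^ k * jac φ φ' z ^ m) • h.slice s j q φ' z)
      (h.slice s i p φ z) := by
  intro u v ψ hψ ψ' hψ' y hu hv hy hy'
  show (h.slice s i p φ z).1 u ψ (A.act (h.γ p q z) y) = Λ.lam u v (h.γ p q z) y ^ k *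
    A.jac ψ ψ' (h.γ p q z) y ^ m *
      ((M.g i j z ^ k * jac φ φ' z ^ m) * (h.slice s j q φ' z).1 v ψ' y)
  rw [h.slice_apply s hφ hi hp hz hψ hu hy, h.slice_apply s hφ' hj hq hz' hψ' hv hy']
  have h1 := h.pi_pt hφ' hψ' q hq hz' hy'
  have h2 := h.tau_pt hφ' hψ' q hq hz' hy'
  have h3 : h.τ p (h.pt q φ' hφ' ψ' hψ' z y) = A.act (h.γ p q z) y := by
    rw [h.τ_trans p q _ (by rw [h1]; exact hp) (by rw [h1]; exact hq), h1, h2]
  have e1 : h.pt q φ' hφ' ψ' hψ' z y = h.pt p φ hφ ψ hψ z (A.act (h.γ p q z) y) :=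
    h.eq_pt hφ hψ p hp hz hy h1 h3
  rw [← e1, s.trans (i, p, u) (j, q, v) _ (h.κ_mem hφ hψ p) _ (h.κ_mem hφ' hψ' q) _
    (by rw [e1]; exact h.pt_mem_twist hφ hψ hi hp hz hu hy)
    (h.pt_mem_twist hφ' hψ' hj hq hz' hv hy')
    (by rw [e1]; exact h.pt_mem hφ hψ p hp hz hy) (h.pt_mem hφ' hψ' q hq hz' hy'),
    h.jac_κ p q hφ hφ' hψ hψ' (by rw [h1]; exact hp) (by rw [h1]; exact hq)
        (by rw [h1]; exact hz) (by rw [h1]; exact hz') (by rw [h3]; exact hy)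
        (by rw [h2]; exact hy'), h1, h2]
  have h4 : (h.twist M Λ).g (i, p, u) (j, q, v) (h.pt q φ' hφ' ψ' hψ' z y) =
      M.g i j z * Λ.lam u v (h.γ p q z) y := by
    show M.g i j (π _) * Λ.lam u v (h.γ p q (π _)) (h.τ q _) = _
    rw [h1, h2]
  rw [h4]
  ring

/-- Linear combinations of values of the restriction are holomorphic in `z`. -/
theorem slice_hol (s : Sec (h.twist M Λ) k m) {l : secMod B k m →ₗ[ℂ] ℂ} (hl : IsEval l)
    {i : M.ι} {p : h.P} {φ : OpenPartialHomeomorph Z E₁} (hφ : φ ∈ Charts E₁ Z) {z : Z}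
    (hi : z ∈ M.U i) (hp : z ∈ h.W p) (hz : z ∈ φ.source) :
    HolAt E₁ (fun z => l (h.slice s i p φ z)) z := by
  obtain ⟨S, c, v, hv⟩ := hl
  have h1 : HolAt E₁ (fun z' => ∑ a ∈ S, c a * s.f (i, p, (v a).i) (h.κ p φ hφ (v a).φ (v a).hφ)
      (h.pt p φ hφ (v a).φ (v a).hφ z' (v a).x)) z := by
    apply contMDiffAt_finsetSum
    intro a _
    have h2 := h.pt_holAt s hφ (v a).hφ hi hp hz (v a).hi (v a).hx
    have h3 : ContMDiffAt 𝓘(ℂ, E₁) (𝓘(ℂ, E₁).prod 𝓘(ℂ, E₂)) ω (fun z' : Z => (z', (v a).x)) z :=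
      contMDiffAt_id.prodMk contMDiffAt_const
    have h4 : HolAt E₁ (fun z' => s.f (i, p, (v a).i) (h.κ p φ hφ (v a).φ (v a).hφ)
      (h.pt p φ hφ (v a).φ (v a).hφ z' (v a).x)) z :=
      ContMDiffAt.comp (g := fun w : Z × F => s.f (i, p, (v a).i) (h.κ p φ hφ (v a).φ (v a).hφ)
        (h.pt p φ hφ (v a).φ (v a).hφ w.1 w.2)) (f := fun z' : Z => (z', (v a).x)) z h2 h3
    have h5 : HolAt E₁ (fun _ : Z => c a) z := contMDiffAt_const
    exact h5.mul h4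
  refine h1.congr_of_eventuallyEq ?_
  filter_upwards [(M.isOpen i).mem_nhds hi, (h.isOpen p).mem_nhds hp,
    φ.open_source.mem_nhds hz] with z' hi' hp' hz'
  rw [hv]
  apply Finset.sum_congr rfl
  intro a _
  rw [h.slice_apply s hφ hi' hp' hz' (v a).hφ (v a).hi (v a).hx]

end TorusBundle

end Pool.Agent.Abd
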